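import Pool.Agent.Lib.MP_ef2672_gt_Over.Defs

/-!
MP_ef2672, TT6, row R6: the autocorrelation inequality with the covered fraction (Cauchy-Schwarz
on the unit cube for the number of ellipsoids containing a point).
-/

set_option autoImplicit false

namespace Pool.Agent.Lib.MP_ef2672_gt_Over.Auto

open Pool.Agent.Lib.MP_ef2672_gt_Tauber Pool.Agent.Lib.EF_h73 MeasureTheory Filter Topology
open scoped ENNReal

/-- The half-open unit cube. -/
def cube (n : ℕ) : Set (Fin n → ℝ) := {t | ∀ i, 0 ≤ t i ∧ t i < 1}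

/-- An integer vector as a real vector. -/
def cast {n : ℕ} (w : Fin n → ℤ) : Fin n → ℝ := fun i => (w i : ℝ)

lemma measurableSet_cube (n : ℕ) : MeasurableSet (cube n) := by
  unfold cube
  rw [Set.ofPred_forall]
  refine MeasurableSet.iInter fun i => ?_
  exact (measurableSet_le measurable_const (measurable_pi_apply i)).inter
    (measurableSet_lt (measurable_pi_apply i) measurable_const)

/-- Unfolding an integral over space. -/
lemma unfold_cube {n : ℕ} (g : (Fin n → ℝ) → ℝ≥0∞) :
    ∑' w : Fin n → ℤ, ∫⁻ t in cube n, g (t - cast w) = ∫⁻ x, g x := by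
  have hpart : ∀ w : Fin n → ℤ, ∫⁻ t in cube n, g (t - cast w) =
      ∫⁻ x in {x : Fin n → ℝ | x + cast w ∈ cube n}, g x := by
    intro w
    have hm : MeasurableSet {x : Fin n → ℝ | x + cast w ∈ cube n} :=
      (measurable_id.add_const (cast w)) (measurableSet_cube n)
    rw [← lintegral_indicator (measurableSet_cube n), ← lintegral_indicator hm]
    rw [← lintegral_add_right_eq_self (μ := (volume : Measure (Fin n → ℝ))) _ (cast w)]
    refine lintegral_congr fun x => ?_
    by_cases hx : x + cast w ∈ cube n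
    · rw [Set.indicator_of_mem hx, Set.indicator_of_mem (show x ∈ {x : Fin n → ℝ |
        x + cast w ∈ cube n} from hx), add_sub_cancel_right]
    · rw [Set.indicator_of_notMem hx, Set.indicator_of_notMem (show x ∉ {x : Fin n → ℝ |
        x + cast w ∈ cube n} from hx)]
  rw [tsum_congr hpart, ← lintegral_iUnion]
  · have huniv : (⋃ w : Fin n → ℤ, {x : Fin n → ℝ | x + cast w ∈ cube n}) = Set.univ := by
      ext x
      simp only [Set.mem_iUnion, Set.mem_univ, iff_true]
      refine ⟨fun i => -⌊x i⌋, fun i => ?_⟩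
      have h1 := Int.floor_le (x i)
      have h2 := Int.lt_floor_add_one (x i)
      simp only [cast, Pi.add_apply, Int.cast_neg]
      constructor <;> linarith
    rw [huniv, Measure.restrict_univ]
  · intro w
    exact (measurable_id.add_const (cast w)) (measurableSet_cube n)
  · intro w w' hww
    rw [Function.onFun, Set.disjoint_left]
    intro x hx hx'
    apply hww
    ext i
    have h1 := hx i
    have h2 := hx' i
    simp only [cast, Pi.add_apply] at h1 h2
    have h3 : ((w i - w' i : ℤ) : ℝ) < 1 := by push_cast; linarith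
    have h4 : ((w' i - w i : ℤ) : ℝ) < 1 := by push_cast; linarith
    have h3' : w i - w' i < 1 := by exact_mod_cast h3
    have h4' : w' i - w i < 1 := by exact_mod_cast h4
    omega

/-- The ellipsoid. -/
def ell {n : ℕ} (A : Matrix (Fin n) (Fin n) ℝ) (r : ℝ) : Set (Fin n → ℝ) := {x | qf A x < r}

lemma measurableSet_ell {n : ℕ} (A : Matrix (Fin n) (Fin n) ℝ) (r : ℝ) :
    MeasurableSet (ell A r) :=
  (isOpen_lt (continuous_qf A) continuous_const).measurableSet

/-- Scaling. -/
lemma vol_scale {n : ℕ} (A : Matrix (Fin n) (Fin n) ℝ) {r s : ℝ} (hs : 0 < s) :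
    volume (ell A (s * r)) = ENNReal.ofReal (s ^ ((n : ℝ) / 2)) * volume (ell A r) := by
  have hq : 0 < Real.sqrt s := Real.sqrt_pos.2 hs
  have h := Measure.addHaar_preimage_smul (volume : Measure (Fin n → ℝ))
    (r := (Real.sqrt s)⁻¹) (by positivity) (ell A r)
  have hset : (fun x : Fin n → ℝ => (Real.sqrt s)⁻¹ • x) ⁻¹' ell A r = ell A (s * r) := by
    ext x
    show qf A ((Real.sqrt s)⁻¹ • x) < r ↔ qf A x < s * r
    rw [qf_smul, inv_pow, Real.sq_sqrt hs.le, inv_mul_lt_iff₀ hs]
  rw [hset] at h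
  rw [h]
  congr 2
  rw [Module.finrank_fin_fun, ← inv_pow, inv_inv, abs_of_nonneg (by positivity),
    Real.sqrt_eq_rpow, ← Real.rpow_natCast, ← Real.rpow_mul hs.le]
  congr 1
  ring

lemma qf_parallel {n : ℕ} (A : Matrix (Fin n) (Fin n) ℝ) (x v : Fin n → ℝ) :
    qf A (x - (1 / 2 : ℝ) • v) = (qf A x + qf A (x - v)) / 2 - qf A v / 4 := by
  unfold qf
  rw [← Finset.sum_add_distrib, Finset.sum_div, Finset.sum_div, ← Finset.sum_sub_distrib]
  refine Finset.sum_congr rfl fun i _ => ?_
  rw [Matrix.mulVec_sub, Matrix.mulVec_sub, Matrix.mulVec_smul]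
  simp only [Pi.sub_apply, Pi.smul_apply, smul_eq_mul]
  ring

/-- The weight of a lattice vector. -/
noncomputable def wt {n : ℕ} (A : Matrix (Fin n) (Fin n) ℝ) (r : ℝ) (w : Fin n → ℤ) : ℝ :=
  (max 0 (1 - normSq A w / (4 * r))) ^ ((n : ℝ) / 2)

lemma wt_nonneg {n : ℕ} (A : Matrix (Fin n) (Fin n) ℝ) (r : ℝ) (w : Fin n → ℤ) : 0 ≤ wt A r w :=
  Real.rpow_nonneg (le_max_left _ _) _

/-- Two ellipsoids at distance `v` meet in a set of volume at most `wt v` times the volume. -/
lemma vol_lens {n : ℕ} (A : Matrix (Fin n) (Fin n) ℝ) {r : ℝ} (hr : 0 < r) (w : Fin n → ℤ) :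
    volume (ell A r ∩ {x | x - cast w ∈ ell A r}) ≤
      ENNReal.ofReal (wt A r w) * volume (ell A r) := by
  set s : ℝ := 1 - normSq A w / (4 * r) with hs
  have hsub : ell A r ∩ {x | x - cast w ∈ ell A r} ⊆
      {x | x - (1 / 2 : ℝ) • cast w ∈ ell A (s * r)} := by
    rintro x ⟨hx1, hx2⟩
    have h1 : qf A x < r := hx1
    have h2 : qf A (x - cast w) < r := hx2
    show qf A (x - (1 / 2 : ℝ) • cast w) < s * r
    rw [qf_parallel]
    have h3 : s * r = r - normSq A w / 4 := by
      rw [hs]; field_simp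
    have h4 : qf A (cast w) = normSq A w := rfl
    rw [h3, h4]
    linarith
  refine (measure_mono hsub).trans ?_
  have htr : volume {x : Fin n → ℝ | x - (1 / 2 : ℝ) • cast w ∈ ell A (s * r)} =
      volume (ell A (s * r)) := by
    have h := measure_preimage_add_right (volume : Measure (Fin n → ℝ))
      (-((1 / 2 : ℝ) • cast w)) (ell A (s * r))
    have hset : {x : Fin n → ℝ | x - (1 / 2 : ℝ) • cast w ∈ ell A (s * r)} =
        (fun x => x + -((1 / 2 : ℝ) • cast w)) ⁻¹' ell A (s * r) := by
      ext x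
      simp only [Set.mem_preimage, Set.mem_ofPred_eq, sub_eq_add_neg]
    rw [hset, h]
  rw [htr]
  rcases le_or_gt s 0 with hs0 | hs0
  · have hempty : ell A (s * r) = ∅ := by
      ext x
      simp only [Set.mem_empty_iff_false, iff_false]
      intro hx
      have h1 : qf A x < s * r := hx
      have h2 := qf_nonneg A x
      nlinarith
    rw [hempty, measure_empty]
    exact zero_le
  · rw [vol_scale A hs0]
    unfold wt
    rw [← hs, max_eq_right hs0.le]

/-- The number of ellipsoids containing a point. -/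
noncomputable def mult {n : ℕ} (A : Matrix (Fin n) (Fin n) ℝ) (r : ℝ) (t : Fin n → ℝ) : ℝ≥0∞ :=
  ∑' w : Fin n → ℤ, (ell A r).indicator 1 (t - cast w)

lemma measurable_ind {n : ℕ} (A : Matrix (Fin n) (Fin n) ℝ) (r : ℝ) (w : Fin n → ℤ) :
    Measurable fun t : Fin n → ℝ => (ell A r).indicator (1 : (Fin n → ℝ) → ℝ≥0∞) (t - cast w) :=
  (measurable_one.indicator (measurableSet_ell A r)).comp (measurable_id.sub_const _)

lemma measurable_mult {n : ℕ} (A : Matrix (Fin n) (Fin n) ℝ) (r : ℝ) :
    Measurable (mult A r) :=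
  Measurable.ennreal_tsum fun w => measurable_ind A r w

/-- The mean number. -/
lemma lintegral_mult {n : ℕ} (A : Matrix (Fin n) (Fin n) ℝ) (r : ℝ) :
    ∫⁻ t in cube n, mult A r t = volume (ell A r) := by
  unfold mult
  rw [lintegral_tsum fun w => (measurable_ind A r w).aemeasurable,
    unfold_cube _,
    lintegral_indicator_one (measurableSet_ell A r)]

/-- The mean square. -/
lemma lintegral_mult_sq {n : ℕ} (A : Matrix (Fin n) (Fin n) ℝ) (r : ℝ) :
    ∫⁻ t in cube n, mult A r t ^ 2 =
      ∑' v : Fin n → ℤ, volume (ell A r ∩ {x | x - cast v ∈ ell A r}) := by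
  have hsq : ∀ t, mult A r t ^ 2 = ∑' v : Fin n → ℤ, ∑' w : Fin n → ℤ,
      (ell A r).indicator (1 : (Fin n → ℝ) → ℝ≥0∞) (t - cast w) *
        (ell A r).indicator 1 (t - cast w - cast v) := by
    intro t
    rw [ENNReal.tsum_comm, pow_two]
    unfold mult
    rw [← ENNReal.tsum_mul_right]
    refine tsum_congr fun w => ?_
    rw [ENNReal.tsum_mul_left]
    congr 1
    rw [← (Equiv.addLeft w).tsum_eq]
    refine tsum_congr fun v => ?_
    congr 1
    ext i
    simp only [Equiv.coe_addLeft, cast, Pi.sub_apply, Pi.add_apply, Int.cast_add]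
    ring
  have hE := measurableSet_ell A r
  have hmg : ∀ v : Fin n → ℤ, Measurable fun x : Fin n → ℝ =>
      (ell A r).indicator (1 : (Fin n → ℝ) → ℝ≥0∞) x * (ell A r).indicator 1 (x - cast v) :=
    fun v => (measurable_one.indicator hE).mul (measurable_ind A r v)
  calc ∫⁻ t in cube n, mult A r t ^ 2
      = ∫⁻ t in cube n, ∑' v : Fin n → ℤ, ∑' w : Fin n → ℤ,
        (ell A r).indicator (1 : (Fin n → ℝ) → ℝ≥0∞) (t - cast w) *
          (ell A r).indicator 1 (t - cast w - cast v) := lintegral_congr fun t => hsq t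
    _ = ∑' v : Fin n → ℤ, ∑' w : Fin n → ℤ, ∫⁻ t in cube n,
        (ell A r).indicator (1 : (Fin n → ℝ) → ℝ≥0∞) (t - cast w) *
          (ell A r).indicator 1 (t - cast w - cast v) := by
        rw [lintegral_tsum]
        · refine tsum_congr fun v => ?_
          rw [lintegral_tsum]
          intro w
          exact ((hmg v).comp (measurable_id.sub_const (cast w))).aemeasurable
        · intro v
          refine (Measurable.ennreal_tsum fun w => ?_).aemeasurable
          exact (hmg v).comp (measurable_id.sub_const (cast w))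
    _ = ∑' v : Fin n → ℤ, ∫⁻ x, (ell A r).indicator (1 : (Fin n → ℝ) → ℝ≥0∞) x *
          (ell A r).indicator 1 (x - cast v) := by
        refine tsum_congr fun v => ?_
        exact unfold_cube fun x => (ell A r).indicator (1 : (Fin n → ℝ) → ℝ≥0∞) x *
          (ell A r).indicator 1 (x - cast v)
    _ = ∑' v : Fin n → ℤ, volume (ell A r ∩ {x | x - cast v ∈ ell A r}) := by
        refine tsum_congr fun v => ?_
        have hm : MeasurableSet (ell A r ∩ {x | x - cast v ∈ ell A r}) :=
          hE.inter ((measurable_id.sub_const (cast v)) hE)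
        rw [← lintegral_indicator_one hm]
        refine lintegral_congr fun x => ?_
        by_cases h1 : x ∈ ell A r
        · by_cases h2 : x - cast v ∈ ell A r
          · rw [Set.indicator_of_mem h1, Set.indicator_of_mem h2,
              Set.indicator_of_mem (show x ∈ ell A r ∩ {x | x - cast v ∈ ell A r} from ⟨h1, h2⟩)]
            simp
          · rw [Set.indicator_of_notMem h2, mul_zero, Set.indicator_of_notMem]
            exact fun h => h2 h.2
        · rw [Set.indicator_of_notMem h1, zero_mul, Set.indicator_of_notMem]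
          exact fun h => h1 h.1

/-- The covered part of the cube. -/
def covered {n : ℕ} (A : Matrix (Fin n) (Fin n) ℝ) (r : ℝ) : Set (Fin n → ℝ) :=
  {t | (∀ i, 0 ≤ t i ∧ t i < 1) ∧ ∃ w : Fin n → ℤ, qf A (fun j => t j - w j) < r}

lemma covered_eq {n : ℕ} (A : Matrix (Fin n) (Fin n) ℝ) (r : ℝ) :
    covered A r = cube n ∩ ⋃ w : Fin n → ℤ, {t | t - cast w ∈ ell A r} := by
  ext t
  simp only [covered, cube, ell, Set.mem_inter_iff, Set.mem_iUnion, Set.mem_ofPred_eq]
  rfl

lemma measurableSet_covered {n : ℕ} (A : Matrix (Fin n) (Fin n) ℝ) (r : ℝ) :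
    MeasurableSet (covered A r) := by
  rw [covered_eq]
  refine (measurableSet_cube n).inter (MeasurableSet.iUnion fun w => ?_)
  exact (measurable_id.sub_const (cast w)) (measurableSet_ell A r)

lemma vol_cube (n : ℕ) : volume (cube n) ≤ 1 := by
  have h : cube n ⊆ Set.pi Set.univ fun _ : Fin n => Set.Ico (0 : ℝ) 1 := by
    intro t ht i _
    exact ht i
  refine (measure_mono h).trans ?_
  rw [volume_pi_pi]
  simp

lemma vol_covered_le {n : ℕ} (A : Matrix (Fin n) (Fin n) ℝ) (r : ℝ) :
    volume (covered A r) ≤ 1 :=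
  (measure_mono fun _ ht => ht.1).trans (vol_cube n)

lemma cov_le_one {n : ℕ} (A : Matrix (Fin n) (Fin n) ℝ) (r : ℝ) : cov A r ≤ 1 := by
  have h := ENNReal.toReal_mono ENNReal.one_ne_top (vol_covered_le A r)
  rwa [ENNReal.toReal_one] at h

lemma cov_nonneg {n : ℕ} (A : Matrix (Fin n) (Fin n) ℝ) (r : ℝ) : 0 ≤ cov A r :=
  ENNReal.toReal_nonneg

/-- Cauchy-Schwarz. -/
lemma sq_le {n : ℕ} (A : Matrix (Fin n) (Fin n) ℝ) (r : ℝ) :
    volume (ell A r) ^ 2 ≤
      volume (covered A r) * ∫⁻ t in cube n, mult A r t ^ 2 := by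
  have hC := measurableSet_covered A r
  have hCS := ENNReal.lintegral_mul_le_Lp_mul_Lq (volume.restrict (cube n))
    Real.HolderConjugate.two_two (measurable_mult A r).aemeasurable
    ((measurable_one.indicator hC).aemeasurable :
      AEMeasurable ((covered A r).indicator (1 : (Fin n → ℝ) → ℝ≥0∞)) (volume.restrict (cube n)))
  have h1 : ∫⁻ t in cube n,
      (mult A r * (covered A r).indicator (1 : (Fin n → ℝ) → ℝ≥0∞)) t = volume (ell A r) := by
    rw [← lintegral_mult A r]
    refine setLIntegral_congr_fun (measurableSet_cube n) fun t ht => ?_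
    show mult A r t * (covered A r).indicator (1 : (Fin n → ℝ) → ℝ≥0∞) t = mult A r t
    by_cases h : t ∈ covered A r
    · rw [Set.indicator_of_mem h, Pi.one_apply, mul_one]
    · rw [Set.indicator_of_notMem h, mul_zero]
      symm
      unfold mult
      rw [ENNReal.tsum_eq_zero]
      intro w
      rw [Set.indicator_of_notMem]
      intro hw
      exact h ⟨ht, w, hw⟩
  have h2 : ∫⁻ t in cube n, (covered A r).indicator (1 : (Fin n → ℝ) → ℝ≥0∞) t ^ (2 : ℝ) ≤
      volume (covered A r) := by
    calc ∫⁻ t in cube n, (covered A r).indicator (1 : (Fin n → ℝ) → ℝ≥0∞) t ^ (2 : ℝ)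
        = ∫⁻ t in cube n, (covered A r).indicator (1 : (Fin n → ℝ) → ℝ≥0∞) t := by
          refine lintegral_congr fun t => ?_
          by_cases h : t ∈ covered A r
          · rw [Set.indicator_of_mem h, Pi.one_apply, ENNReal.one_rpow]
          · rw [Set.indicator_of_notMem h, ENNReal.zero_rpow_of_pos (by norm_num)]
      _ ≤ ∫⁻ t, (covered A r).indicator (1 : (Fin n → ℝ) → ℝ≥0∞) t := setLIntegral_le_lintegral _ _
      _ = volume (covered A r) := lintegral_indicator_one hC
  rw [h1] at hCS
  have h3 : ∀ t, mult A r t ^ (2 : ℝ) = mult A r t ^ 2 := fun t => by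
    rw [← ENNReal.rpow_natCast]; norm_num
  rw [lintegral_congr h3] at hCS
  have h4 : volume (ell A r) ≤ (∫⁻ t in cube n, mult A r t ^ 2) ^ ((1 : ℝ) / 2) *
      volume (covered A r) ^ ((1 : ℝ) / 2) :=
    hCS.trans (mul_le_mul' le_rfl (ENNReal.rpow_le_rpow h2 (by norm_num)))
  calc volume (ell A r) ^ 2
      ≤ ((∫⁻ t in cube n, mult A r t ^ 2) ^ ((1 : ℝ) / 2) *
        volume (covered A r) ^ ((1 : ℝ) / 2)) ^ 2 := by gcongr
    _ = volume (covered A r) * ∫⁻ t in cube n, mult A r t ^ 2 := by
        rw [mul_pow, ← ENNReal.rpow_natCast, ← ENNReal.rpow_natCast, ← ENNReal.rpow_mul,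
          ← ENNReal.rpow_mul, mul_comm]
        norm_num

lemma finite_wt {n : ℕ} (hn : 0 < n) (A : Matrix (Fin n) (Fin n) ℝ) (hA : A.det ≠ 0) {r : ℝ}
    (hr : 0 < r) : (Function.support (wt A r)).Finite := by
  refine (finite_cnt A hA (4 * r)).subset ?_
  intro w hw
  by_contra hcon
  have hcon' : ¬ normSq A w < 4 * r := hcon
  apply hw
  unfold wt
  rw [max_eq_left]
  · exact Real.zero_rpow (by positivity)
  · rw [sub_nonpos, one_le_div (by positivity)]
    exact not_lt.1 hcon'

theorem auto : AutoStatement := by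
  intro n hn A hA r hr
  have hA0 : 0 < |A.det| := abs_pos.2 hA
  have hVfin : volume (ell A r) ≠ ⊤ := (isBounded_ell A hA r).measure_lt_top.ne
  have hVpos : volume (ell A r) ≠ 0 := by
    refine (IsOpen.measure_pos volume (isOpen_lt (continuous_qf A) continuous_const)
      ⟨0, ?_⟩).ne'
    show qf A 0 < r
    unfold qf
    simp [hr]
  have hsum : Summable (wt A r) := summable_of_hasFiniteSupport (finite_wt hn A hA hr)
  have h1 : volume (ell A r) ^ 2 ≤ volume (covered A r) *
      (ENNReal.ofReal (∑' w, wt A r w) * volume (ell A r)) := by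
    refine (sq_le A r).trans (mul_le_mul' le_rfl ?_)
    rw [lintegral_mult_sq, ENNReal.ofReal_tsum_of_nonneg (wt_nonneg A r) hsum,
      ← ENNReal.tsum_mul_right]
    exact ENNReal.tsum_le_tsum fun w => vol_lens A hr w
  have h2 : volume (ell A r) ≤ volume (covered A r) * ENNReal.ofReal (∑' w, wt A r w) := by
    rw [pow_two, ← mul_assoc] at h1
    exact (ENNReal.mul_le_mul_iff_left hVpos hVfin).1 h1
  have h3 : (volume (ell A r)).toReal ≤ cov A r * ∑' w, wt A r w := by
    have hfin : volume (covered A r) * ENNReal.ofReal (∑' w, wt A r w) ≠ ⊤ :=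
      ENNReal.mul_ne_top ((vol_covered_le A r).trans_lt ENNReal.one_lt_top).ne
        ENNReal.ofReal_ne_top
    have h4 := ENNReal.toReal_mono hfin h2
    rw [ENNReal.toReal_mul, ENNReal.toReal_ofReal (tsum_nonneg (wt_nonneg A r))] at h4
    exact h4
  have h5 : (volume (ell A r)).toReal =
      |A.det|⁻¹ * (volume {x : Fin n → ℝ | ∑ i, x i ^ 2 < r}).toReal := by
    have := vol_ellipsoid A hA r
    show (volume {x : Fin n → ℝ | qf A x < r}).toReal = _
    rw [this, ENNReal.toReal_mul, ENNReal.toReal_ofReal (by positivity)]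
  rw [h5, inv_mul_le_iff₀ hA0] at h3
  calc (volume {x : Fin n → ℝ | ∑ i, x i ^ 2 < r}).toReal
      ≤ |A.det| * (cov A r * ∑' w, wt A r w) := h3
    _ = _ := by rw [mul_assoc]; rfl

end Pool.Agent.Lib.MP_ef2672_gt_Over.Auto
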