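import Pool.Agent.Lib.MP_ef2672_gt_Over.Sub

/-!
The main inequality: the mean of the truncated number of the lattice points near a point.
-/

set_option autoImplicit false

namespace Pool.Agent.Lib.MP_ef2672_gt_Over

open Pool.Agent.Lib.MP_ef2672_gt_Tauber Pool.Agent.Lib.EF_h73 MeasureTheory Filter Topology

lemma det_cast {n : ℕ} (N : Matrix (Fin n) (Fin n) ℤ) :
    (N.map (Int.cast : ℤ → ℝ)).det = (N.det : ℝ) :=
  (RingHom.map_det (Int.castRingHom ℝ) N).symm

lemma qf_mul {n : ℕ} (A C : Matrix (Fin n) (Fin n) ℝ) (x : Fin n → ℝ) :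
    qf (A * C) x = qf A (C.mulVec x) := by
  unfold qf
  rw [Matrix.mulVec_mulVec]

lemma map_mulVec_cast {n : ℕ} (N : Matrix (Fin n) (Fin n) ℤ) (w : Fin n → ℤ) :
    (N.map (Int.cast : ℤ → ℝ)).mulVec (fun j => (w j : ℝ)) = fun j => ((N.mulVec w j : ℤ) : ℝ) := by
  ext i
  simp [Matrix.mulVec, dotProduct]

/-- The translation vectors. -/
noncomputable def vv {n : ℕ} (N : Matrix (Fin n) (Fin n) ℤ) (p : ℕ)
    (i : (Fin n → ZMod p) × ((Fin n → ℤ) ⧸ img N)) : Fin n → ℝ :=
  ((N.map (Int.cast : ℤ → ℝ))⁻¹).mulVec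
    (fun j => ((i.1 j).val : ℝ) / p - ((Quotient.out i.2 : Fin n → ℤ) j : ℝ))

lemma cover_pt {n p : ℕ} (hn : 0 < n) [hp : Fact p.Prime] (B : Matrix (Fin n) (Fin n) ℝ)
    {r θ r' : ℝ} (hmax : IsMax B r) (hcov : Covers B (θ * Real.sqrt r))
    (N : Matrix (Fin n) (Fin n) ℤ) (hN : N.det ≠ 0)
    (hr' : (1 + θ / p) * Real.sqrt r ≤ Real.sqrt r') (u : Fin n → ℝ) :
    ∃ s : Finset ((Fin n → ZMod p) × ((Fin n → ℤ) ⧸ img N)), p ^ (n - 1) ≤ s.card ∧
      ∀ i ∈ s, ∃ w : Fin n → ℤ,
        qf (B * N.map (Int.cast : ℤ → ℝ)) (fun j => u j + vv N p i j - w j) < r' := by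
  classical
  set NR := N.map (Int.cast : ℤ → ℝ) with hNR
  have hdet : NR.det ≠ 0 := by
    rw [hNR, det_cast]
    exact_mod_cast hN
  have hp0 : (0:ℝ) < p := by exact_mod_cast hp.out.pos
  obtain ⟨s, hs⟩ := hcov (fun i => p * (NR.mulVec u) i)
  obtain ⟨G, hG, hGc⟩ := card_good hn B hmax (p := p)
  have key : ∀ α ∈ G, ∃ c : (Fin n → ℤ) ⧸ img N, ∃ w : Fin n → ℤ,
      qf (B * NR) (fun j => u j + vv N p (α - (fun i => (s i : ZMod p)), c) j - w j) < r' := by
    intro α hα
    set b : Fin n → ZMod p := α - (fun i => (s i : ZMod p)) with hb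
    have hb' : ∀ i, ((((b i).val : ℤ) + s i : ℤ) : ZMod p) = α i := by
      intro i
      push_cast
      rw [ZMod.natCast_val, ZMod.cast_id', id, hb]
      simp
    obtain ⟨z, hz⟩ := (hG α hα).any hp.out.pos (fun i => ((b i).val : ℤ) + s i) hb'
    set c : (Fin n → ℤ) ⧸ img N := QuotientAddGroup.mk z with hc
    have hout : (QuotientAddGroup.mk (Quotient.out c) : (Fin n → ℤ) ⧸ img N) =
        QuotientAddGroup.mk z := Quotient.out_eq' c
    rw [QuotientAddGroup.eq] at hout
    obtain ⟨w, hw⟩ := (mem_img N _).1 hout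
    refine ⟨c, w, ?_⟩
    have hvec : NR.mulVec (fun j => u j + vv N p (b, c) j - w j) =
        (fun i => (NR.mulVec u) i - (s i : ℝ) / p) +
          (fun i => ((((b i).val : ℤ) + s i : ℤ) : ℝ) / p - z i) := by
      have h1 : (fun j => u j + vv N p (b, c) j - (w j : ℝ)) =
          u + vv N p (b, c) - (fun j => (w j : ℝ)) := rfl
      have h2 : NR.mulVec (vv N p (b, c)) =
          fun j => ((b j).val : ℝ) / p - ((Quotient.out c : Fin n → ℤ) j : ℝ) := by
        unfold vv
        rw [Matrix.mulVec_mulVec, Matrix.mul_nonsing_inv _ (isUnit_iff_ne_zero.2 hdet),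
          Matrix.one_mulVec]
      have h3 : NR.mulVec (fun j => (w j : ℝ)) =
          fun j => (((-(Quotient.out c : Fin n → ℤ) + z) j : ℤ) : ℝ) := by
        rw [← hw, hNR, map_mulVec_cast]
      rw [h1, Matrix.mulVec_sub, Matrix.mulVec_add, h2, h3]
      ext i
      simp only [Pi.add_apply, Pi.sub_apply, Pi.neg_apply]
      push_cast
      ring
    rw [qf_mul, hvec, nq_lt]
    have h4 : nq B (fun i => (NR.mulVec u) i - (s i : ℝ) / p) ≤ θ * Real.sqrt r / p := by
      have h5 : (fun i => p * (NR.mulVec u) i - (s i : ℝ)) =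
          (p : ℝ) • fun i => (NR.mulVec u) i - (s i : ℝ) / p := by
        ext i
        simp only [Pi.smul_apply, smul_eq_mul]
        field_simp
      rw [h5, nq_smul, abs_of_pos hp0] at hs
      rw [le_div_iff₀ hp0]
      linarith
    have h6 : nq B (fun i => ((((b i).val : ℤ) + s i : ℤ) : ℝ) / p - z i) < Real.sqrt r := by
      rw [← nq_lt]
      exact hz
    refine (nq_add_le B _ _).trans_lt ?_
    calc _ < θ * Real.sqrt r / p + Real.sqrt r := add_lt_add_of_le_of_lt h4 h6
      _ = (1 + θ / p) * Real.sqrt r := by ring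
      _ ≤ _ := hr'
  choose! c hc using key
  refine ⟨G.image (fun α => (α - (fun i => (s i : ZMod p)), c α)), ?_, ?_⟩
  · rw [Finset.card_image_of_injective]
    · exact hGc
    · intro α β h
      have := congrArg Prod.fst h
      exact sub_left_injective this
  · intro i hi
    obtain ⟨α, hα, rfl⟩ := Finset.mem_image.1 hi
    exact hc α hα

lemma sum_ge {n p : ℕ} (hn : 0 < n) [hp : Fact p.Prime] (A B : Matrix (Fin n) (Fin n) ℝ)
    (hA : A.det ≠ 0) (S N : Matrix (Fin n) (Fin n) ℤ) (hS : S.det ≠ 0) (hN : N.det ≠ 0)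
    (hAB : A * S.map (Int.cast : ℤ → ℝ) = B * N.map (Int.cast : ℤ → ℝ))
    {r θ r' : ℝ} (hmax : IsMax B r) (hcov : Covers B (θ * Real.sqrt r))
    (hr' : (1 + θ / p) * Real.sqrt r ≤ Real.sqrt r')
    [Fintype ((Fin n → ℤ) ⧸ img N)] (u : Fin n → ℝ) :
    S.det.natAbs * p ^ (n - 1) ≤ ∑ i : (Fin n → ZMod p) × ((Fin n → ℤ) ⧸ img N),
      min S.det.natAbs (count A r' (u + (S.map (Int.cast : ℤ → ℝ)).mulVec (vv N p i))) := by
  classical
  have hcardS := card_img S hS
  haveI : Finite ((Fin n → ℤ) ⧸ img S) :=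
    Nat.finite_of_card_ne_zero (by rw [hcardS]; exact Int.natAbs_ne_zero.2 hS)
  haveI : Fintype ((Fin n → ℤ) ⧸ img S) := Fintype.ofFinite _
  have hcardS' : Fintype.card ((Fin n → ℤ) ⧸ img S) = S.det.natAbs := by
    rw [← hcardS, Nat.card_eq_fintype_card]
  set SR := S.map (Int.cast : ℤ → ℝ) with hSR
  have hdet : SR.det ≠ 0 := by
    rw [hSR, det_cast]
    exact_mod_cast hS
  choose s hs1 hs2 using fun c : (Fin n → ℤ) ⧸ img S =>
    cover_pt hn B hmax hcov N hN hr'
      ((SR⁻¹).mulVec (fun j => u j - ((Quotient.out c : Fin n → ℤ) j : ℝ)))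
  choose! w hw using hs2
  have hone : ∀ i : (Fin n → ZMod p) × ((Fin n → ℤ) ⧸ img N),
      (Finset.univ.filter fun c => i ∈ s c).card ≤
        min S.det.natAbs (count A r' (u + SR.mulVec (vv N p i))) := by
    intro i
    refine le_min ?_ ?_
    · rw [← hcardS']
      exact Finset.card_le_univ _
    · rw [le_count A hA]
      refine ⟨(Finset.univ.filter fun c => i ∈ s c).image
        (fun c => (Quotient.out c : Fin n → ℤ) + S.mulVec (w c i)), ?_, ?_⟩
      · refine Finset.card_image_of_injective _ ?_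
        intro c d hcd
        have h1 : ∀ c : (Fin n → ℤ) ⧸ img S,
            (QuotientAddGroup.mk ((Quotient.out c : Fin n → ℤ) + S.mulVec (w c i)) :
              (Fin n → ℤ) ⧸ img S) = c := by
          intro c
          have h2 : (QuotientAddGroup.mk ((Quotient.out c : Fin n → ℤ) + S.mulVec (w c i)) :
              (Fin n → ℤ) ⧸ img S) = QuotientAddGroup.mk (Quotient.out c) := by
            symm
            rw [QuotientAddGroup.eq]
            refine (mem_img S _).2 ⟨w c i, ?_⟩
            rw [neg_add_cancel_left]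
          rw [h2]
          exact Quotient.out_eq' c
        have h3 := congrArg (QuotientAddGroup.mk : (Fin n → ℤ) → (Fin n → ℤ) ⧸ img S) hcd
        beta_reduce at h3
        rw [h1 c, h1 d] at h3
        exact h3
      · intro z hz
        obtain ⟨c, hc, rfl⟩ := Finset.mem_image.1 hz
        have h4 := hw c i (Finset.mem_filter.1 hc).2
        rw [← hAB, qf_mul] at h4
        convert! h4 using 2
        have h5 : (fun j => ((SR⁻¹).mulVec (fun j => u j - ((Quotient.out c : Fin n → ℤ) j : ℝ))) j +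
            vv N p i j - (w c i j : ℝ)) =
            (SR⁻¹).mulVec (fun j => u j - ((Quotient.out c : Fin n → ℤ) j : ℝ)) +
              vv N p i - (fun j => (w c i j : ℝ)) := rfl
        rw [h5, Matrix.mulVec_sub, Matrix.mulVec_add, Matrix.mulVec_mulVec,
          Matrix.mul_nonsing_inv _ (isUnit_iff_ne_zero.2 hdet), Matrix.one_mulVec, hSR,
          map_mulVec_cast]
        ext j
        simp only [Pi.add_apply, Pi.sub_apply]
        push_cast
        ring
  calc S.det.natAbs * p ^ (n - 1) = ∑ c : (Fin n → ℤ) ⧸ img S, p ^ (n - 1) := by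
        rw [Finset.sum_const, Finset.card_univ, hcardS', smul_eq_mul]
    _ ≤ ∑ c : (Fin n → ℤ) ⧸ img S, (s c).card := Finset.sum_le_sum fun c _ => hs1 c
    _ = ∑ c : (Fin n → ℤ) ⧸ img S, ∑ i, if i ∈ s c then 1 else 0 := by
        refine Finset.sum_congr rfl fun c _ => ?_
        rw [Finset.sum_ite_mem, Finset.univ_inter, Finset.card_eq_sum_ones]
    _ = ∑ i, ∑ c : (Fin n → ℤ) ⧸ img S, if i ∈ s c then 1 else 0 := Finset.sum_comm
    _ = ∑ i, (Finset.univ.filter fun c => i ∈ s c).card := by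
        refine Finset.sum_congr rfl fun i _ => ?_
        rw [Finset.card_filter]
    _ ≤ _ := Finset.sum_le_sum fun i _ => hone i

lemma meanMin_eq {n : ℕ} (A : Matrix (Fin n) (Fin n) ℝ) (hA : A.det ≠ 0) (r : ℝ) (M : ℕ) :
    meanMin A r M =
      (∫⁻ t in cube n, ((min M (count A r t) : ℕ) : ENNReal)).toReal := by
  unfold meanMin
  have hm : Measurable (fun t => ((min M (count A r t) : ℕ) : ENNReal)) :=
    (measurable_from_top.comp (measurable_const.min (measurable_count A hA r)))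
  have h1 := integral_toReal (μ := volume.restrict (cube n)) hm.aemeasurable
    (Eventually.of_forall fun t => ENNReal.natCast_lt_top _)
  rw [← h1]
  rfl

lemma lintegral_min_ne_top {n : ℕ} (A : Matrix (Fin n) (Fin n) ℝ) (r : ℝ) (M : ℕ) :
    ∫⁻ t in cube n, ((min M (count A r t) : ℕ) : ENNReal) ≠ ⊤ := by
  refine ne_top_of_le_ne_top (ENNReal.natCast_ne_top M) ?_
  calc ∫⁻ t in cube n, ((min M (count A r t) : ℕ) : ENNReal) ≤ ∫⁻ _ in cube n, (M : ENNReal) :=
        lintegral_mono fun t => by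
          simp only
          exact_mod_cast min_le_left _ _
    _ = M := by rw [setLIntegral_const, volume_cube, mul_one]

lemma meanMin_mono {n : ℕ} (A : Matrix (Fin n) (Fin n) ℝ) (hA : A.det ≠ 0) (r : ℝ) {M M' : ℕ}
    (h : M ≤ M') : meanMin A r M ≤ meanMin A r M' := by
  rw [meanMin_eq A hA, meanMin_eq A hA]
  refine ENNReal.toReal_mono (lintegral_min_ne_top A r M') (lintegral_mono fun t => ?_)
  simp only
  exact_mod_cast min_le_min_right _ h

lemma meanMin_nonneg {n : ℕ} (A : Matrix (Fin n) (Fin n) ℝ) (r : ℝ) (M : ℕ) :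
    0 ≤ meanMin A r M := integral_nonneg fun _ => Nat.cast_nonneg _

lemma meanMin_le {n : ℕ} (A : Matrix (Fin n) (Fin n) ℝ) (hA : A.det ≠ 0) (r : ℝ) (M : ℕ) :
    meanMin A r M ≤ M * cov A r := by
  rw [meanMin_eq A hA, cov_eq]
  have h1 : ∫⁻ t in cube n, ((min M (count A r t) : ℕ) : ENNReal) ≤
      M * volume (cube n ∩ near A r) := by
    calc ∫⁻ t in cube n, ((min M (count A r t) : ℕ) : ENNReal) ≤
        ∫⁻ t in cube n, (near A r).indicator (fun _ => (M : ENNReal)) t := by
          refine lintegral_mono fun t => ?_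
          by_cases ht : t ∈ near A r
          · rw [Set.indicator_of_mem ht]
            simp only
            exact_mod_cast min_le_left _ _
          · rw [Set.indicator_of_notMem ht]
            have h0 : count A r t = 0 := by
              by_contra hne
              apply ht
              obtain ⟨F, hF1, hF2⟩ := (le_count A hA r t 1).1 (Nat.one_le_iff_ne_zero.2 hne)
              obtain ⟨w, hw⟩ := Finset.card_pos.1 (by rw [hF1]; exact one_pos)
              exact ⟨w, hF2 w hw⟩
            simp [h0]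
      _ = M * volume (cube n ∩ near A r) := by
          rw [lintegral_indicator_const (measurableSet_near A r),
            Measure.restrict_apply (measurableSet_near A r), Set.inter_comm]
  have hfin : volume (cube n ∩ near A r) ≠ ⊤ :=
    ne_top_of_le_ne_top (by rw [volume_cube]; exact ENNReal.one_ne_top)
      (measure_mono Set.inter_subset_left)
  have h2 := (ENNReal.toReal_le_toReal (lintegral_min_ne_top A r M)
    (ENNReal.mul_ne_top (ENNReal.natCast_ne_top _) hfin)).2 h1
  rw [ENNReal.toReal_mul] at h2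
  simpa using h2

lemma mean_ge {n p : ℕ} (hn : 0 < n) [hp : Fact p.Prime] (A B : Matrix (Fin n) (Fin n) ℝ)
    (hA : A.det ≠ 0) (S N : Matrix (Fin n) (Fin n) ℤ) (hS : S.det ≠ 0) (hN : N.det ≠ 0)
    (hAB : A * S.map (Int.cast : ℤ → ℝ) = B * N.map (Int.cast : ℤ → ℝ))
    {r θ r' : ℝ} (hmax : IsMax B r) (hcov : Covers B (θ * Real.sqrt r))
    (hr' : (1 + θ / p) * Real.sqrt r ≤ Real.sqrt r') :
    (S.det.natAbs : ℝ) ≤ p * N.det.natAbs * meanMin A r' S.det.natAbs := by
  have hcardN := card_img N hN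
  haveI : Finite ((Fin n → ℤ) ⧸ img N) :=
    Nat.finite_of_card_ne_zero (by rw [hcardN]; exact Int.natAbs_ne_zero.2 hN)
  haveI : Fintype ((Fin n → ℤ) ⧸ img N) := Fintype.ofFinite _
  have hcardN' : Fintype.card ((Fin n → ℤ) ⧸ img N) = N.det.natAbs := by
    rw [← hcardN, Nat.card_eq_fintype_card]
  have hm : Measurable (fun t => ((min S.det.natAbs (count A r' t) : ℕ) : ENNReal)) :=
    (measurable_from_top.comp (measurable_const.min (measurable_count A hA r')))
  have h1 := le_lintegral (n := n) (ι := (Fin n → ZMod p) × ((Fin n → ℤ) ⧸ img N))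
    (fun t => ((min S.det.natAbs (count A r' t) : ℕ) : ENNReal)) hm
    (fun t w => by rw [count_periodic])
    (fun i => (S.map (Int.cast : ℤ → ℝ)).mulVec (vv N p i))
    ((S.det.natAbs * p ^ (n - 1) : ℕ) : ENNReal)
    (fun u => by
      have := sum_ge hn A B hA S N hS hN hAB hmax hcov hr' u
      exact_mod_cast this)
  rw [Fintype.card_prod, Fintype.card_fun, ZMod.card, Fintype.card_fin, hcardN'] at h1
  have h2 := (ENNReal.toReal_le_toReal (ENNReal.natCast_ne_top _)
    (ENNReal.mul_ne_top (ENNReal.natCast_ne_top _) (lintegral_min_ne_top A r' _))).2 h1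
  rw [ENNReal.toReal_mul, ← meanMin_eq A hA, ENNReal.toReal_natCast, ENNReal.toReal_natCast] at h2
  have hp0 : (0:ℝ) < p := by exact_mod_cast hp.out.pos
  have hpw : (p:ℝ) ^ n = p ^ (n - 1) * p := by
    rw [← pow_succ]
    congr 1
    omega
  push_cast at h2
  rw [hpw] at h2
  have hpn : (0:ℝ) < (p:ℝ) ^ (n - 1) := pow_pos hp0 _
  have h3 : (p:ℝ) ^ (n - 1) * (S.det.natAbs : ℝ) ≤
      (p:ℝ) ^ (n - 1) * (p * N.det.natAbs * meanMin A r' S.det.natAbs) := by
    have e1 : (p:ℝ) ^ (n - 1) * (S.det.natAbs : ℝ) = (S.det.natAbs : ℝ) * (p:ℝ) ^ (n - 1) :=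
      mul_comm _ _
    rw [e1]
    refine h2.trans (le_of_eq ?_)
    ring
  exact le_of_mul_le_mul_left h3 hpn

lemma exp_const : 2 * Real.exp (1.503 : ℝ) ≤ 9 := by
  have h1 : Real.exp (1.503 : ℝ) = Real.exp 1 * Real.exp (0.503 : ℝ) := by
    rw [← Real.exp_add]
    norm_num
  have h2 : Real.exp 1 < 2.7182818286 := Real.exp_one_lt_d9
  have h3 : Real.exp (0.503 : ℝ) ≤ 1.6538 := by
    have := Real.exp_bound' (x := 0.503) (by norm_num) (by norm_num) (n := 8) (by norm_num)
    refine this.trans ?_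
    norm_num [Finset.sum_range_succ, Nat.factorial]
  rw [h1]
  have h4 := Real.exp_pos (0.503 : ℝ)
  nlinarith [Real.exp_pos 1]

/-- R1. -/
theorem mean_statement : MeanStatement := by
  intro n hn A hA r hr
  obtain ⟨S, hS0, hSle, hSmin⟩ := exists_sub hn A hA r
  have hS : S.det ≠ 0 := Int.natAbs_ne_zero.1 hS0.ne'
  obtain ⟨p, hp, hnp, hp2⟩ := Nat.exists_prime_lt_and_le_two_mul n hn.ne'
  have : Fact p.Prime := ⟨hp⟩
  have hp0 : (0:ℝ) < p := by exact_mod_cast hp.pos
  have hn0 : (0:ℝ) < n := by exact_mod_cast hn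
  set θ : ℝ := 1.503 with hθ
  have hθ0 : 0 < θ := by norm_num [hθ]
  set κ : ℝ := 1 + θ / p with hκ
  have hκ0 : 0 < κ := by positivity
  have hκ1 : 1 ≤ κ := by
    have : 0 < θ / p := by positivity
    linarith
  set r₁ : ℝ := r / κ ^ 2 with hr₁
  have hr₁0 : 0 < r₁ := by positivity
  have hr₁r : r₁ ≤ r := by
    rw [hr₁]
    exact div_le_self hr.le (one_le_pow₀ hκ1)
  set A' := A * S.map (Int.cast : ℤ → ℝ) with hA'
  have hA'0 : A'.det ≠ 0 := by
    rw [hA', Matrix.det_mul, det_cast]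
    refine mul_ne_zero hA ?_
    exact_mod_cast hS
  obtain ⟨B, N, hB, hN, hAB, hBmin, hBmax⟩ := exists_max hn A' hA'0 hr₁0 (hr₁r.trans hSmin)
  have hmax : IsMax B r₁ := ⟨hBmin, hBmax⟩
  have hdet := det_ge hn B hB hr₁0 hBmin
  have hcov := covers_max hn B hr₁0 hmax (θ := θ) (by norm_num [hθ])
  have hsq : κ * Real.sqrt r₁ ≤ Real.sqrt r := by
    rw [hr₁, Real.sqrt_div hr.le, Real.sqrt_sq hκ0.le]
    rw [mul_div_cancel₀ _ hκ0.ne']
  have hmean := mean_ge hn A B hA S N hS hN hAB hmax hcov hsq (p := p)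
  have hg : 0 < gamma n := by
    have h1 := inv_le_gamma hn B hB
    unfold inv at h1
    have h2 : 0 < minSq B := hr₁0.trans_le hBmin
    have h3 : 0 < |B.det| := abs_pos.2 hB
    exact lt_of_lt_of_le (by positivity) h1
  -- determinants
  have hdets : |A.det| * (S.det.natAbs : ℝ) = |B.det| * (N.det.natAbs : ℝ) := by
    have h1 := congrArg Matrix.det hAB
    rw [hA', Matrix.det_mul, Matrix.det_mul, det_cast, det_cast] at h1
    have h2 := congrArg (fun x : ℝ => |x|) h1
    simp only [abs_mul] at h2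
    rw [Nat.cast_natAbs, Nat.cast_natAbs, Int.cast_abs, Int.cast_abs]
    exact h2
  have hN0 : (0:ℝ) < N.det.natAbs := by
    have := Int.natAbs_pos.2 hN
    exact_mod_cast this
  have hA0 : 0 < |A.det| := abs_pos.2 hA
  set m := meanMin A r S.det.natAbs with hm
  have hm0 : 0 ≤ m := meanMin_nonneg A r _
  have hBle : |B.det| ≤ |A.det| * (p * m) := by
    have h1 : |B.det| * (N.det.natAbs : ℝ) ≤ |A.det| * (p * m) * N.det.natAbs := by
      rw [← hdets]
      calc |A.det| * (S.det.natAbs : ℝ) ≤ |A.det| * (p * N.det.natAbs * m) :=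
            mul_le_mul_of_nonneg_left hmean hA0.le
        _ = _ := by ring
    exact le_of_mul_le_mul_right h1 hN0
  have hpow : (r / gamma n) ^ ((n : ℝ) / 2) = κ ^ n * (r₁ / gamma n) ^ ((n : ℝ) / 2) := by
    have h1 : r / gamma n = κ ^ 2 * (r₁ / gamma n) := by
      rw [hr₁]
      field_simp
    rw [h1, Real.mul_rpow (by positivity) (by positivity)]
    congr 1
    rw [← Real.rpow_natCast κ 2, ← Real.rpow_mul hκ0.le]
    have h2 : ((2 : ℕ) : ℝ) * ((n : ℝ) / 2) = n := by
      push_cast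
      ring
    rw [h2, Real.rpow_natCast]
  have hκn : κ ^ n ≤ Real.exp θ := by
    have h1 : κ ≤ Real.exp (θ / p) := by
      have := Real.add_one_le_exp (θ / p)
      linarith
    calc κ ^ n ≤ Real.exp (θ / p) ^ n := pow_le_pow_left₀ hκ0.le h1 n
      _ = Real.exp (n * (θ / p)) := by rw [← Real.exp_nat_mul]
      _ ≤ Real.exp θ := by
          rw [Real.exp_le_exp]
          rw [mul_div_assoc', div_le_iff₀ hp0]
          have : (n : ℝ) ≤ p := by exact_mod_cast hnp.le
          nlinarith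
  rw [hpow]
  have hp2' : (p : ℝ) ≤ 2 * n := by exact_mod_cast hp2
  calc κ ^ n * (r₁ / gamma n) ^ ((n : ℝ) / 2) ≤ Real.exp θ * (|A.det| * (p * m)) := by
        refine mul_le_mul hκn (hdet.trans hBle) (by positivity) (Real.exp_pos _).le
    _ ≤ Real.exp θ * (|A.det| * (2 * n * m)) := by
        have := Real.exp_pos θ
        gcongr
    _ = 2 * Real.exp θ * (n * |A.det| * m) := by ring
    _ ≤ 9 * (n * |A.det| * m) :=
        mul_le_mul_of_nonneg_right exp_const (by positivity)
    _ = 9 * n * |A.det| * m := by ring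
    _ ≤ 9 * n * |A.det| * meanMin A r (max 1 (nShort A r)) :=
        mul_le_mul_of_nonneg_left (meanMin_mono A hA r hSle) (by positivity)

/-- R1'. -/
theorem cover_statement : CoverStatement := by
  intro n hn A hA r hr
  refine (mean_statement n hn A hA r hr).trans ?_
  rw [mul_assoc (9 * (n : ℝ) * |A.det|)]
  exact mul_le_mul_of_nonneg_left (meanMin_le A hA r _) (by positivity)

end Pool.Agent.Lib.MP_ef2672_gt_Over
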