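import Pool.Agent.Lib.MP_ef2672_gt_Tauber.Super
import Pool.Agent.Lib.EF_h73.Final

/-!
MP_ef2672, TT6: overlap of the balls of radius `λ₁` of a lattice, definitions and rows.
-/

set_option autoImplicit false

namespace Pool.Agent.Lib.MP_ef2672_gt_Over

open Pool.Agent.Lib.MP_ef2672_gt_Tauber Pool.Agent.Lib.EF_h73 MeasureTheory Filter Topology

/-- The fraction of space within distance `√r` of the lattice `A ℤⁿ`: the volume of the set of the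
points `t` of the unit cube `[0,1)ⁿ` with `|A (t - w)|² < r` for some integer vector `w`. -/
noncomputable def cov {n : ℕ} (A : Matrix (Fin n) (Fin n) ℝ) (r : ℝ) : ℝ :=
  (volume {t : Fin n → ℝ | (∀ i, 0 ≤ t i ∧ t i < 1) ∧ ∃ w : Fin n → ℤ,
    qf A (fun j => t j - w j) < r}).toReal

/-- The number of the integer vectors `w` with `|A (t - w)|² < r`, that is, of the points of the
lattice `A ℤⁿ` within distance `√r` of `A t`. -/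
noncomputable def count {n : ℕ} (A : Matrix (Fin n) (Fin n) ℝ) (r : ℝ) (t : Fin n → ℝ) : ℕ :=
  {w : Fin n → ℤ | qf A (fun j => t j - w j) < r}.ncard

/-- The mean of `min M (count A r t)` for `t` in the unit cube `[0,1)ⁿ`. -/
noncomputable def meanMin {n : ℕ} (A : Matrix (Fin n) (Fin n) ℝ) (r : ℝ) (M : ℕ) : ℝ :=
  ∫ t in {t : Fin n → ℝ | ∀ i, 0 ≤ t i ∧ t i < 1}, ((min M (count A r t) : ℕ) : ℝ)

/-- `inv A`, corrected by the overlap of the balls of radius `√(minSq A)` about the points of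
`A ℤⁿ`. -/
noncomputable def overlap {n : ℕ} (A : Matrix (Fin n) (Fin n) ℝ) : ℝ :=
  inv A / cov A (minSq A) ^ ((2 : ℝ) / n)

/-- The supremum of `overlap A / n` over the lattices `A ℤⁿ` of determinant at least
`f n * λ₁(A)ⁿ`. -/
noncomputable def sparse (f : ℕ → ℝ) (n : ℕ) : ℝ :=
  (⨆ A : {A : Matrix (Fin n) (Fin n) ℝ // A.det ≠ 0 ∧
    f n * minSq A ^ ((n : ℝ) / 2) ≤ |A.det|}, overlap A.1) / n

/-! ### Rows -/

/-- R1 (61): the main inequality. -/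
def MeanStatement : Prop :=
  ∀ (n : ℕ), 0 < n → ∀ A : Matrix (Fin n) (Fin n) ℝ, A.det ≠ 0 → ∀ r : ℝ, 0 < r →
    (r / gamma n) ^ ((n : ℝ) / 2) ≤ 9 * n * |A.det| * meanMin A r (max 1 (nShort A r))

/-- R1' (61). -/
def CoverStatement : Prop :=
  ∀ (n : ℕ), 0 < n → ∀ A : Matrix (Fin n) (Fin n) ℝ, A.det ≠ 0 → ∀ r : ℝ, 0 < r →
    (r / gamma n) ^ ((n : ℝ) / 2) ≤ 9 * n * |A.det| * (max 1 (nShort A r) : ℕ) * cov A r

/-- R4. A lattice `L ⊕ t ℤᵏ`, `t` large: its balls of radius `λ₁(L)` cover at most the fraction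
`(C λ₁² / (k t²))^(k/2)`. -/
def DirectStatement : Prop :=
  ∃ C : ℝ, 1 ≤ C ∧ ∀ (n k : ℕ), 0 < n → 0 < k → ∀ A : Matrix (Fin n) (Fin n) ℝ, A.det ≠ 0 →
    ∀ D : ℝ, ∃ B : Matrix (Fin (n + k)) (Fin (n + k)) ℝ, B.det ≠ 0 ∧ D ≤ |B.det| ∧
      minSq B = minSq A ∧
      (inv A) ^ ((n : ℝ) / (n + k : ℕ)) * ((k : ℝ) / C) ^ ((k : ℝ) / (n + k : ℕ)) ≤ overlap B

/-- R5. -/
def SparseStatement : Prop :=
  ∀ f : ℕ → ℝ, limsup (sparse f) atTop = limsup c atTop ∧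
    ∀ l : ℝ, Tendsto (sparse f) atTop (𝓝 l) ↔ Tendsto c atTop (𝓝 l)

/-- R6 (40). -/
def AutoStatement : Prop :=
  ∀ (n : ℕ), 0 < n → ∀ A : Matrix (Fin n) (Fin n) ℝ, A.det ≠ 0 → ∀ r : ℝ, 0 < r →
    (volume {x : Fin n → ℝ | ∑ i, x i ^ 2 < r}).toReal ≤
      |A.det| * cov A r * ∑' w : Fin n → ℤ, (max 0 (1 - normSq A w / (4 * r))) ^ ((n : ℝ) / 2)

/-- R7 (40): lattices with few short vectors. -/
def LeanUpper : Prop :=
  ∀ ε : ℝ, 0 < ε → ∃ δ : ℝ, 0 < δ ∧ ∀ᶠ n : ℕ in atTop, ∀ A : Matrix (Fin n) (Fin n) ℝ,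
    A.det ≠ 0 → (∀ s : ℝ, 1 ≤ s → s < 4 →
      (nShort A (s * minSq A) : ℝ) ≤ (4 / (4 - s)) ^ ((n : ℝ) / 2) * Real.exp (δ * n)) →
    inv A ≤ (c0 + ε) * n

/-- R8 (30). -/
def LeanIff : Prop :=
  Tendsto c atTop (𝓝 c0) ↔ ∀ ε : ℝ, 0 < ε → ∀ᶠ n : ℕ in atTop,
    ∃ A : Matrix (Fin n) (Fin n) ℝ, A.det ≠ 0 ∧ (1 - ε) * gamma n ≤ inv A ∧
      ∀ s : ℝ, 1 ≤ s → s < 4 →
        (nShort A (s * minSq A) : ℝ) ≤ s ^ ((n : ℝ) / 2) * Real.exp (ε * n)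

end Pool.Agent.Lib.MP_ef2672_gt_Over
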