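import Pool.Agent.Lib.MP_ef2672_gt_Over.Defs

/-!
MP_ef2672, TT6, row R4: the lattices `L ⊕ t ℤᵏ`.
-/

set_option autoImplicit false

namespace Pool.Agent.Lib.MP_ef2672_gt_Over

open Pool.Agent.Lib.MP_ef2672_gt_Tauber Pool.Agent.Lib.EF_h73 MeasureTheory Filter Topology

/-- Chernoff bound for the product of a cube and a ball. -/
private lemma vol_cyl_le {n k : ℕ} (e : Fin k → ℝ) (r κ : ℝ) (hκ : 0 < κ) :
    volume {x : Fin (n + k) → ℝ | (∀ i : Fin n, 0 ≤ x (Fin.castAdd k i) ∧
      x (Fin.castAdd k i) < 1) ∧ ∑ j, (x (Fin.natAdd n j) - e j) ^ 2 < r} ≤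
      ENNReal.ofReal (Real.exp (κ * r) * (Real.sqrt (Real.pi / κ)) ^ k) := by
  set φ : Fin (n + k) → ℝ → ℝ := fun i => Fin.addCases
    (motive := fun _ => ℝ → ℝ) (fun _ => (Set.Ico (0 : ℝ) 1).indicator 1)
    (fun j x => Real.exp (-κ * (x - e j) ^ 2)) i with hφ
  have hφ1 : ∀ i : Fin n, φ (Fin.castAdd k i) = (Set.Ico (0 : ℝ) 1).indicator 1 := fun i => by
    rw [hφ]; simp only [Fin.addCases_left]
  have hφ2 : ∀ j : Fin k, φ (Fin.natAdd n j) = fun x => Real.exp (-κ * (x - e j) ^ 2) := fun j => by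
    rw [hφ]; simp only [Fin.addCases_right]
  have hφint : ∀ i, Integrable (φ i) := by
    intro i
    refine Fin.addCases (fun i => ?_) (fun j => ?_) i
    · rw [hφ1, integrable_indicator_iff measurableSet_Ico]
      exact integrableOn_const (by simp)
    · rw [hφ2]
      exact (integrable_exp_neg_mul_sq hκ).comp_sub_right (e j)
  have hφ0 : ∀ i x, 0 ≤ φ i x := by
    intro i x
    refine Fin.addCases (fun i => ?_) (fun j => ?_) i
    · rw [hφ1]
      exact Set.indicator_nonneg (fun _ _ => zero_le_one) x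
    · rw [hφ2]
      exact (Real.exp_pos _).le
  set g : (Fin (n + k) → ℝ) → ℝ := fun x => Real.exp (κ * r) * ∏ i, φ i (x i) with hg
  have hint : Integrable g := (Integrable.fintype_prod (f := φ) hφint).const_mul _
  have hval : ∫ x, g x = Real.exp (κ * r) * (Real.sqrt (Real.pi / κ)) ^ k := by
    rw [hg, integral_const_mul]
    congr 1
    rw [integral_fintype_prod_volume_eq_prod (f := φ), Fin.prod_univ_add]
    have h1 : ∀ i : Fin n, ∫ x, φ (Fin.castAdd k i) x = 1 := by
      intro i
      rw [hφ1, integral_indicator_one measurableSet_Ico]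
      simp [Measure.real]
    have h2 : ∀ j : Fin k, ∫ x, φ (Fin.natAdd n j) x = Real.sqrt (Real.pi / κ) := by
      intro j
      rw [hφ2, integral_sub_right_eq_self (fun x : ℝ => Real.exp (-κ * x ^ 2)) (e j),
        integral_gaussian]
    rw [Finset.prod_congr rfl fun i _ => h1 i, Finset.prod_congr rfl fun j _ => h2 j]
    simp
  have hg0 : ∀ x, 0 ≤ g x := fun x =>
    mul_nonneg (Real.exp_pos _).le (Finset.prod_nonneg fun i _ => hφ0 i _)
  have hS : MeasurableSet {x : Fin (n + k) → ℝ | (∀ i : Fin n, 0 ≤ x (Fin.castAdd k i) ∧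
      x (Fin.castAdd k i) < 1) ∧ ∑ j, (x (Fin.natAdd n j) - e j) ^ 2 < r} := by
    have m1 : MeasurableSet (⋂ i : Fin n, ({x : Fin (n + k) → ℝ | 0 ≤ x (Fin.castAdd k i)} ∩
        {x | x (Fin.castAdd k i) < 1})) :=
      MeasurableSet.iInter fun i => (measurableSet_le measurable_const
        (measurable_pi_apply _)).inter (measurableSet_lt (measurable_pi_apply _) measurable_const)
    have m2 : MeasurableSet {x : Fin (n + k) → ℝ | ∑ j, (x (Fin.natAdd n j) - e j) ^ 2 < r} :=
      measurableSet_lt (Finset.measurable_sum _ fun i _ =>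
        ((measurable_pi_apply _).sub measurable_const).pow_const 2) measurable_const
    convert m1.inter m2 using 1
    ext x
    simp
  rw [← hval, ofReal_integral_eq_lintegral_ofReal hint (Filter.Eventually.of_forall hg0),
    ← lintegral_indicator_one hS]
  refine lintegral_mono fun x => ?_
  by_cases hx : x ∈ {x : Fin (n + k) → ℝ | (∀ i : Fin n, 0 ≤ x (Fin.castAdd k i) ∧
      x (Fin.castAdd k i) < 1) ∧ ∑ j, (x (Fin.natAdd n j) - e j) ^ 2 < r}
  · rw [Set.indicator_of_mem hx]
    simp only [Pi.one_apply]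
    rw [← ENNReal.ofReal_one]
    refine ENNReal.ofReal_le_ofReal ?_
    obtain ⟨hx1, hx2⟩ := hx
    rw [hg]
    simp only
    rw [Fin.prod_univ_add]
    have h1 : ∀ i : Fin n, φ (Fin.castAdd k i) (x (Fin.castAdd k i)) = 1 := by
      intro i
      rw [hφ1, Set.indicator_of_mem (Set.mem_Ico.2 (hx1 i)), Pi.one_apply]
    rw [Finset.prod_congr rfl fun i _ => h1 i, Finset.prod_const_one, one_mul]
    have h2 : ∀ j : Fin k, φ (Fin.natAdd n j) (x (Fin.natAdd n j)) =
        Real.exp (-κ * (x (Fin.natAdd n j) - e j) ^ 2) := by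
      intro j
      rw [hφ2]
    rw [Finset.prod_congr rfl fun j _ => h2 j, ← Real.exp_sum, ← Real.exp_add]
    refine Real.one_le_exp ?_
    rw [← Finset.mul_sum]
    nlinarith
  · rw [Set.indicator_of_notMem hx]
    exact zero_le

private lemma qf_direct {n k : ℕ} (A : Matrix (Fin n) (Fin n) ℝ) (B : Matrix (Fin k) (Fin k) ℝ)
    (x : Fin (n + k) → ℝ) :
    qf (direct A B) x = qf A (fun j => x (Fin.castAdd k j)) + qf B (fun j => x (Fin.natAdd n j)) := by
  unfold qf
  rw [← finSumFinEquiv.sum_comp, Fintype.sum_sum_type]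
  congr 1
  · refine Finset.sum_congr rfl fun i _ => ?_
    congr 1
    rw [Matrix.mulVec, dotProduct, ← finSumFinEquiv.sum_comp, Fintype.sum_sum_type]
    simp [direct, Matrix.mulVec, dotProduct]
  · refine Finset.sum_congr rfl fun i _ => ?_
    congr 1
    rw [Matrix.mulVec, dotProduct, ← finSumFinEquiv.sum_comp, Fintype.sum_sum_type]
    simp [direct, Matrix.mulVec, dotProduct]

private lemma qf_smul_one {k : ℕ} (t : ℝ) (y : Fin k → ℝ) :
    qf (t • (1 : Matrix (Fin k) (Fin k) ℝ)) y = t ^ 2 * ∑ j, y j ^ 2 := by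
  unfold qf
  rw [Finset.mul_sum]
  refine Finset.sum_congr rfl fun j _ => ?_
  rw [Matrix.smul_mulVec, Matrix.one_mulVec, Pi.smul_apply, smul_eq_mul, mul_pow]

private lemma cov_direct_le {n k : ℕ} (A : Matrix (Fin n) (Fin n) ℝ) {t r κ : ℝ} (ht : 0 < t)
    (hr : r ≤ t ^ 2) (hκ : 0 < κ) :
    cov (direct A (t • (1 : Matrix (Fin k) (Fin k) ℝ))) r ≤
      2 ^ k * (Real.exp (κ * (r / t ^ 2)) * (Real.sqrt (Real.pi / κ)) ^ k) := by
  have ht2 : 0 < t ^ 2 := by positivity
  unfold cov
  refine ENNReal.toReal_le_of_le_ofReal (by positivity) ?_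
  have hsub : {x : Fin (n + k) → ℝ | (∀ i, 0 ≤ x i ∧ x i < 1) ∧ ∃ w : Fin (n + k) → ℤ,
      qf (direct A (t • (1 : Matrix (Fin k) (Fin k) ℝ))) (fun j => x j - w j) < r} ⊆
      ⋃ e : Fin k → Fin 2, {x : Fin (n + k) → ℝ | (∀ i : Fin n, 0 ≤ x (Fin.castAdd k i) ∧
        x (Fin.castAdd k i) < 1) ∧
        ∑ j, (x (Fin.natAdd n j) - ((e j : ℕ) : ℝ)) ^ 2 < r / t ^ 2} := by
    rintro x ⟨hx1, w, hw⟩
    rw [qf_direct, qf_smul_one] at hw
    have h1 : t ^ 2 * ∑ j, (x (Fin.natAdd n j) - (w (Fin.natAdd n j) : ℝ)) ^ 2 < r :=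
      lt_of_le_of_lt (le_add_of_nonneg_left (qf_nonneg A _)) hw
    have h2 : ∑ j, (x (Fin.natAdd n j) - (w (Fin.natAdd n j) : ℝ)) ^ 2 < r / t ^ 2 := by
      rw [lt_div_iff₀ ht2]
      linarith
    have h3 : r / t ^ 2 ≤ 1 := by
      rw [div_le_one ht2]
      exact hr
    have h4 : ∀ j : Fin k, w (Fin.natAdd n j) = 0 ∨ w (Fin.natAdd n j) = 1 := by
      intro j
      have h5 : (x (Fin.natAdd n j) - (w (Fin.natAdd n j) : ℝ)) ^ 2 < 1 := by
        refine lt_of_le_of_lt ?_ (h2.trans_le h3)
        exact Finset.single_le_sum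
          (f := fun j => (x (Fin.natAdd n j) - (w (Fin.natAdd n j) : ℝ)) ^ 2)
          (fun i _ => sq_nonneg _) (Finset.mem_univ j)
      have h6 := (abs_lt.1 ((sq_lt_one_iff_abs_lt_one _).1 h5))
      obtain ⟨h7, h8⟩ := hx1 (Fin.natAdd n j)
      have h9 : (-1 : ℝ) < w (Fin.natAdd n j) := by linarith [h6.2]
      have h10 : (w (Fin.natAdd n j) : ℝ) < 2 := by linarith [h6.1]
      have h11 : (-1 : ℤ) < w (Fin.natAdd n j) := by exact_mod_cast h9
      have h12 : w (Fin.natAdd n j) < 2 := by exact_mod_cast h10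
      omega
    refine Set.mem_iUnion.2 ⟨fun j => if w (Fin.natAdd n j) = 0 then 0 else 1,
      fun i => hx1 _, ?_⟩
    refine lt_of_eq_of_lt (Finset.sum_congr rfl fun j _ => ?_) h2
    rcases h4 j with h | h
    · simp [h]
    · simp [h]
  refine (measure_mono hsub).trans ((measure_iUnion_fintype_le _ _).trans ?_)
  refine (Finset.sum_le_sum (s := Finset.univ) fun (e : Fin k → Fin 2) _ =>
    vol_cyl_le (n := n) (fun j => ((e j : ℕ) : ℝ)) (r / t ^ 2) κ hκ).trans ?_
  rw [Finset.sum_const, Finset.card_univ, Fintype.card_fun, Fintype.card_fin, Fintype.card_fin,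
    nsmul_eq_mul]
  rw [ENNReal.ofReal_mul (p := 2 ^ k) (by positivity), ENNReal.ofReal_pow (by norm_num),
    ENNReal.ofReal_mul (Real.exp_pos _).le]
  refine le_of_eq ?_
  norm_num

private lemma cov_pos {n : ℕ} (B : Matrix (Fin n) (Fin n) ℝ) {r : ℝ} (hr : 0 < r) :
    0 < cov B r := by
  unfold cov
  refine ENNReal.toReal_pos ?_ ?_
  · have hU : IsOpen {x : Fin n → ℝ | (∀ i, 0 < x i ∧ x i < 1) ∧ qf B x < r} := by
      have m1 : IsOpen (⋂ i : Fin n, ({x : Fin n → ℝ | 0 < x i} ∩ {x | x i < 1})) :=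
        isOpen_iInter_of_finite fun i => (isOpen_lt continuous_const (continuous_apply i)).inter
          (isOpen_lt (continuous_apply i) continuous_const)
      convert m1.inter (isOpen_lt (continuous_qf B) (continuous_const (y := r))) using 1
      ext x
      simp
    have hne : {x : Fin n → ℝ | (∀ i, 0 < x i ∧ x i < 1) ∧ qf B x < r}.Nonempty := by
      set q := qf B (fun _ => 1) with hq
      have hq0 : 0 ≤ q := qf_nonneg B _
      set ε : ℝ := min (1 / 2) (r / (q + 1)) with hε
      have hε0 : 0 < ε := lt_min (by norm_num) (by positivity)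
      have hε1 : ε ≤ 1 / 2 := min_le_left _ _
      have hε2 : ε ≤ r / (q + 1) := min_le_right _ _
      refine ⟨ε • fun _ => (1 : ℝ), fun i => ?_, ?_⟩
      · simp only [Pi.smul_apply, smul_eq_mul, mul_one]
        exact ⟨hε0, by linarith⟩
      · rw [qf_smul]
        have h1 : ε * (q + 1) ≤ r := by
          rwa [le_div_iff₀ (by positivity)] at hε2
        nlinarith
    refine (lt_of_lt_of_le (hU.measure_pos volume hne) (measure_mono ?_)).ne'
    rintro x ⟨hx1, hx2⟩
    refine ⟨fun i => ⟨(hx1 i).1.le, (hx1 i).2⟩, 0, ?_⟩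
    simpa using hx2
  · refine ne_top_of_le_ne_top (b := volume (Set.pi Set.univ fun _ : Fin n => Set.Ico (0 : ℝ) 1)) ?_
      (measure_mono ?_)
    · rw [Real.volume_pi_Ico]
      simp
    · rintro x ⟨hx, -⟩ i -
      exact hx i

/-- Row R4. -/
theorem direct_statement : DirectStatement := by
  refine ⟨8 * Real.pi * Real.exp 1, ?_, ?_⟩
  · have h1 : (3 : ℝ) < Real.pi := Real.pi_gt_three
    have h2 : (1 : ℝ) ≤ Real.exp 1 := Real.one_le_exp zero_le_one
    nlinarith
  intro n k hn hk A hA D
  have hn0 : (0 : ℝ) < n := by exact_mod_cast hn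
  have hk0 : (0 : ℝ) < k := by exact_mod_cast hk
  have hA0 : 0 < |A.det| := abs_pos.2 hA
  set L := minSq A with hL
  have hL0 : 0 ≤ L := minSq_nonneg A
  -- the scale
  set t : ℝ := 1 + L + |D| / |A.det| with ht
  have ht1 : 1 ≤ t := by
    have : 0 ≤ |D| / |A.det| := by positivity
    linarith
  have ht0 : 0 < t := by linarith
  have htL : L ≤ t ^ 2 := by
    have : 0 ≤ |D| / |A.det| := by positivity
    nlinarith
  set B : Matrix (Fin (n + k)) (Fin (n + k)) ℝ :=
    direct A (t • (1 : Matrix (Fin k) (Fin k) ℝ)) with hB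
  have hdet : B.det = A.det * t ^ k := by
    rw [hB, direct_det, Matrix.det_smul, Matrix.det_one, Fintype.card_fin, mul_one]
  have habs : |B.det| = |A.det| * t ^ k := by
    rw [hdet, abs_mul, abs_of_pos (pow_pos ht0 k)]
  have hmin : minSq B = L := by
    apply le_antisymm
    · refine le_minSq hn A fun w hw => ?_
      have h1 := minSq_le B (Fin.append w (0 : Fin k → ℤ)) (fun h => hw (by
        ext i
        have := congrFun h (Fin.castAdd k i)
        rwa [Fin.append_left] at this))
      rw [hB, direct_sq] at h1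
      refine h1.trans (le_of_eq ?_)
      have h2 : (fun j : Fin k => ((Fin.append w (0 : Fin k → ℤ) (Fin.natAdd n j) : ℤ) : ℝ)) =
          0 := by
        ext j
        simp [Fin.append_right]
      rw [h2, Matrix.mulVec_zero]
      simp [Fin.append_left]
    · refine le_trans (le_min le_rfl ?_) (le_minSq_direct hn A _)
      refine htL.trans (le_minSq hk _ fun w hw => ?_)
      have h1 := qf_smul_one t (fun j => (w j : ℝ))
      unfold qf at h1
      rw [h1]
      obtain ⟨j, hj⟩ : ∃ j, w j ≠ 0 := Function.ne_iff.1 hw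
      have h2 : (1 : ℝ) ≤ (w j : ℝ) ^ 2 := by
        have h3 : (1 : ℤ) ≤ w j ^ 2 := by
          have := sq_pos_of_ne_zero hj
          omega
        exact_mod_cast h3
      have h3 : (w j : ℝ) ^ 2 ≤ ∑ j, (w j : ℝ) ^ 2 :=
        Finset.single_le_sum (f := fun j => (w j : ℝ) ^ 2) (fun i _ => sq_nonneg _)
          (Finset.mem_univ j)
      have h4 : 0 < t ^ 2 := by positivity
      nlinarith
  refine ⟨B, ?_, ?_, hmin, ?_⟩
  · rw [hdet]
    exact mul_ne_zero hA (pow_pos ht0 k).ne'
  · rw [habs]
    have h1 : |D| / |A.det| ≤ t := by linarith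
    have h2 : t ≤ t ^ k := by
      calc t = t ^ 1 := (pow_one t).symm
        _ ≤ t ^ k := pow_le_pow_right₀ ht1 hk
    have h3 : |D| ≤ |A.det| * t ^ k := by
      rw [div_le_iff₀ hA0] at h1
      nlinarith
    exact (le_abs_self D).trans h3
  rcases hL0.eq_or_lt with h0 | h0
  · have h1 : inv A = 0 := by
      unfold inv
      rw [← hL, ← h0, zero_div]
    rw [h1, Real.zero_rpow (by positivity), zero_mul]
    unfold overlap
    exact div_nonneg (inv_nonneg B) (Real.rpow_nonneg ENNReal.toReal_nonneg _)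
  · have hm0 : (0 : ℝ) < (n + k : ℕ) := by positivity
    have hcov := cov_direct_le (n := n) (k := k) A (t := t) (r := L)
      (κ := k * t ^ 2 / (2 * L)) ht0 htL (by positivity)
    have hcov0 : 0 < cov B L := cov_pos B h0
    set E : ℝ := 8 * Real.pi * Real.exp 1 * L / (k * t ^ 2) with hE
    have hE0 : 0 < E := by positivity
    have hval : (2 : ℝ) ^ k * (Real.exp (k * t ^ 2 / (2 * L) * (L / t ^ 2)) *
        (Real.sqrt (Real.pi / (k * t ^ 2 / (2 * L)))) ^ k) = E ^ ((k : ℝ) / 2) := by
      apply Real.log_injOn_pos (Set.mem_Ioi.2 (by positivity)) (Set.mem_Ioi.2 (by positivity))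
      rw [Real.log_mul (by positivity) (by positivity), Real.log_mul (by positivity)
        (by positivity), Real.log_pow, Real.log_pow, Real.log_exp, Real.log_rpow hE0,
        Real.log_sqrt (by positivity), hE, Real.log_div (by positivity) (by positivity),
        Real.log_div (by positivity) (by positivity), Real.log_div (by positivity) (by positivity),
        Real.log_mul (by positivity) (by positivity), Real.log_mul (by positivity) (by positivity),
        Real.log_mul (by positivity) (by positivity), Real.log_mul (by positivity) (by positivity),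
        Real.log_mul (by positivity) (by positivity), Real.log_exp]
      have h8 : Real.log 8 = 3 * Real.log 2 := by
        rw [show (8 : ℝ) = 2 ^ 3 by norm_num, Real.log_pow]
        norm_num
      rw [h8]
      have h9 : (k : ℝ) * t ^ 2 / (2 * L) * (L / t ^ 2) = k / 2 := by
        field_simp
      rw [h9]
      ring
    rw [hval] at hcov
    have hcov2 : cov B L ^ ((2 : ℝ) / (n + k : ℕ)) ≤ E ^ ((k : ℝ) / (n + k : ℕ)) := by
      calc cov B L ^ ((2 : ℝ) / (n + k : ℕ)) ≤ (E ^ ((k : ℝ) / 2)) ^ ((2 : ℝ) / (n + k : ℕ)) :=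
            Real.rpow_le_rpow hcov0.le hcov (by positivity)
        _ = E ^ ((k : ℝ) / (n + k : ℕ)) := by
          rw [← Real.rpow_mul hE0.le]
          congr 1
          field_simp
    have hinvB : 0 ≤ inv B := inv_nonneg B
    have h1 : inv B / E ^ ((k : ℝ) / (n + k : ℕ)) ≤ overlap B := by
      unfold overlap
      rw [hmin]
      exact div_le_div_of_nonneg_left hinvB (Real.rpow_pos_of_pos hcov0 _) hcov2
    refine le_trans (le_of_eq ?_) h1
    unfold inv
    rw [hmin, ← hL, habs]
    apply Real.log_injOn_pos (Set.mem_Ioi.2 (by positivity)) (Set.mem_Ioi.2 (by positivity))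
    rw [Real.log_mul (by positivity) (by positivity), Real.log_rpow (by positivity),
      Real.log_rpow (by positivity), Real.log_div (by positivity) (by positivity),
      Real.log_div (by positivity) (by positivity), Real.log_div (by positivity) (by positivity),
      Real.log_div (by positivity) (by positivity), Real.log_rpow (by positivity),
      Real.log_rpow (by positivity), Real.log_rpow (by positivity), hE,
      Real.log_div (by positivity) (by positivity),
      Real.log_mul (x := |A.det|) (by positivity) (by positivity), Real.log_pow,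
      Real.log_mul (x := 8 * Real.pi * Real.exp 1) (by positivity) (by positivity),
      Real.log_mul (x := 8 * Real.pi) (by positivity) (by positivity),
      Real.log_mul (x := 8) (by positivity) (by positivity),
      Real.log_mul (x := (k : ℝ)) (by positivity) (by positivity), Real.log_pow]
    push_cast
    field_simp
    ring

end Pool.Agent.Lib.MP_ef2672_gt_Over
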