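import Pool.Agent.Lib.EF_h73.Final

/-!
MP_ef2672, TT6: a lower bound for the volume of a ball with the right exponential order.
-/

set_option autoImplicit false

namespace Pool.Agent.Lib.MP_ef2672_gt_Over.VolLow

open MeasureTheory Filter Topology
open scoped ENNReal

lemma factorial_le {n : ℕ} (hn : 0 < n) :
    (n.factorial : ℝ) ≤ Real.exp 1 * Real.sqrt n * (n / Real.exp 1) ^ n := by
  obtain ⟨m, rfl⟩ : ∃ m, n = m + 1 := ⟨n - 1, by omega⟩
  have h := Stirling.stirlingSeq'_antitone (Nat.zero_le m)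
  simp only [Function.comp_apply, Nat.succ_eq_add_one, zero_add] at h
  rw [Stirling.stirlingSeq_one] at h
  unfold Stirling.stirlingSeq at h
  have hn0 : (0 : ℝ) < ((m + 1 : ℕ) : ℝ) := by positivity
  rw [div_le_div_iff₀ (by positivity) (by positivity)] at h
  have h2 : Real.sqrt (2 * ((m + 1 : ℕ) : ℝ)) = Real.sqrt 2 * Real.sqrt ((m + 1 : ℕ) : ℝ) :=
    Real.sqrt_mul (by norm_num) _
  rw [h2] at h
  have hs : 0 < Real.sqrt 2 := by positivity
  refine le_of_mul_le_mul_right ?_ hs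
  calc ((m + 1).factorial : ℝ) * Real.sqrt 2
      ≤ Real.exp 1 * (Real.sqrt 2 * Real.sqrt ((m + 1 : ℕ) : ℝ) *
        (((m + 1 : ℕ) : ℝ) / Real.exp 1) ^ (m + 1)) := h
    _ = _ := by ring

lemma gamma_ratio {x : ℝ} (hx : 0 < x) :
    Real.Gamma (x + 1 / 2) ^ 2 ≤ x * Real.Gamma x ^ 2 := by
  have h1 : 0 < Real.Gamma x := Real.Gamma_pos_of_pos hx
  have h2 : 0 < Real.Gamma (x + 1) := Real.Gamma_pos_of_pos (by linarith)
  have h3 : 0 < Real.Gamma (x + 1 / 2) := Real.Gamma_pos_of_pos (by linarith)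
  have h4 := Real.Gamma_mul_add_mul_le_rpow_Gamma_mul_rpow_Gamma (s := x) (t := x + 1)
    (a := 1 / 2) (b := 1 / 2) hx (by linarith) (by norm_num) (by norm_num) (by norm_num)
  have h5 : 1 / 2 * x + 1 / 2 * (x + 1) = x + 1 / 2 := by ring
  rw [h5, ← Real.sqrt_eq_rpow, ← Real.sqrt_eq_rpow, ← Real.sqrt_mul h1.le] at h4
  have h6 : Real.Gamma (x + 1 / 2) ^ 2 ≤ Real.Gamma x * Real.Gamma (x + 1) := by
    have := pow_le_pow_left₀ h3.le h4 2
    rwa [Real.sq_sqrt (by positivity)] at this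
  rw [Real.Gamma_add_one hx.ne'] at h6
  calc Real.Gamma (x + 1 / 2) ^ 2 ≤ Real.Gamma x * (x * Real.Gamma x) := h6
    _ = x * Real.Gamma x ^ 2 := by ring

/-- `Γ(n/2+1)² ≤ 9 n² (n/(2e))ⁿ`. -/
lemma gamma_sq_le {n : ℕ} (hn : 0 < n) :
    Real.Gamma ((n : ℝ) / 2 + 1) ^ 2 ≤ (3 * n) ^ 2 * ((n : ℝ) / (2 * Real.exp 1)) ^ n := by
  have hn1 : (1 : ℝ) ≤ n := by exact_mod_cast hn
  set x : ℝ := (n : ℝ) / 2 + 1 / 2 with hx
  have hx0 : 0 < x := by positivity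
  have hxn : x ≤ n := by rw [hx]; linarith
  have hG0 : 0 < Real.Gamma x := Real.Gamma_pos_of_pos hx0
  have hG1 : 0 < Real.Gamma (x + 1 / 2) := Real.Gamma_pos_of_pos (by linarith)
  have h1 := gamma_ratio hx0
  have h2 := Real.Gamma_mul_Gamma_add_half x
  have h3 : 2 * x = (n : ℝ) + 1 := by rw [hx]; ring
  rw [h3, Real.Gamma_nat_eq_factorial] at h2
  have h4 : (2 : ℝ) ^ (1 - ((n : ℝ) + 1)) = (2 ^ n)⁻¹ := by
    rw [show (1 : ℝ) - ((n : ℝ) + 1) = -(n : ℝ) by ring, Real.rpow_neg (by norm_num),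
      Real.rpow_natCast]
  rw [h4] at h2
  have h5 : x + 1 / 2 = (n : ℝ) / 2 + 1 := by rw [hx]; ring
  have h6 : Real.Gamma (x + 1 / 2) ≤ Real.sqrt x * Real.Gamma x := by
    refine (sq_le_sq₀ hG1.le (by positivity)).1 ?_
    rw [mul_pow, Real.sq_sqrt hx0.le]
    exact h1
  have h7 : Real.Gamma (x + 1 / 2) ^ 2 ≤
      Real.sqrt x * ((n.factorial : ℝ) * (2 ^ n)⁻¹ * Real.sqrt Real.pi) := by
    rw [← h2]
    calc Real.Gamma (x + 1 / 2) ^ 2 = Real.Gamma (x + 1 / 2) * Real.Gamma (x + 1 / 2) := by ring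
      _ ≤ (Real.sqrt x * Real.Gamma x) * Real.Gamma (x + 1 / 2) :=
        mul_le_mul_of_nonneg_right h6 hG1.le
      _ = _ := by ring
  rw [h5] at h7
  refine h7.trans ?_
  have h8 := factorial_le hn
  have h9 : Real.sqrt x ≤ Real.sqrt n := Real.sqrt_le_sqrt hxn
  have h10 : Real.sqrt Real.pi ≤ 2 := by
    rw [Real.sqrt_le_left (by norm_num)]
    linarith [Real.pi_lt_four]
  have h11 : Real.exp 1 ≤ 3 := by linarith [Real.exp_one_lt_d9]
  have h12 : Real.sqrt n * Real.sqrt n = n := Real.mul_self_sqrt (by positivity)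
  calc Real.sqrt x * ((n.factorial : ℝ) * (2 ^ n)⁻¹ * Real.sqrt Real.pi)
      ≤ Real.sqrt n * ((Real.exp 1 * Real.sqrt n * (n / Real.exp 1) ^ n) * (2 ^ n)⁻¹ * 2) := by
        gcongr
    _ = (Real.sqrt n * Real.sqrt n) * (2 * Real.exp 1) *
        ((n : ℝ) / (2 * Real.exp 1)) ^ n := by
        rw [div_pow, div_pow, mul_pow]
        field_simp
    _ ≤ (3 * n) ^ 2 * ((n : ℝ) / (2 * Real.exp 1)) ^ n := by
        rw [h12]
        refine mul_le_mul_of_nonneg_right ?_ (by positivity)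
        nlinarith

/-- The volume of a ball of squared radius `r` is at least `(2 π e r / n)^(n/2) / (3 n)`. -/
theorem vol_ge {n : ℕ} (hn : 0 < n) {r : ℝ} (hr : 0 < r) :
    (2 * Real.pi * Real.exp 1 * r / n) ^ ((n : ℝ) / 2) / (3 * n) ≤
      (volume {x : Fin n → ℝ | ∑ i, x i ^ 2 < r}).toReal := by
  have : Nonempty (Fin n) := ⟨⟨0, hn⟩⟩
  have hn0 : (0 : ℝ) < n := by exact_mod_cast hn
  have hG : 0 < Real.Gamma ((n : ℝ) / 2 + 1) := Real.Gamma_pos_of_pos (by positivity)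
  have h := volume_sum_rpow_lt (ι := Fin n) (p := 2) (by norm_num) (Real.sqrt r)
  have hset : {x : Fin n → ℝ | (∑ i, |x i| ^ (2 : ℝ)) ^ ((1 : ℝ) / 2) < Real.sqrt r} =
      {x : Fin n → ℝ | ∑ i, x i ^ 2 < r} := by
    ext x
    simp only [Set.mem_ofPred_eq]
    have h1 : ∑ i, |x i| ^ (2 : ℝ) = ∑ i, x i ^ 2 := by
      refine Finset.sum_congr rfl fun i _ => ?_
      rw [show (2 : ℝ) = ((2 : ℕ) : ℝ) by norm_num, Real.rpow_natCast, sq_abs]
    rw [h1, ← Real.sqrt_eq_rpow]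
    exact Real.sqrt_lt_sqrt_iff (Finset.sum_nonneg fun i _ => sq_nonneg _)
  rw [hset] at h
  rw [h, Fintype.card_fin, ENNReal.toReal_mul, ENNReal.toReal_pow,
    ENNReal.toReal_ofReal (Real.sqrt_nonneg r)]
  have h2 : Real.Gamma (1 / 2 + 1) = Real.sqrt Real.pi / 2 := by
    rw [Real.Gamma_add_one (by norm_num), Real.Gamma_one_half_eq]; ring
  rw [h2, ENNReal.toReal_ofReal (by positivity)]
  have h3 : 2 * (Real.sqrt Real.pi / 2) = Real.sqrt Real.pi := by ring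
  rw [h3]
  have h4 : Real.Gamma ((n : ℝ) / 2 + 1) ≤
      3 * n * ((n : ℝ) / (2 * Real.exp 1)) ^ ((n : ℝ) / 2) := by
    refine (sq_le_sq₀ hG.le (by positivity)).1 ((gamma_sq_le hn).trans (le_of_eq ?_))
    have h9 : ((n : ℝ) / (2 * Real.exp 1)) ^ n =
        (((n : ℝ) / (2 * Real.exp 1)) ^ ((n : ℝ) / 2)) ^ 2 := by
      rw [← Real.rpow_natCast (((n : ℝ) / (2 * Real.exp 1)) ^ ((n : ℝ) / 2)) 2,
        ← Real.rpow_mul (by positivity), ← Real.rpow_natCast]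
      congr 1
      push_cast
      ring
    rw [h9]
    ring
  have h5 : Real.sqrt r ^ n = r ^ ((n : ℝ) / 2) := by
    rw [Real.sqrt_eq_rpow, ← Real.rpow_natCast, ← Real.rpow_mul hr.le]; congr 1; ring
  have h6 : Real.sqrt Real.pi ^ n = Real.pi ^ ((n : ℝ) / 2) := by
    rw [Real.sqrt_eq_rpow, ← Real.rpow_natCast, ← Real.rpow_mul Real.pi_pos.le]; congr 1; ring
  rw [h5, h6]
  have h7 : (2 * Real.pi * Real.exp 1 * r / n) ^ ((n : ℝ) / 2) =
      r ^ ((n : ℝ) / 2) * Real.pi ^ ((n : ℝ) / 2) /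
        ((n : ℝ) / (2 * Real.exp 1)) ^ ((n : ℝ) / 2) := by
    rw [← Real.mul_rpow hr.le Real.pi_pos.le, ← Real.div_rpow (by positivity) (by positivity)]
    congr 1
    field_simp
  rw [h7, div_div, ← mul_div_assoc]
  refine div_le_div_of_nonneg_left (by positivity) hG ?_
  rw [mul_comm]
  exact h4

end Pool.Agent.Lib.MP_ef2672_gt_Over.VolLow
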