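import Pool.Agent.Lib.MP_ef2672_gt_Over.Auto
import Pool.Agent.Lib.MP_ef2672_gt_Over.VolLow

/-!
MP_ef2672, TT6, row R7: lattices with few short vectors satisfy the asymptotic upper bound
`inv A ≤ (c0 + ε) n`.
-/

set_option autoImplicit false

namespace Pool.Agent.Lib.MP_ef2672_gt_Over.FewShort

open Pool.Agent.Lib.MP_ef2672_gt_Tauber Pool.Agent.Lib.EF_h73 MeasureTheory Filter Topology
open Pool.Agent.Lib.MP_ef2672_gt_Over.Auto

/-- The layers. -/
lemma exists_layer {q s : ℝ} {K : ℕ} (h1 : 1 ≤ s) (hK : s < 4 - 3 * q ^ K) :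
    ∃ j < K, 4 - 3 * q ^ j ≤ s ∧ s < 4 - 3 * q ^ (j + 1) := by
  classical
  have hex : ∃ j, s < 4 - 3 * q ^ j := ⟨K, hK⟩
  have hf := Nat.find_spec hex
  have hle : Nat.find hex ≤ K := Nat.find_min' hex hK
  have hne : Nat.find hex ≠ 0 := by
    intro h0
    rw [h0, pow_zero] at hf
    linarith
  obtain ⟨j, hj⟩ := Nat.exists_eq_succ_of_ne_zero hne
  refine ⟨j, by omega, ?_, ?_⟩
  · have := Nat.find_min hex (m := j) (by omega)
    exact not_lt.1 this
  · rw [hj] at hf
    exact hf

/-- The weighted sum over the lattice. -/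
lemma tsum_wt_le {n : ℕ} (hn : 0 < n) (A : Matrix (Fin n) (Fin n) ℝ) (hA : A.det ≠ 0)
    (hμ : 0 < minSq A) {η : ℝ} (hη : 0 < η) {K : ℕ}
    (hK : 3 * Real.exp (-η) ^ K ≤ 4 * (1 - Real.exp (-η)))
    (hcount : ∀ s : ℝ, 1 ≤ s → s < 4 →
      (nShort A (s * minSq A) : ℝ) ≤ (4 / (4 - s)) ^ ((n : ℝ) / 2) * Real.exp (η / 2 * n)) :
    ∑' w, wt A (Real.exp (-η) * minSq A) w ≤ (K + 1) * Real.exp (η * n) := by
  classical
  have hn0 : (0 : ℝ) < n := by exact_mod_cast hn
  set q := Real.exp (-η) with hq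
  set μ := minSq A with hμdef
  have hq0 : 0 < q := Real.exp_pos _
  have hq1 : q < 1 := by rw [hq]; exact Real.exp_lt_one_iff.2 (by linarith)
  have hr : 0 < q * μ := by positivity
  have hfin := finite_short A hA (4 * (q * μ))
  set T : Finset (Fin n → ℤ) := hfin.toFinset with hT
  have hT0 : (0 : Fin n → ℤ) ∉ T := by
    rw [hT, Set.Finite.mem_toFinset]
    exact fun h => h.1 rfl
  have hsum : ∑' w, wt A (q * μ) w = ∑ w ∈ insert 0 T, wt A (q * μ) w := by
    refine tsum_eq_sum fun w hw => ?_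
    rw [Finset.mem_insert, not_or] at hw
    have h1 : ¬ normSq A w < 4 * (q * μ) := by
      intro h
      exact hw.2 (hfin.mem_toFinset.2 ⟨hw.1, h⟩)
    unfold wt
    rw [max_eq_left, Real.zero_rpow (by positivity)]
    rw [sub_nonpos, one_le_div (by positivity)]
    exact not_lt.1 h1
  rw [hsum, Finset.sum_insert hT0]
  have h0 : wt A (q * μ) 0 = 1 := by
    unfold wt
    have : normSq A 0 = 0 := by
      unfold normSq
      have h : (fun j : Fin n => (((0 : Fin n → ℤ) j : ℤ) : ℝ)) = 0 := by ext j; simp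
      rw [h, Matrix.mulVec_zero]
      simp
    rw [this, zero_div, sub_zero, max_eq_right zero_le_one, Real.one_rpow]
  have hlay : ∀ w ∈ T, wt A (q * μ) w ≤ ∑ j ∈ Finset.range K,
      if normSq A w < (4 - 3 * q ^ (j + 1)) * μ then (3 * q ^ j / 4) ^ ((n : ℝ) / 2) else 0 := by
    intro w hw
    rw [hT, Set.Finite.mem_toFinset] at hw
    have hw1 : μ ≤ normSq A w := minSq_le A w hw.1
    have hw2 : normSq A w < 4 * (q * μ) := hw.2
    set s := normSq A w / μ with hs
    have hsμ : normSq A w = s * μ := by rw [hs]; field_simp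
    have hs1 : 1 ≤ s := by rw [hs, one_le_div hμ]; exact hw1
    have hs4 : s < 4 - 3 * q ^ K := by
      have h1 : s < 4 * q := by
        rw [hs, div_lt_iff₀ hμ]; linarith
      linarith
    obtain ⟨j, hjK, hj1, hj2⟩ := exists_layer hs1 hs4
    have hterm : wt A (q * μ) w ≤ (3 * q ^ j / 4) ^ ((n : ℝ) / 2) := by
      unfold wt
      refine Real.rpow_le_rpow (le_max_left _ _) ?_ (by positivity)
      refine max_le (by positivity) ?_
      have h1 : s / 4 ≤ normSq A w / (4 * (q * μ)) := by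
        rw [hsμ, div_le_div_iff₀ (by norm_num) (by positivity)]
        nlinarith [mul_pos (lt_of_lt_of_le one_pos hs1) hμ]
      linarith
    refine hterm.trans ?_
    have hcond : normSq A w < (4 - 3 * q ^ (j + 1)) * μ := by
      rw [hsμ]
      exact mul_lt_mul_of_pos_right hj2 hμ
    calc (3 * q ^ j / 4) ^ ((n : ℝ) / 2)
        = if normSq A w < (4 - 3 * q ^ (j + 1)) * μ then (3 * q ^ j / 4) ^ ((n : ℝ) / 2) else 0 :=
          by rw [if_pos hcond]
      _ ≤ _ := Finset.single_le_sum (f := fun j =>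
          if normSq A w < (4 - 3 * q ^ (j + 1)) * μ then (3 * q ^ j / 4) ^ ((n : ℝ) / 2) else 0)
          (fun i _ => by
            show 0 ≤ ite _ _ _
            split_ifs
            · positivity
            · exact le_rfl) (Finset.mem_range.2 hjK)
  have hmain : ∑ w ∈ T, wt A (q * μ) w ≤ K * Real.exp (η * n) := by
    refine (Finset.sum_le_sum hlay).trans ?_
    rw [Finset.sum_comm]
    have hj : ∀ j ∈ Finset.range K, (∑ w ∈ T,
        if normSq A w < (4 - 3 * q ^ (j + 1)) * μ then (3 * q ^ j / 4) ^ ((n : ℝ) / 2) else 0) ≤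
        Real.exp (η * n) := by
      intro j _
      rw [← Finset.sum_filter, Finset.sum_const, nsmul_eq_mul]
      have hp : q ^ (j + 1) ≤ 1 := pow_le_one₀ hq0.le hq1.le
      have hp0 : 0 < q ^ (j + 1) := pow_pos hq0 _
      have hc := hcount (4 - 3 * q ^ (j + 1)) (by linarith) (by linarith)
      have hcard : ((T.filter fun w => normSq A w < (4 - 3 * q ^ (j + 1)) * μ).card : ℝ) ≤
          nShort A ((4 - 3 * q ^ (j + 1)) * μ) := by
        rw [← Set.ncard_coe_finset]
        unfold nShort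
        refine Nat.cast_le.2 (Set.ncard_le_ncard ?_ (finite_short A hA _))
        intro w hw
        rw [Finset.mem_coe, Finset.mem_filter, hT, Set.Finite.mem_toFinset] at hw
        exact ⟨hw.1.1, hw.2⟩
      refine (mul_le_mul_of_nonneg_right (hcard.trans hc) (by positivity)).trans (le_of_eq ?_)
      have h4 : (4 : ℝ) - (4 - 3 * q ^ (j + 1)) = 3 * q ^ (j + 1) := by ring
      rw [h4, mul_right_comm, ← Real.mul_rpow (by positivity) (by positivity)]
      have h5 : 4 / (3 * q ^ (j + 1)) * (3 * q ^ j / 4) = Real.exp η := by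
        have h6 : q * Real.exp η = 1 := by rw [hq, ← Real.exp_add]; simp
        rw [pow_succ]
        field_simp
        linarith
      rw [h5, ← Real.exp_mul, ← Real.exp_add]
      congr 1
      ring
    refine (Finset.sum_le_sum hj).trans ?_
    rw [Finset.sum_const, Finset.card_range, nsmul_eq_mul]
  rw [h0]
  have h1 : 1 ≤ Real.exp (η * n) := Real.one_le_exp (by positivity)
  linarith

theorem lean_upper : LeanUpper := by
  intro ε hε
  have hc0 := c0_pos
  set η : ℝ := Real.log (1 + ε / c0) / 4 with hηdef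
  have hη : 0 < η := by
    have h1 : 0 < Real.log (1 + ε / c0) := Real.log_pos (by
      have : 0 < ε / c0 := by positivity
      linarith)
    positivity
  have hη4 : Real.exp (4 * η) = 1 + ε / c0 := by
    rw [hηdef, mul_div_cancel₀ _ (by norm_num : (4 : ℝ) ≠ 0), Real.exp_log (by positivity)]
  have hq1 : Real.exp (-η) < 1 := Real.exp_lt_one_iff.2 (by linarith)
  obtain ⟨K, hK⟩ : ∃ K : ℕ, 3 * Real.exp (-η) ^ K ≤ 4 * (1 - Real.exp (-η)) := by
    obtain ⟨K, hK⟩ := exists_pow_lt_of_lt_one (x := 4 * (1 - Real.exp (-η)) / 3) (by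
      have : 0 < 1 - Real.exp (-η) := by linarith
      positivity) hq1
    refine ⟨K, ?_⟩
    rw [lt_div_iff₀ (by norm_num)] at hK
    linarith
  have hbig : ∀ᶠ n : ℕ in atTop, 3 * (n : ℝ) * (K + 1) ≤ Real.exp (η / 2 * n) := by
    have h1 : Tendsto (fun n : ℕ => Real.exp (3 * η / 8 * n)) atTop atTop :=
      Real.tendsto_exp_atTop.comp
        ((tendsto_natCast_atTop_atTop (R := ℝ)).const_mul_atTop (by positivity))
    filter_upwards [h1.eventually_ge_atTop (24 * (K + 1) / η)] with n hn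
    have h2 : (n : ℝ) ≤ 8 / η * Real.exp (η / 8 * n) := by
      have h3 := Real.add_one_le_exp (η / 8 * n)
      have h4 : (n : ℝ) = 8 / η * (η / 8 * n) := by field_simp
      calc (n : ℝ) = 8 / η * (η / 8 * n) := h4
        _ ≤ 8 / η * Real.exp (η / 8 * n) :=
          mul_le_mul_of_nonneg_left (by linarith) (by positivity)
    calc 3 * (n : ℝ) * (K + 1) ≤ 3 * (8 / η * Real.exp (η / 8 * n)) * (K + 1) := by gcongr
      _ = 24 * (K + 1) / η * Real.exp (η / 8 * n) := by ring
      _ ≤ Real.exp (3 * η / 8 * n) * Real.exp (η / 8 * n) := by gcongr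
      _ = Real.exp (η / 2 * n) := by rw [← Real.exp_add]; congr 1; ring
  refine ⟨η / 2, by positivity, ?_⟩
  filter_upwards [hbig, eventually_gt_atTop 0] with n hb hn A hA hcount
  have hn0 : (0 : ℝ) < n := by exact_mod_cast hn
  have hA0 : 0 < |A.det| := abs_pos.2 hA
  rcases (minSq_nonneg A).eq_or_lt with hμ | hμ
  · unfold inv
    rw [← hμ, zero_div]
    positivity
  set μ := minSq A with hμdef
  have hr : 0 < Real.exp (-η) * μ := by positivity
  have h1 := VolLow.vol_ge hn hr
  have h2 := auto n hn A hA (Real.exp (-η) * μ) hr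
  have h3 := tsum_wt_le hn A hA hμ hη hK hcount
  have h4 : (volume {x : Fin n → ℝ | ∑ i, x i ^ 2 < Real.exp (-η) * μ}).toReal ≤
      |A.det| * ((K + 1) * Real.exp (η * n)) := by
    refine h2.trans ?_
    have h5 : 0 ≤ ∑' w, wt A (Real.exp (-η) * μ) w := tsum_nonneg (wt_nonneg A _)
    calc |A.det| * cov A (Real.exp (-η) * μ) * ∑' w, wt A (Real.exp (-η) * μ) w
        ≤ |A.det| * 1 * ∑' w, wt A (Real.exp (-η) * μ) w := by
          gcongr
          exact cov_le_one A _
      _ ≤ |A.det| * ((K + 1) * Real.exp (η * n)) := by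
          rw [mul_one]
          gcongr
  have h5 := h1.trans h4
  rw [div_le_iff₀ (by positivity)] at h5
  have h6 : (2 * Real.pi * Real.exp 1 * (Real.exp (-η) * μ) / n) ^ ((n : ℝ) / 2) ≤
      |A.det| * Real.exp (3 * η) ^ ((n : ℝ) / 2) := by
    refine h5.trans ?_
    rw [← Real.exp_mul]
    calc |A.det| * ((K + 1) * Real.exp (η * n)) * (3 * n)
        = |A.det| * (Real.exp (η * n) * (3 * (n : ℝ) * (K + 1))) := by ring
      _ ≤ |A.det| * (Real.exp (η * n) * Real.exp (η / 2 * n)) := by gcongr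
      _ = |A.det| * Real.exp (3 * η * (n / 2)) := by
        rw [← Real.exp_add]; congr 2; ring
  set g := inv A with hg
  have hgμ : μ = g * |A.det| ^ ((2 : ℝ) / n) := by
    rw [hg]; unfold inv
    rw [div_mul_cancel₀ _ (by positivity)]
  have hg0 : 0 ≤ g := inv_nonneg A
  have h7 : (2 * Real.pi * Real.exp 1 * (Real.exp (-η) * μ) / n) =
      (g * Real.exp (-η) / (c0 * n)) * |A.det| ^ ((2 : ℝ) / n) := by
    rw [hgμ]
    unfold c0
    field_simp
  rw [h7, Real.mul_rpow (by positivity) (by positivity), ← Real.rpow_mul hA0.le] at h6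
  have h8 : (2 : ℝ) / n * (n / 2) = 1 := by field_simp
  rw [h8, Real.rpow_one, mul_comm] at h6
  have h9 := le_of_mul_le_mul_left h6 hA0
  have h10 : g * Real.exp (-η) / (c0 * n) ≤ Real.exp (3 * η) := by
    by_contra hcon
    have := Real.rpow_lt_rpow (Real.exp_pos _).le (not_le.1 hcon) (by positivity : 0 < (n : ℝ) / 2)
    linarith
  rw [div_le_iff₀ (by positivity)] at h10
  have h11 : g = g * Real.exp (-η) * Real.exp η := by
    rw [mul_assoc, ← Real.exp_add]; simp
  calc g = g * Real.exp (-η) * Real.exp η := h11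
    _ ≤ Real.exp (3 * η) * (c0 * n) * Real.exp η := by gcongr
    _ = Real.exp (4 * η) * (c0 * n) := by
      rw [mul_right_comm, ← Real.exp_add]; congr 2; ring
    _ = (c0 + ε) * n := by
      rw [hη4]; field_simp

end Pool.Agent.Lib.MP_ef2672_gt_Over.FewShort
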