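import Pool.Agent.Lib.MP_ef2672_gt_Over.MH

/-!
MP_ef2672, TT6: Minkowski-Hlawka lattices with the expected number of short vectors, and the row
`LeanIff`.
-/

set_option autoImplicit false

namespace Pool.Agent.Lib.MP_ef2672_gt_Over

open Pool.Agent.Lib.MP_ef2672_gt_Tauber Pool.Agent.Lib.EF_h73 MeasureTheory Filter Topology

lemma lin_lt_exp (a κ : ℝ) (hκ : 0 < κ) :
    ∀ᶠ n : ℕ in atTop, a * n + 1 < Real.exp (κ * n) := by
  obtain ⟨N, hN⟩ := exists_nat_gt (2 * a / κ ^ 2)
  filter_upwards [eventually_ge_atTop N, eventually_gt_atTop 0] with n hn hn0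
  have hn0' : (0 : ℝ) < n := by exact_mod_cast hn0
  have h1 : 2 * a / κ ^ 2 < n := lt_of_lt_of_le hN (by exact_mod_cast hn)
  rw [div_lt_iff₀ (by positivity)] at h1
  have h2 := Real.quadratic_le_exp_of_nonneg (show 0 ≤ κ * n by positivity)
  have h3 : (κ * n) ^ 2 / 2 = n * κ ^ 2 * n / 2 := by ring
  have h4 : 2 * a * n < n * κ ^ 2 * n := mul_lt_mul_of_pos_right h1 hn0'
  have h5 : 0 < κ * n := by positivity
  rw [h3] at h2
  linarith

lemma two_pi_c0 : 2 * Real.pi * c0 = Real.exp (-1) := by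
  unfold c0
  rw [Real.exp_neg]
  have := Real.pi_pos
  have := Real.exp_pos 1
  field_simp

lemma c0_lt_one : c0 < 1 := by
  unfold c0
  rw [div_lt_one (by positivity)]
  have h1 := Real.pi_gt_three
  have h2 := Real.add_one_le_exp (1 : ℝ)
  nlinarith

/-- The Gaussian bound for the number of integer points, normalised. -/
lemma factor_le {n : ℕ} (hn : 0 < n) {P r δ : ℝ} (hP : 0 < P) (hr : 0 < r) (hδ : 0 < δ)
    (h : (n : ℝ) ≤ 2 * Real.pi * r * δ ^ 2) :
    Real.exp (n / (2 * r) * r) * (1 + Real.sqrt (Real.pi / (n / (2 * r)))) ^ n /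
      P ^ ((n : ℝ) / 2) ≤ (r / (c0 * n * P)) ^ ((n : ℝ) / 2) * Real.exp (δ * n) := by
  have hn0 : (0 : ℝ) < n := by exact_mod_cast hn
  have hpi := Real.pi_pos
  set X : ℝ := Real.pi / (n / (2 * r)) with hX
  have hX0 : 0 < X := by positivity
  have hX1 : X = 2 * Real.pi * r / n := by rw [hX]; field_simp
  have h1 : 1 ≤ X * δ ^ 2 := by
    rw [hX1, div_mul_eq_mul_div, one_le_div hn0]
    exact h
  have h2 : 1 ≤ Real.sqrt X * δ := by
    have h3 : 1 ≤ (Real.sqrt X * δ) ^ 2 := by
      rw [mul_pow, Real.sq_sqrt hX0.le]; exact h1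
    have h4 : 0 ≤ Real.sqrt X * δ := by positivity
    nlinarith
  have h3 : 1 + Real.sqrt X ≤ Real.sqrt X * Real.exp δ := by
    have h4 := Real.add_one_le_exp δ
    have h5 := Real.sqrt_nonneg X
    nlinarith
  have h4 : (1 + Real.sqrt X) ^ n ≤ X ^ ((n : ℝ) / 2) * Real.exp (δ * n) := by
    refine (pow_le_pow_left₀ (by positivity) h3 n).trans (le_of_eq ?_)
    rw [mul_pow, ← Real.exp_nat_mul, Real.sqrt_eq_rpow, ← Real.rpow_natCast (X ^ _) n,
      ← Real.rpow_mul hX0.le]
    congr 2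
    · ring
    · ring
  have h5 : Real.exp (n / (2 * r) * r) = Real.exp 1 ^ ((n : ℝ) / 2) := by
    rw [Real.exp_one_rpow]
    congr 1
    field_simp
  have h6 : r / (c0 * n * P) = Real.exp 1 * X / P := by
    rw [hX1]
    unfold c0
    have := Real.exp_pos 1
    field_simp
  rw [h5, h6, Real.div_rpow (by positivity) hP.le, Real.mul_rpow (Real.exp_pos 1).le hX0.le,
    div_mul_eq_mul_div]
  refine div_le_div_of_nonneg_right ?_ (by positivity)
  rw [mul_assoc]
  exact mul_le_mul_of_nonneg_left h4 (by positivity)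

/-- **Minkowski-Hlawka lattices whose balls up to twice the minimal length contain no more lattice
points than their volume suggests.** -/
theorem exists_mh_asym (ε : ℝ) (hε : 0 < ε) (hε1 : ε ≤ 1) : ∀ᶠ n : ℕ in atTop,
    ∃ A : Matrix (Fin n) (Fin n) ℝ, A.det ≠ 0 ∧ c0 * Real.exp (-ε) * n ≤ inv A ∧
      ∀ s : ℝ, 1 ≤ s → s ≤ 4 → (nShort A (s * minSq A) : ℝ) ≤
        (s * inv A / (c0 * n)) ^ ((n : ℝ) / 2) * Real.exp (ε / 2 * n) := by
  have hc0 := c0_pos
  have hc1 := c0_lt_one
  set δ : ℝ := ε / 4 with hδ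
  have hδ0 : 0 < δ := by positivity
  have hδ1 : δ ≤ 1 := by rw [hδ]; linarith
  set T : ℝ := Real.exp 2 / δ ^ 2 with hT
  have hT0 : 0 < T := by positivity
  have hT2 : Real.exp 2 ≤ T := by
    rw [hT, le_div_iff₀ (by positivity)]
    have h1 : δ ^ 2 ≤ 1 := by nlinarith
    have h2 := Real.exp_pos 2
    nlinarith
  have hT1 : 1 ≤ T := (Real.one_le_exp (by norm_num)).trans hT2
  filter_upwards [lin_lt_exp (64 * T) δ hδ0, eventually_gt_atTop 0] with n hlin hn
  have hn0 : (0 : ℝ) < n := by exact_mod_cast hn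
  have hn1 : (1 : ℝ) ≤ n := by exact_mod_cast hn
  set q : ℕ := ⌈T ^ ((n : ℝ) / 2)⌉₊ with hq
  have hTn : 1 ≤ T ^ ((n : ℝ) / 2) := Real.one_le_rpow hT1 (by positivity)
  have hq1 : T ^ ((n : ℝ) / 2) ≤ q := Nat.le_ceil _
  have hq2 : (q : ℝ) < T ^ ((n : ℝ) / 2) + 1 := Nat.ceil_lt_add_one (by positivity)
  have hq0 : q ≠ 0 := by
    rintro h0
    rw [h0] at hq1
    push_cast at hq1
    linarith
  obtain ⟨p, hp, hqp, hpq⟩ := Nat.exists_prime_lt_and_le_two_mul q hq0
  have hp0 : (0 : ℝ) < p := by exact_mod_cast hp.pos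
  have hp1 : T ^ ((n : ℝ) / 2) < p := lt_of_le_of_lt hq1 (by exact_mod_cast hqp)
  have hp2 : (p : ℝ) ≤ 4 * T ^ ((n : ℝ) / 2) := by
    have : (p : ℝ) ≤ 2 * q := by exact_mod_cast hpq
    linarith
  set M : ℕ := ⌈64 * T * n⌉₊ with hM
  have hM1 : 64 * T * n ≤ M := Nat.le_ceil _
  have hM2 : (M : ℝ) < Real.exp (δ * n) :=
    (Nat.ceil_lt_add_one (by positivity)).trans hlin
  have hMp : M < p ^ 2 := by
    have h1 : Real.exp (δ * n) ≤ T ^ (n : ℝ) := by
      rw [mul_comm, ← Real.exp_one_rpow, mul_comm, Real.rpow_mul (Real.exp_pos 1).le,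
        Real.exp_one_rpow]
      refine Real.rpow_le_rpow (Real.exp_pos _).le ?_ hn0.le
      exact (Real.exp_le_exp.2 (by linarith)).trans hT2
    have h2 : T ^ (n : ℝ) = (T ^ ((n : ℝ) / 2)) ^ 2 := by
      rw [← Real.rpow_natCast, ← Real.rpow_mul hT0.le]
      congr 1
      push_cast
      ring
    have h3 : (T ^ ((n : ℝ) / 2)) ^ 2 < (p : ℝ) ^ 2 :=
      pow_lt_pow_left₀ hp1 (by positivity) two_ne_zero
    have h4 : (M : ℝ) < (p : ℝ) ^ 2 := by
      rw [h2] at h1
      linarith
    exact_mod_cast h4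
  obtain ⟨A, hdet, hcount⟩ := exists_mh hn hp hMp
  set P : ℝ := (p : ℝ) ^ ((2 : ℝ) / n) with hP
  have hP0 : 0 < P := by positivity
  have hPn : P ^ ((n : ℝ) / 2) = p := by
    rw [hP, ← Real.rpow_mul hp0.le]
    have : (2 : ℝ) / n * (n / 2) = 1 := by field_simp
    rw [this, Real.rpow_one]
  have hTP : T ≤ P := by
    by_contra hlt
    push Not at hlt
    have h1 : P ^ ((n : ℝ) / 2) ≤ T ^ ((n : ℝ) / 2) :=
      Real.rpow_le_rpow hP0.le hlt.le (by positivity)
    rw [hPn] at h1
    linarith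
  have hPT : P ≤ 16 * T := by
    by_contra hlt
    push Not at hlt
    have h1 : (16 * T) ^ ((n : ℝ) / 2) < P ^ ((n : ℝ) / 2) :=
      Real.rpow_lt_rpow (by positivity) hlt (by positivity)
    rw [hPn, Real.mul_rpow (by norm_num) hT0.le] at h1
    have h2 : (4 : ℝ) ≤ 16 ^ ((n : ℝ) / 2) := by
      have h3 : (16 : ℝ) ^ ((1 : ℝ) / 2) ≤ 16 ^ ((n : ℝ) / 2) :=
        Real.rpow_le_rpow_of_exponent_le (by norm_num) (by linarith)
      have h4 : (16 : ℝ) ^ ((1 : ℝ) / 2) = 4 := by
        rw [← Real.sqrt_eq_rpow]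
        rw [show (16 : ℝ) = 4 ^ 2 by norm_num]
        exact Real.sqrt_sq (by norm_num)
      rw [h4] at h3
      exact h3
    have h3 : 4 * T ^ ((n : ℝ) / 2) ≤ 16 ^ ((n : ℝ) / 2) * T ^ ((n : ℝ) / 2) :=
      mul_le_mul_of_nonneg_right h2 (by positivity)
    linarith
  have hdet0 : A.det ≠ 0 := by rw [hdet]; exact hp0.ne'
  have habs : |A.det| ^ ((2 : ℝ) / n) = P := by rw [hdet, abs_of_pos hp0]
  set r0 : ℝ := c0 * Real.exp (-ε) * n * P with hr0
  have hr00 : 0 < r0 := by positivity
  have hmain : ∀ r : ℝ, r0 ≤ r → r ≤ M → (nShort A r : ℝ) <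
      (r / (c0 * n * P)) ^ ((n : ℝ) / 2) * Real.exp (2 * δ * n) := by
    intro r hr1 hr2
    have hr : 0 < r := lt_of_lt_of_le hr00 hr1
    have h1 := hcount r hr2 (n / (2 * r)) (by positivity)
    have hcond : (n : ℝ) ≤ 2 * Real.pi * r * δ ^ 2 := by
      have h2 : 2 * Real.pi * r0 * δ ^ 2 ≤ 2 * Real.pi * r * δ ^ 2 := by
        have := Real.pi_pos
        gcongr
      refine le_trans ?_ h2
      have h3 : 2 * Real.pi * r0 * δ ^ 2 = Real.exp (-1) * Real.exp (-ε) * n * (P * δ ^ 2) := by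
        rw [hr0, ← two_pi_c0]; ring
      have h4 : Real.exp 2 ≤ P * δ ^ 2 := by
        have h5 : T * δ ^ 2 = Real.exp 2 := by rw [hT]; field_simp
        rw [← h5]
        exact mul_le_mul_of_nonneg_right hTP (by positivity)
      rw [h3]
      calc (n : ℝ) = Real.exp (-1) * Real.exp (-1) * n * Real.exp 2 := by
            rw [← Real.exp_add]
            have h6 : Real.exp (-1 + -1) * n * Real.exp 2 =
              (Real.exp (-1 + -1) * Real.exp 2) * n := by ring
            rw [h6, ← Real.exp_add]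
            norm_num
        _ ≤ Real.exp (-1) * Real.exp (-ε) * n * (P * δ ^ 2) := by gcongr
    have h2 := factor_le hn hP0 hr hδ0 hcond
    rw [hPn] at h2
    set E : ℝ := Real.exp (n / (2 * r) * r) *
      (1 + Real.sqrt (Real.pi / (n / (2 * r)))) ^ n with hE
    have hE0 : 0 < E := by positivity
    calc (nShort A r : ℝ) ≤ M / p * E := h1
      _ = M * (E / p) := by ring
      _ < Real.exp (δ * n) * (E / p) := mul_lt_mul_of_pos_right hM2 (by positivity)
      _ ≤ Real.exp (δ * n) *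
          ((r / (c0 * n * P)) ^ ((n : ℝ) / 2) * Real.exp (δ * n)) :=
          mul_le_mul_of_nonneg_left h2 (Real.exp_pos _).le
      _ = (r / (c0 * n * P)) ^ ((n : ℝ) / 2) * Real.exp (2 * δ * n) := by
          have : 2 * δ * n = δ * n + δ * n := by ring
          rw [this, Real.exp_add]
          ring
  have hr0M : r0 ≤ M := by
    refine le_trans ?_ hM1
    have h1 : c0 * Real.exp (-ε) ≤ 1 := by
      have h2 : Real.exp (-ε) ≤ 1 := Real.exp_le_one_iff.2 (by linarith)
      have h3 := Real.exp_pos (-ε)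
      nlinarith
    calc r0 = (c0 * Real.exp (-ε)) * (n * P) := by rw [hr0]; ring
      _ ≤ 1 * (n * P) := mul_le_mul_of_nonneg_right h1 (by positivity)
      _ ≤ 1 * (n * (16 * T)) := by gcongr
      _ ≤ 64 * T * n := by nlinarith [mul_pos hT0 hn0]
  have hzero : nShort A r0 = 0 := by
    have h1 := hmain r0 le_rfl hr0M
    have h2 : r0 / (c0 * n * P) = Real.exp (-ε) := by
      rw [hr0]; field_simp
    rw [h2, ← Real.exp_mul, ← Real.exp_add] at h1
    have h3 : -ε * ((n : ℝ) / 2) + 2 * δ * n = 0 := by rw [hδ]; ring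
    rw [h3, Real.exp_zero] at h1
    have h4 : nShort A r0 < 1 := by exact_mod_cast h1
    omega
  have hmin : r0 ≤ minSq A := eq_zero_of_nShort hn A hdet0 hzero
  have hinv : inv A = minSq A / P := by unfold inv; rw [habs]
  refine ⟨A, hdet0, ?_, fun s hs1 hs4 => ?_⟩
  · rw [hinv, le_div_iff₀ hP0]
    exact hmin
  · have hmin0 : 0 < minSq A := lt_of_lt_of_le hr00 hmin
    have h1 : r0 ≤ s * minSq A := by nlinarith
    have h2 : s * minSq A ≤ M := by
      refine le_trans ?_ hM1
      have h3 := inv_le_gamma hn A hdet0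
      have h4 := gamma_le hn
      rw [hinv, div_le_iff₀ hP0] at h3
      have h5 : gamma n * P ≤ n * (16 * T) :=
        mul_le_mul h4 hPT hP0.le hn0.le
      nlinarith
    have h3 := (hmain _ h1 h2).le
    have h4 : s * minSq A / (c0 * n * P) = s * inv A / (c0 * n) := by
      rw [hinv]; field_simp
    have h5 : 2 * δ = ε / 2 := by rw [hδ]; ring
    rw [h4, h5] at h3
    exact h3

/-- The Minkowski-Hlawka bound. -/
theorem mh_le_c (ε : ℝ) (hε : 0 < ε) : ∀ᶠ n : ℕ in atTop, c0 * Real.exp (-ε) ≤ c n := by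
  filter_upwards [exists_mh_asym (min ε 1) (lt_min hε one_pos) (min_le_right _ _),
    eventually_gt_atTop 0] with n hA hn
  obtain ⟨A, hA0, hA1, -⟩ := hA
  have hn0 : (0 : ℝ) < n := by exact_mod_cast hn
  have h1 := inv_le_gamma hn A hA0
  unfold c
  rw [le_div_iff₀ hn0]
  refine le_trans ?_ (hA1.trans h1)
  have hc0 := c0_pos
  have h2 : Real.exp (-ε) ≤ Real.exp (-(min ε 1)) :=
    Real.exp_le_exp.2 (by linarith [min_le_left ε 1])
  gcongr

/-- R8, given R7. -/
theorem leanIff (hup : LeanUpper) : LeanIff := by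
  have hc0 := c0_pos
  constructor
  · intro hlim ε hε
    set ε' : ℝ := min ε 1 / 2 with hε'
    have hm : 0 < min ε 1 := lt_min hε one_pos
    have hε'0 : 0 < ε' := by positivity
    have hε'1 : ε' ≤ 1 := by rw [hε']; linarith [min_le_right ε 1]
    have hε'2 : 2 * ε' ≤ ε := by rw [hε']; linarith [min_le_left ε 1]
    have hlt : c0 < c0 * Real.exp ε' := by
      have := Real.add_one_lt_exp hε'0.ne'
      nlinarith
    filter_upwards [exists_mh_asym ε' hε'0 hε'1, hlim.eventually_lt_const hlt,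
      eventually_gt_atTop 0] with n hA hc hn
    obtain ⟨A, hA0, hA1, hA2⟩ := hA
    have hn0 : (0 : ℝ) < n := by exact_mod_cast hn
    have hg : gamma n ≤ c0 * Real.exp ε' * n := by
      have : gamma n / n < c0 * Real.exp ε' := hc
      rw [div_lt_iff₀ hn0] at this
      exact this.le
    have hg0 := gamma_nonneg n
    refine ⟨A, hA0, ?_, fun s hs1 hs4 => ?_⟩
    · have h1 : 1 - ε ≤ Real.exp (-(2 * ε')) := by
        have := Real.add_one_le_exp (-(2 * ε'))
        linarith
      calc (1 - ε) * gamma n ≤ Real.exp (-(2 * ε')) * gamma n :=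
            mul_le_mul_of_nonneg_right h1 hg0
        _ ≤ Real.exp (-(2 * ε')) * (c0 * Real.exp ε' * n) :=
            mul_le_mul_of_nonneg_left hg (Real.exp_pos _).le
        _ = c0 * Real.exp (-ε') * n := by
            have : Real.exp (-ε') = Real.exp (-(2 * ε')) * Real.exp ε' := by
              rw [← Real.exp_add]; congr 1; ring
            rw [this]; ring
        _ ≤ inv A := hA1
    · have hs0 : 0 < s := by linarith
      refine (hA2 s hs1 hs4.le).trans ?_
      have hinv := (inv_le_gamma hn A hA0).trans hg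
      have hinv0 := inv_nonneg A
      have h1 : s * inv A / (c0 * n) ≤ s * Real.exp ε' := by
        rw [div_le_iff₀ (by positivity)]
        calc s * inv A ≤ s * (c0 * Real.exp ε' * n) := mul_le_mul_of_nonneg_left hinv hs0.le
          _ = s * Real.exp ε' * (c0 * n) := by ring
      calc (s * inv A / (c0 * n)) ^ ((n : ℝ) / 2) * Real.exp (ε' / 2 * n)
          ≤ (s * Real.exp ε') ^ ((n : ℝ) / 2) * Real.exp (ε' / 2 * n) := by
            refine mul_le_mul_of_nonneg_right ?_ (Real.exp_pos _).le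
            exact Real.rpow_le_rpow (by positivity) h1 (by positivity)
        _ = s ^ ((n : ℝ) / 2) * Real.exp (ε' * n) := by
            rw [Real.mul_rpow hs0.le (Real.exp_pos _).le, ← Real.exp_mul, mul_assoc,
              ← Real.exp_add]
            congr 2
            ring
        _ ≤ s ^ ((n : ℝ) / 2) * Real.exp (ε * n) := by
            refine mul_le_mul_of_nonneg_left ?_ (by positivity)
            refine Real.exp_le_exp.2 ?_
            have : ε' ≤ ε := by linarith
            exact mul_le_mul_of_nonneg_right this hn0.le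
  · intro h
    rw [tendsto_order]
    constructor
    · intro a ha
      obtain ⟨ε, hε, hlt⟩ : ∃ ε : ℝ, 0 < ε ∧ a < c0 * Real.exp (-ε) := by
        have hcont : Continuous (fun ε : ℝ => c0 * Real.exp (-ε)) := by fun_prop
        have h1 : ∀ᶠ ε in 𝓝 (0 : ℝ), a < c0 * Real.exp (-ε) := by
          have := hcont.tendsto 0
          rw [neg_zero, Real.exp_zero, mul_one] at this
          exact this.eventually_const_lt ha
        have h2 : ∀ᶠ ε in 𝓝[>] (0 : ℝ), a < c0 * Real.exp (-ε) :=
          h1.filter_mono nhdsWithin_le_nhds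
        obtain ⟨ε, hε1, hε2⟩ := (h2.and self_mem_nhdsWithin).exists
        exact ⟨ε, hε2, hε1⟩
      filter_upwards [mh_le_c ε hε] with n hn
      linarith
    · intro b hb
      set ε : ℝ := (b - c0) / 3 with hε
      have hε0 : 0 < ε := by rw [hε]; linarith
      obtain ⟨δ, hδ, hev⟩ := hup ε hε0
      set ε' : ℝ := min δ (ε / (c0 + 2 * ε)) with hε'
      have hε'0 : 0 < ε' := lt_min hδ (by positivity)
      have hε'1 : ε' * (c0 + 2 * ε) ≤ ε := by
        have h1 : ε' ≤ ε / (c0 + 2 * ε) := min_le_right _ _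
        rwa [le_div_iff₀ (by positivity)] at h1
      have hε'2 : ε' < 1 := by
        by_contra hge
        push Not at hge
        nlinarith
      filter_upwards [hev, h ε' hε'0, eventually_gt_atTop 0] with n hup' hA hn
      obtain ⟨A, hA0, hA1, hA2⟩ := hA
      have hn0 : (0 : ℝ) < n := by exact_mod_cast hn
      have h1 : inv A ≤ (c0 + ε) * n := by
        refine hup' A hA0 fun s hs1 hs4 => (hA2 s hs1 hs4).trans ?_
        have h4s : 0 < 4 - s := by linarith
        have h2 : s ≤ 4 / (4 - s) := by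
          rw [le_div_iff₀ h4s]
          nlinarith [sq_nonneg (s - 2)]
        have h3 : Real.exp (ε' * n) ≤ Real.exp (δ * n) :=
          Real.exp_le_exp.2 (mul_le_mul_of_nonneg_right (min_le_left _ _) hn0.le)
        have h4 : s ^ ((n : ℝ) / 2) ≤ (4 / (4 - s)) ^ ((n : ℝ) / 2) :=
          Real.rpow_le_rpow (by linarith) h2 (by positivity)
        exact mul_le_mul h4 h3 (Real.exp_pos _).le (by positivity)
      have h2 : c n * (1 - ε') ≤ c0 + ε := by
        have h3 : c n * n = gamma n := by unfold c; field_simp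
        have h4 : c n * (1 - ε') * n ≤ (c0 + ε) * n := by
          calc c n * (1 - ε') * n = (1 - ε') * (c n * n) := by ring
            _ = (1 - ε') * gamma n := by rw [h3]
            _ ≤ (c0 + ε) * n := hA1.trans h1
        exact le_of_mul_le_mul_right h4 hn0
      have h3 : c n * (1 - ε') ≤ (c0 + 2 * ε) * (1 - ε') := by nlinarith
      have h4 : c n ≤ c0 + 2 * ε := le_of_mul_le_mul_right h3 (by linarith)
      have h5 : c0 + 2 * ε < b := by rw [hε]; linarith
      linarith

end Pool.Agent.Lib.MP_ef2672_gt_Over
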