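import Pool.Agent.Lib.MP_ef2672_gt_Over.Defs

/-!
MP_ef2672, TT6: Minkowski-Hlawka lattices with prescribed counts of short vectors at all radii
simultaneously, as random sublattices of prime index of `ℤⁿ`.
-/

set_option autoImplicit false

namespace Pool.Agent.Lib.MP_ef2672_gt_Over

open Pool.Agent.Lib.MP_ef2672_gt_Tauber Pool.Agent.Lib.EF_h73 MeasureTheory Filter Topology

/-- Markov's inequality for a finite family of sets of integer vectors: some hyperplane modulo `p`
meets all of them in few vectors. -/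
lemma exists_residue_family {n p : ℕ} (hn : 0 < n) [hp : Fact p.Prime] {ι : Type*}
    (s : Finset ι) (F : ι → Finset (Fin n → ℤ))
    (hmod : ∀ i ∈ s, ∀ w ∈ F i, (fun j => ((w j : ℤ) : ZMod p)) ≠ 0) :
    ∃ a : Fin n → ZMod p, a ≠ 0 ∧ ∀ i ∈ s,
      p * ((F i).filter fun w => ∑ j, a j * ((w j : ℤ) : ZMod p) = 0).card ≤
        s.card * (F i).card := by
  classical
  by_contra hcon
  push Not at hcon
  have hp1 : 2 ≤ p := hp.1.two_le
  have hp0 : (0 : ℝ) < p := by exact_mod_cast hp.1.pos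
  set U : Finset (Fin n → ZMod p) := Finset.univ.erase 0 with hUdef
  have hpn : 1 < p ^ n := Nat.one_lt_pow hn.ne' (by omega)
  have hU : (U.card : ℝ) = (p : ℝ) ^ n - 1 := by
    rw [hUdef, Finset.card_erase_of_mem (Finset.mem_univ _), Finset.card_univ, Fintype.card_fun,
      ZMod.card, Fintype.card_fin, Nat.cast_sub (by omega)]
    push_cast; ring
  set K : ι → (Fin n → ZMod p) → ℕ := fun i a =>
    ((F i).filter fun w => ∑ j, a j * ((w j : ℤ) : ZMod p) = 0).card with hK
  set S : (Fin n → ZMod p) → ℝ := fun a => ∑ i ∈ s, (K i a : ℝ) / (F i).card with hS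
  have hUne : U.Nonempty := by
    rw [← Finset.card_pos]
    have : (0 : ℝ) < U.card := by
      rw [hU]
      have : (1 : ℝ) < (p : ℝ) ^ n := by exact_mod_cast hpn
      linarith
    exact_mod_cast this
  -- lower bound
  have h1 : ∀ a ∈ U, (s.card : ℝ) / p < S a := by
    intro a ha
    obtain ⟨i, hi, hlt⟩ := hcon a (Finset.ne_of_mem_erase ha)
    have hF : 0 < (F i).card := by
      by_contra h0
      have h0' : (F i).card = 0 := by omega
      have h2 : ((F i).filter fun w => ∑ j, a j * ((w j : ℤ) : ZMod p) = 0).card ≤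
        (F i).card := Finset.card_filter_le _ _
      rw [h0'] at hlt h2
      have h3 : ((F i).filter fun w => ∑ j, a j * ((w j : ℤ) : ZMod p) = 0).card = 0 := by omega
      rw [h3] at hlt
      omega
    have hF' : (0 : ℝ) < (F i).card := by exact_mod_cast hF
    have hlt' : (s.card : ℝ) * (F i).card < p * K i a := by exact_mod_cast hlt
    have h2 : (s.card : ℝ) / p < (K i a : ℝ) / (F i).card := by
      rw [div_lt_div_iff₀ hp0 hF']
      linarith
    refine lt_of_lt_of_le h2 ?_
    exact Finset.single_le_sum (f := fun i => (K i a : ℝ) / (F i).card)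
      (fun j _ => by positivity) hi
  have h2 : (U.card : ℝ) * ((s.card : ℝ) / p) < ∑ a ∈ U, S a := by
    rw [← nsmul_eq_mul, ← Finset.sum_const]
    exact Finset.sum_lt_sum_of_nonempty hUne h1
  -- upper bound
  have h3 : ∀ i ∈ s, ∑ a ∈ U, (K i a : ℝ) = (F i).card * ((p : ℝ) ^ n / p - 1) := by
    intro i hi
    have h4 : ∑ a ∈ U, K i a
        = ∑ w ∈ F i, (U.filter fun a => ∑ j, a j * ((w j : ℤ) : ZMod p) = 0).card := by
      simp only [hK, Finset.card_filter]
      exact Finset.sum_comm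
    have h5 : ∀ w ∈ F i, ((U.filter fun a => ∑ j, a j * ((w j : ℤ) : ZMod p) = 0).card : ℝ) =
        (p : ℝ) ^ n / p - 1 := by
      intro w hw
      have h6 := card_ker (p := p) (fun j => ((w j : ℤ) : ZMod p)) (hmod i hi w hw)
      have h7 : (U.filter fun a => ∑ j, a j * ((w j : ℤ) : ZMod p) = 0) =
          (Finset.univ.filter fun a : Fin n → ZMod p =>
            ∑ j, a j * ((w j : ℤ) : ZMod p) = 0).erase 0 := by
        ext a
        simp only [U, Finset.mem_filter, Finset.mem_erase, Finset.mem_univ, and_true, true_and]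
      have h8 : (0 : Fin n → ZMod p) ∈ (Finset.univ.filter fun a : Fin n → ZMod p =>
            ∑ j, a j * ((w j : ℤ) : ZMod p) = 0) := by
        rw [Finset.mem_filter]; simp
      have h9 := Finset.card_erase_add_one h8
      rw [← h7] at h9
      rw [← h9] at h6
      have h10 : (p : ℝ) * (((U.filter fun a => ∑ j, a j * ((w j : ℤ) : ZMod p) = 0).card : ℝ) + 1)
          = (p : ℝ) ^ n := by exact_mod_cast h6
      rw [← h10]
      field_simp
      ring
    have h6 : (∑ a ∈ U, (K i a : ℝ)) =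
        ∑ w ∈ F i, ((U.filter fun a => ∑ j, a j * ((w j : ℤ) : ZMod p) = 0).card : ℝ) := by
      exact_mod_cast congrArg (fun z : ℕ => (z : ℝ)) h4
    rw [h6, Finset.sum_congr rfl h5, Finset.sum_const, nsmul_eq_mul]
  have hpp : 0 ≤ (p : ℝ) ^ n / p - 1 := by
    rw [sub_nonneg, one_le_div hp0]
    exact_mod_cast Nat.le_self_pow hn.ne' p
  have h4 : ∑ a ∈ U, S a ≤ s.card * ((p : ℝ) ^ n / p - 1) := by
    rw [hS]
    rw [Finset.sum_comm, ← nsmul_eq_mul, ← Finset.sum_const]
    refine Finset.sum_le_sum fun i hi => ?_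
    rw [← Finset.sum_div, h3 i hi]
    rcases Nat.eq_zero_or_pos (F i).card with h0 | h0
    · rw [h0]; simpa using hpp
    · have hF' : (0 : ℝ) < (F i).card := by exact_mod_cast h0
      rw [mul_div_assoc, mul_div_left_comm, div_self hF'.ne', mul_one]
  rw [hU] at h2
  have h5 : ((p : ℝ) ^ n - 1) * ((s.card : ℝ) / p) < s.card * ((p : ℝ) ^ n / p - 1) :=
    lt_of_lt_of_le h2 h4
  have h6 : (s.card : ℝ) * ((p : ℝ) ^ n / p - 1) =
      ((p : ℝ) ^ n - p) * ((s.card : ℝ) / p) := by
    field_simp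
  rw [h6] at h5
  have h7 : (0 : ℝ) ≤ (s.card : ℝ) / p := by positivity
  have h8 : (1 : ℝ) ≤ p := by exact_mod_cast hp.1.one_lt.le
  nlinarith

/-- The nonzero integer vectors with squared length at most `m`. -/
noncomputable def bInt (n m : ℕ) : Finset (Fin n → ℤ) :=
  open Classical in
  (Fintype.piFinset fun _ => Finset.Icc (-(m : ℤ)) m).filter
    fun x => x ≠ 0 ∧ ∑ i, x i ^ 2 ≤ m

lemma mem_bInt {n m : ℕ} {x : Fin n → ℤ} : x ∈ bInt n m ↔ x ≠ 0 ∧ ∑ i, x i ^ 2 ≤ m := by
  classical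
  unfold bInt
  rw [Finset.mem_filter, Fintype.mem_piFinset]
  constructor
  · exact fun h => h.2
  rintro ⟨hx, h⟩
  refine ⟨fun i => ?_, hx, h⟩
  have h1 : x i ^ 2 ≤ m :=
    (Finset.single_le_sum (fun j _ => sq_nonneg (x j)) (Finset.mem_univ i)).trans h
  rw [Finset.mem_Icc]
  constructor <;> nlinarith [sq_nonneg (x i), sq_nonneg (x i - 1), sq_nonneg (x i + 1)]

lemma card_bInt_le (n m : ℕ) (t : ℝ) (ht : 0 < t) :
    ((bInt n m).card : ℝ) ≤ Real.exp (t * m) * (1 + Real.sqrt (Real.pi / t)) ^ n := by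
  classical
  have h1 := gauss_box_le n t ht m
  have h2 : ((bInt n m).card : ℝ) * Real.exp (-t * m) ≤
      ∑ u ∈ Fintype.piFinset (fun _ : Fin n => Finset.Icc (-(m : ℤ)) m),
        Real.exp (-t * ∑ i, (u i : ℝ) ^ 2) := by
    rw [← nsmul_eq_mul, ← Finset.sum_const]
    refine (Finset.sum_le_sum (g := fun u : Fin n → ℤ =>
      Real.exp (-t * ∑ i, (u i : ℝ) ^ 2)) ?_).trans ?_
    · intro x hx
      refine Real.exp_le_exp.2 ?_
      have h3 : ∑ i, (x i : ℝ) ^ 2 ≤ m := by exact_mod_cast (mem_bInt.1 hx).2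
      nlinarith
    · refine Finset.sum_le_sum_of_subset_of_nonneg (Finset.filter_subset _ _) ?_
      intro x _ _
      positivity
  have h3 := h2.trans h1
  have h4 : Real.exp (-t * m) = (Real.exp (t * m))⁻¹ := by rw [← Real.exp_neg]; congr 1; ring
  rw [h4, ← div_eq_mul_inv, div_le_iff₀ (Real.exp_pos _)] at h3
  linarith

lemma eq_zero_of_nShort {n : ℕ} (hn : 0 < n) (A : Matrix (Fin n) (Fin n) ℝ) (hA : A.det ≠ 0)
    {r : ℝ} (h : nShort A r = 0) : r ≤ minSq A := by
  refine le_minSq hn A fun w hw => ?_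
  by_contra hlt
  push Not at hlt
  unfold nShort at h
  have hfin : {w : Fin n → ℤ | w ≠ 0 ∧
    ∑ i, (Matrix.mulVec A (fun j => (w j : ℝ))) i ^ 2 < r}.Finite := finite_short A hA r
  rw [Set.ncard_eq_zero hfin] at h
  have : w ∈ ({w : Fin n → ℤ | w ≠ 0 ∧
    ∑ i, (Matrix.mulVec A (fun j => (w j : ℝ))) i ^ 2 < r}) := ⟨hw, hlt⟩
  rw [h] at this
  exact this

/-- **Sublattices of prime index `p` of `ℤⁿ` with few short vectors at all radii.** -/
theorem exists_mh {n p M : ℕ} (hn : 0 < n) (hp : p.Prime) (hM : M < p ^ 2) :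
    ∃ A : Matrix (Fin n) (Fin n) ℝ, A.det = p ∧ ∀ r : ℝ, r ≤ M → ∀ t : ℝ, 0 < t →
      (nShort A r : ℝ) ≤ M / p * (Real.exp (t * r) * (1 + Real.sqrt (Real.pi / t)) ^ n) := by
  classical
  have hfact : Fact p.Prime := ⟨hp⟩
  have hp0 : (0 : ℤ) < p := by exact_mod_cast hp.pos
  have hp0' : (0 : ℝ) < p := by exact_mod_cast hp.pos
  have hmod : ∀ m ∈ Finset.Icc 1 M, ∀ w ∈ bInt n m, (fun j => ((w j : ℤ) : ZMod p)) ≠ 0 := by
    intro m hm w hw hzero
    have hdvd : ∀ j, (p : ℤ) ∣ w j := fun j =>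
      (ZMod.intCast_zmod_eq_zero_iff_dvd _ _).1 (congrFun hzero j)
    choose v hv using hdvd
    have hw' := mem_bInt.1 hw
    have hv0 : v ≠ 0 := by
      rintro rfl
      apply hw'.1
      ext j
      rw [hv j]
      simp
    obtain ⟨l, hl⟩ : ∃ l, v l ≠ 0 := by
      by_contra hcon
      push Not at hcon
      exact hv0 (funext hcon)
    have h1 : w l ^ 2 ≤ ∑ i, w i ^ 2 :=
      Finset.single_le_sum (f := fun i => w i ^ 2) (fun j _ => sq_nonneg _) (Finset.mem_univ l)
    have h2 : (1 : ℤ) ≤ (v l) ^ 2 := by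
      have := sq_nonneg (v l)
      have h5 : (v l) ^ 2 ≠ 0 := pow_ne_zero 2 hl
      omega
    have h3 : (p : ℤ) ^ 2 ≤ w l ^ 2 := by
      rw [hv l, mul_pow]
      nlinarith [sq_nonneg (p : ℤ)]
    have h4 : (m : ℤ) ≤ M := by exact_mod_cast (Finset.mem_Icc.1 hm).2
    have h5 : (M : ℤ) < (p : ℤ) ^ 2 := by exact_mod_cast hM
    have h6 := hw'.2
    omega
  obtain ⟨a, ha0, ha⟩ := exists_residue_family hn (Finset.Icc 1 M) (bInt n) hmod
  obtain ⟨k, hk⟩ : ∃ k, a k ≠ 0 := by
    by_contra hcon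
    push Not at hcon
    exact ha0 (funext hcon)
  let b : Fin n → ℤ := fun j => ((a k)⁻¹ * a j).val
  have hbk : b k = 1 := by
    simp only [b]
    rw [inv_mul_cancel₀ hk]
    have : Fact (1 < p) := ⟨hp.one_lt⟩
    rw [ZMod.val_one]
    rfl
  have hb : ∀ j, ((b j : ℤ) : ZMod p) = (a k)⁻¹ * a j := by
    intro j
    simp only [b]
    push_cast
    rw [ZMod.natCast_val, ZMod.cast_id', id]
  refine ⟨subMat p k b, subMat_det p k b, fun r hr t ht => ?_⟩
  have hdet : (subMat p k b).det ≠ 0 := by rw [subMat_det]; exact hp0'.ne'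
  choose f hf1 hf2 hf3 using subMat_mulVec p k b hbk
  have hnorm : ∀ w, normSq (subMat p k b) w = ∑ i, (f w i : ℝ) ^ 2 := by
    intro w
    unfold normSq
    rw [hf1 w]
  have hinj : Function.Injective f := by
    intro w w' h
    have h1 : ∀ i, w i = w' i := by
      intro i
      by_cases hi : i = k
      · rw [hi]
        have h2 := hf2 w
        have h3 := hf2 w'
        rw [h] at h2
        rw [h2] at h3
        exact mul_left_cancel₀ hp0.ne' h3
      · rw [← hf3 w i hi, ← hf3 w' i hi, h]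
    exact funext h1
  have hf0 : ∀ w, w ≠ 0 → f w ≠ 0 := by
    intro w hw h0
    apply hw
    ext i
    by_cases hi : i = k
    · have h2 := hf2 w
      rw [h0] at h2
      simp only [Pi.zero_apply, mul_zero, Finset.sum_const_zero] at h2
      rw [hi]
      exact (mul_eq_zero.1 h2.symm).resolve_left hp0.ne'
    · rw [← hf3 w i hi, h0]
  have horth : ∀ w, ∑ j, a j * ((f w j : ℤ) : ZMod p) = 0 := by
    intro w
    have h5 := congrArg (fun z : ℤ => (z : ZMod p)) (hf2 w)
    push_cast at h5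
    rw [ZMod.natCast_self, zero_mul] at h5
    have h6 : ∑ j, ((b j : ℤ) : ZMod p) * ((f w j : ℤ) : ZMod p) =
        (a k)⁻¹ * ∑ j, a j * ((f w j : ℤ) : ZMod p) := by
      rw [Finset.mul_sum]
      refine Finset.sum_congr rfl fun j _ => ?_
      rw [hb, mul_assoc]
    rw [h5] at h6
    exact (mul_eq_zero.1 h6.symm).resolve_left (inv_ne_zero hk)
  by_cases hr1 : r < 1
  · have h0 : nShort (subMat p k b) r = 0 := by
      unfold nShort
      have hfin : {w : Fin n → ℤ | w ≠ 0 ∧
        ∑ i, (Matrix.mulVec (subMat p k b) (fun j => (w j : ℝ))) i ^ 2 < r}.Finite :=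
        finite_short _ hdet r
      rw [Set.ncard_eq_zero hfin, Set.eq_empty_iff_forall_notMem]
      rintro w ⟨hw, hlt⟩
      have h1 : normSq (subMat p k b) w < r := hlt
      rw [hnorm] at h1
      have h2 : ∑ i, (f w i) ^ 2 < 1 := by
        have : (∑ i, (f w i : ℝ) ^ 2) < 1 := h1.trans hr1
        exact_mod_cast this
      apply hf0 w hw
      ext i
      have h3 : f w i ^ 2 ≤ ∑ i, (f w i) ^ 2 :=
        Finset.single_le_sum (f := fun i => f w i ^ 2) (fun j _ => sq_nonneg _)
          (Finset.mem_univ i)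
      have h4 : f w i ^ 2 = 0 := by
        have := sq_nonneg (f w i)
        omega
      simpa using h4
    rw [h0]
    push_cast
    positivity
  · push Not at hr1
    set m : ℕ := ⌊r⌋₊ with hm
    have hm1 : 1 ≤ m := Nat.le_floor (by exact_mod_cast hr1)
    have hmM : m ≤ M := by
      have := Nat.floor_le_floor hr
      rwa [Nat.floor_natCast] at this
    have hmr : (m : ℝ) ≤ r := Nat.floor_le (by linarith)
    have h1 : nShort (subMat p k b) r ≤
        ((bInt n m).filter fun w => ∑ j, a j * ((w j : ℤ) : ZMod p) = 0).card := by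
      unfold nShort
      rw [← Set.ncard_coe_finset]
      refine Set.ncard_le_ncard_of_injOn f ?_ hinj.injOn (Finset.finite_toSet _)
      rintro w ⟨hw, hlt⟩
      rw [Finset.mem_coe, Finset.mem_filter, mem_bInt]
      refine ⟨⟨hf0 w hw, ?_⟩, horth w⟩
      have h1 : normSq (subMat p k b) w < r := hlt
      rw [hnorm] at h1
      have h2 : (∑ i, (f w i) ^ 2 : ℤ) < (m : ℤ) + 1 := by
        have h3 : r < (m : ℝ) + 1 := Nat.lt_floor_add_one r
        have : (∑ i, (f w i : ℝ) ^ 2) < (m : ℝ) + 1 := h1.trans h3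
        exact_mod_cast this
      omega
    have h2 := ha m (Finset.mem_Icc.2 ⟨hm1, hmM⟩)
    rw [Nat.card_Icc, Nat.add_sub_cancel] at h2
    have h3 : (p : ℝ) * nShort (subMat p k b) r ≤ M * (bInt n m).card := by
      have h4 : p * nShort (subMat p k b) r ≤ M * (bInt n m).card :=
        (Nat.mul_le_mul_left p h1).trans h2
      exact_mod_cast h4
    have h4 := card_bInt_le n m t ht
    have h5 : Real.exp (t * m) ≤ Real.exp (t * r) := Real.exp_le_exp.2 (by nlinarith)
    have h6 : ((bInt n m).card : ℝ) ≤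
        Real.exp (t * r) * (1 + Real.sqrt (Real.pi / t)) ^ n :=
      h4.trans (mul_le_mul_of_nonneg_right h5 (by positivity))
    rw [div_mul_eq_mul_div, le_div_iff₀ hp0', mul_comm]
    exact h3.trans (mul_le_mul_of_nonneg_left h6 (by positivity))

end Pool.Agent.Lib.MP_ef2672_gt_Over
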