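import Pool.Agent.Lib.MP_ef2672_gt_Over.Periodic

/-!
Maximal lattices with a given minimum: every point of `(1/p) L`, up to a multiple prime to `p`, is
near the lattice, and the covering radius is at most `1.5` times the minimum (Rogers).
-/

set_option autoImplicit false

namespace Pool.Agent.Lib.MP_ef2672_gt_Over

open Pool.Agent.Lib.MP_ef2672_gt_Tauber Pool.Agent.Lib.EF_h73 MeasureTheory Filter Topology

/-- The length `|A x|`. -/
noncomputable def nq {n : ℕ} (A : Matrix (Fin n) (Fin n) ℝ) (x : Fin n → ℝ) : ℝ :=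
  Real.sqrt (qf A x)

lemma nq_eq {n : ℕ} (A : Matrix (Fin n) (Fin n) ℝ) (x : Fin n → ℝ) :
    nq A x = ‖(WithLp.toLp 2 (A.mulVec x) : EuclideanSpace ℝ (Fin n))‖ := by
  rw [EuclideanSpace.norm_eq]
  unfold nq qf
  simp [sq_abs]

lemma nq_nonneg {n : ℕ} (A : Matrix (Fin n) (Fin n) ℝ) (x : Fin n → ℝ) : 0 ≤ nq A x :=
  Real.sqrt_nonneg _

lemma nq_sq {n : ℕ} (A : Matrix (Fin n) (Fin n) ℝ) (x : Fin n → ℝ) : nq A x ^ 2 = qf A x :=
  Real.sq_sqrt (qf_nonneg A x)

lemma nq_add_le {n : ℕ} (A : Matrix (Fin n) (Fin n) ℝ) (x y : Fin n → ℝ) :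
    nq A (x + y) ≤ nq A x + nq A y := by
  rw [nq_eq, nq_eq, nq_eq, Matrix.mulVec_add]
  exact norm_add_le (WithLp.toLp 2 (A.mulVec x) : EuclideanSpace ℝ (Fin n))
    (WithLp.toLp 2 (A.mulVec y))

lemma nq_smul {n : ℕ} (A : Matrix (Fin n) (Fin n) ℝ) (c : ℝ) (x : Fin n → ℝ) :
    nq A (c • x) = |c| * nq A x := by
  rw [nq_eq, nq_eq, Matrix.mulVec_smul]
  rw [WithLp.toLp_smul, norm_smul, Real.norm_eq_abs]

lemma nq_neg {n : ℕ} (A : Matrix (Fin n) (Fin n) ℝ) (x : Fin n → ℝ) : nq A (-x) = nq A x := by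
  have := nq_smul A (-1) x
  simpa using this

lemma nq_sum_le {n : ℕ} (A : Matrix (Fin n) (Fin n) ℝ) {ι : Type*} (s : Finset ι)
    (f : ι → Fin n → ℝ) : nq A (∑ i ∈ s, f i) ≤ ∑ i ∈ s, nq A (f i) := by
  classical
  induction s using Finset.induction_on with
  | empty => simp [nq, qf, Matrix.mulVec_zero]
  | insert a s ha ih =>
    rw [Finset.sum_insert ha, Finset.sum_insert ha]
    exact (nq_add_le A _ _).trans (by linarith)

lemma nq_lt {n : ℕ} (A : Matrix (Fin n) (Fin n) ℝ) (x : Fin n → ℝ) (r : ℝ) :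
    qf A x < r ↔ nq A x < Real.sqrt r := by
  unfold nq
  rw [Real.sqrt_lt_sqrt_iff (qf_nonneg A x)]

/-- The determinant of a lattice with large minimum. -/
lemma det_ge {n : ℕ} (hn : 0 < n) (B : Matrix (Fin n) (Fin n) ℝ) (hB : B.det ≠ 0) {r : ℝ}
    (hr : 0 < r) (hmin : r ≤ minSq B) : (r / gamma n) ^ ((n : ℝ) / 2) ≤ |B.det| := by
  have hn0 : (0 : ℝ) < n := by exact_mod_cast hn
  have hB0 : 0 < |B.det| := abs_pos.2 hB
  have h1 := inv_le_gamma hn B hB
  unfold inv at h1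
  have hL : 0 < minSq B := hr.trans_le hmin
  have hg : 0 < gamma n := lt_of_lt_of_le (by positivity) h1
  rw [div_le_iff₀ (Real.rpow_pos_of_pos hB0 _)] at h1
  have h2 : r / gamma n ≤ |B.det| ^ ((2 : ℝ) / n) := by
    rw [div_le_iff₀ hg]
    linarith
  calc (r / gamma n) ^ ((n : ℝ) / 2) ≤ (|B.det| ^ ((2 : ℝ) / n)) ^ ((n : ℝ) / 2) :=
        Real.rpow_le_rpow (by positivity) h2 (by positivity)
    _ = |B.det| := by
        rw [← Real.rpow_mul hB0.le]
        have : (2 : ℝ) / n * ((n : ℝ) / 2) = 1 := by field_simp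
        rw [this, Real.rpow_one]

/-- A maximal superlattice without short vectors. -/
lemma exists_max {n : ℕ} (hn : 0 < n) (A : Matrix (Fin n) (Fin n) ℝ) (hA : A.det ≠ 0) {r : ℝ}
    (hr : 0 < r) (hmin : r ≤ minSq A) :
    ∃ (B : Matrix (Fin n) (Fin n) ℝ) (N : Matrix (Fin n) (Fin n) ℤ), B.det ≠ 0 ∧ N.det ≠ 0 ∧
      A = B * N.map (Int.cast : ℤ → ℝ) ∧ r ≤ minSq B ∧
      ∀ (C : Matrix (Fin n) (Fin n) ℝ) (M : Matrix (Fin n) (Fin n) ℤ),
        B = C * M.map (Int.cast : ℤ → ℝ) → 1 < M.det.natAbs → minSq C < r := by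
  classical
  have hdetmap : ∀ N : Matrix (Fin n) (Fin n) ℤ,
      (N.map (Int.cast : ℤ → ℝ)).det = (N.det : ℝ) := fun N =>
    (RingHom.map_det (Int.castRingHom ℝ) N).symm
  have hg : 0 < gamma n := by
    have h1 := inv_le_gamma hn A hA
    unfold inv at h1
    have : 0 < minSq A := lt_of_lt_of_le hr hmin
    exact lt_of_lt_of_le (by have := abs_pos.2 hA; positivity) h1
  let S : Set ℕ := {d | ∃ (B : Matrix (Fin n) (Fin n) ℝ) (N : Matrix (Fin n) (Fin n) ℤ),
    N.det.natAbs = d ∧ N.det ≠ 0 ∧ A = B * N.map (Int.cast : ℤ → ℝ) ∧ r ≤ minSq B}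
  have hne : S.Nonempty := by
    refine ⟨1, A, 1, by simp, by simp, ?_, hmin⟩
    rw [Matrix.map_one _ Int.cast_zero Int.cast_one, mul_one]
  have hdetB : ∀ (B : Matrix (Fin n) (Fin n) ℝ) (N : Matrix (Fin n) (Fin n) ℤ),
      A = B * N.map (Int.cast : ℤ → ℝ) → B.det ≠ 0 := by
    rintro B N h h0
    apply hA
    rw [h, Matrix.det_mul, h0, zero_mul]
  have hD : 0 < (r / gamma n) ^ ((n : ℝ) / 2) := by positivity
  have hbdd : BddAbove S := by
    refine ⟨⌊|A.det| / (r / gamma n) ^ ((n : ℝ) / 2)⌋₊, ?_⟩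
    rintro d ⟨B, N, rfl, hN, hAB, hB⟩
    refine Nat.le_floor ?_
    rw [le_div_iff₀ hD]
    have h1 := det_ge hn B (hdetB B N hAB) hr hB
    have h2 : |A.det| = |B.det| * (N.det.natAbs : ℝ) := by
      rw [hAB, Matrix.det_mul, hdetmap, abs_mul, Nat.cast_natAbs, Int.cast_abs]
    rw [h2, mul_comm]
    exact mul_le_mul_of_nonneg_right h1 (by positivity)
  obtain ⟨B, N, h1, h2, h3, h4⟩ := Nat.sSup_mem hne hbdd
  refine ⟨B, N, hdetB B N h3, h2, h3, h4, fun C M hC hM => ?_⟩
  by_contra hcon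
  push Not at hcon
  have hmem : (M * N).det.natAbs ∈ S := by
    refine ⟨C, M * N, rfl, ?_, ?_, hcon⟩
    · rw [Matrix.det_mul]
      refine mul_ne_zero ?_ h2
      intro h0
      rw [h0] at hM
      simp at hM
    · rw [h3, hC, Matrix.mul_assoc]
      congr 1
      exact (Matrix.map_mul (f := Int.castRingHom ℝ) (M := N) (L := M)).symm
  have hle := le_csSup hbdd hmem
  rw [← h1, Matrix.det_mul, Int.natAbs_mul] at hle
  have hN0 : 0 < N.det.natAbs := Int.natAbs_pos.2 h2
  nlinarith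

/-- The matrix of `ℤⁿ` in the superlattice generated by `a / p`, `a_k = 1`. -/
def supM {n : ℕ} (p : ℕ) (k : Fin n) (a : Fin n → ℤ) : Matrix (Fin n) (Fin n) ℤ :=
  (1 : Matrix (Fin n) (Fin n) ℤ).updateCol k (fun i => if i = k then (p : ℤ) else -a i)

/-- The superlattice generated by `a / p`, `a_k = 1`. -/
noncomputable def supP {n : ℕ} (p : ℕ) (k : Fin n) (a : Fin n → ℤ) : Matrix (Fin n) (Fin n) ℝ :=
  (1 : Matrix (Fin n) (Fin n) ℝ).updateCol k (fun i => (a i : ℝ) / p)

lemma supM_det {n : ℕ} (p : ℕ) (k : Fin n) (a : Fin n → ℤ) : (supM p k a).det = p := by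
  unfold supM
  rw [← Matrix.cramer_apply, Matrix.cramer_one]
  simp

lemma supP_mul {n p : ℕ} (hp : 0 < p) (k : Fin n) (a : Fin n → ℤ) (hak : a k = 1) :
    supP p k a * (supM p k a).map (Int.cast : ℤ → ℝ) = 1 := by
  have hp0 : (p : ℝ) ≠ 0 := by exact_mod_cast hp.ne'
  ext i j
  rw [Matrix.mul_apply]
  by_cases hj : j = k
  · subst hj
    rw [← Finset.add_sum_erase _ _ (Finset.mem_univ j)]
    have h1 : ∑ l ∈ Finset.univ.erase j, supP p j a i l *
        (supM p j a).map (Int.cast : ℤ → ℝ) l j =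
        ∑ l ∈ Finset.univ.erase j, if l = i then -(a i : ℝ) else 0 := by
      refine Finset.sum_congr rfl fun l hl => ?_
      have hl' : l ≠ j := Finset.ne_of_mem_erase hl
      simp only [supP, supM, Matrix.map_apply, Matrix.updateCol_self,
        Matrix.updateCol_ne hl', if_neg hl']
      by_cases hil : l = i
      · subst hil
        simp
      · rw [if_neg hil, Matrix.one_apply_ne (Ne.symm hil)]
        simp
    rw [h1, Finset.sum_ite_eq']
    simp only [supP, supM, Matrix.map_apply, Matrix.updateCol_self]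
    by_cases hij : i = j
    · subst hij
      simp only [Finset.mem_erase, ne_eq, not_true_eq_false, Finset.mem_univ, and_true,
        if_false, Matrix.one_apply_eq, if_true, hak, add_zero]
      push_cast
      field_simp
    · rw [if_pos (Finset.mem_erase.2 ⟨hij, Finset.mem_univ i⟩), Matrix.one_apply_ne hij]
      simp only [if_true]
      push_cast
      field_simp
      ring
  · rw [Finset.sum_eq_single j]
    · simp only [supP, supM, Matrix.map_apply, Matrix.updateCol_ne hj, Matrix.one_apply_eq]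
      simp [Matrix.one_apply]
    · intro l _ hl
      simp only [supM, Matrix.map_apply, Matrix.updateCol_ne hj, Matrix.one_apply_ne hl]
      simp
    · simp

lemma supP_mulVec {n : ℕ} (p : ℕ) (k : Fin n) (a : Fin n → ℤ) (w : Fin n → ℝ) (i : Fin n) :
    (supP p k a).mulVec w i = w k * ((a i : ℝ) / p) + if i = k then 0 else w i := by
  rw [Matrix.mulVec, dotProduct, ← Finset.add_sum_erase _ _ (Finset.mem_univ k)]
  have h1 : ∑ l ∈ Finset.univ.erase k, supP p k a i l * w l =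
      ∑ l ∈ Finset.univ.erase k, if l = i then w i else 0 := by
    refine Finset.sum_congr rfl fun l hl => ?_
    have hl' : l ≠ k := Finset.ne_of_mem_erase hl
    simp only [supP, Matrix.updateCol_ne hl']
    by_cases hil : l = i
    · subst hil
      simp
    · rw [if_neg hil, Matrix.one_apply_ne (Ne.symm hil)]
      simp
  rw [h1, Finset.sum_ite_eq']
  simp only [supP, Matrix.updateCol_self]
  by_cases hik : i = k
  · subst hik
    simp [mul_comm]
  · rw [if_pos (Finset.mem_erase.2 ⟨hik, Finset.mem_univ i⟩), if_neg hik, mul_comm]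

/-- The maximality used below. -/
def IsMax {n : ℕ} (B : Matrix (Fin n) (Fin n) ℝ) (r : ℝ) : Prop :=
  r ≤ minSq B ∧ ∀ (C : Matrix (Fin n) (Fin n) ℝ) (M : Matrix (Fin n) (Fin n) ℤ),
    B = C * M.map (Int.cast : ℤ → ℝ) → 1 < M.det.natAbs → minSq C < r

/-- In a maximal lattice some multiple of `a / p` is near the lattice. -/
lemma exists_multiple {n p : ℕ} (hn : 0 < n) (hp : p.Prime) (B : Matrix (Fin n) (Fin n) ℝ)
    {r : ℝ} (hmax : IsMax B r) (k : Fin n) (a : Fin n → ℤ) (hak : a k = 1) :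
    ∃ (j : ℤ) (w : Fin n → ℤ), ¬ (p : ℤ) ∣ j ∧
      qf B (fun i => ((j * a i : ℤ) : ℝ) / p - w i) < r := by
  have hp0 : (p : ℝ) ≠ 0 := by exact_mod_cast hp.ne_zero
  have hC : B = (B * supP p k a) * (supM p k a).map (Int.cast : ℤ → ℝ) := by
    rw [Matrix.mul_assoc, supP_mul hp.pos k a hak, Matrix.mul_one]
  have h1 := hmax.2 (B * supP p k a) (supM p k a) hC (by
    rw [supM_det, Int.natAbs_natCast]
    exact hp.one_lt)
  obtain ⟨w, hw0, hw⟩ : ∃ w : Fin n → ℤ, w ≠ 0 ∧
      ∑ i, (Matrix.mulVec (B * supP p k a) (fun j => (w j : ℝ))) i ^ 2 < r := by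
    by_contra hcon
    push Not at hcon
    exact absurd (le_minSq hn _ hcon) (not_le.2 h1)
  rw [← Matrix.mulVec_mulVec] at hw
  have hvec : (supP p k a).mulVec (fun j => (w j : ℝ)) =
      fun i => ((w k * a i : ℤ) : ℝ) / p - ((if i = k then 0 else -w i : ℤ) : ℝ) := by
    ext i
    rw [supP_mulVec]
    by_cases hik : i = k
    · rw [if_pos hik, if_pos hik]
      push_cast
      ring
    · rw [if_neg hik, if_neg hik]
      push_cast
      ring
  rw [hvec] at hw
  refine ⟨w k, fun i => if i = k then 0 else -w i, ?_, hw⟩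
  rintro ⟨m, hm⟩
  have hx : (fun i => ((w k * a i : ℤ) : ℝ) / p - ((if i = k then 0 else -w i : ℤ) : ℝ)) =
      fun i => (((m * a i + if i = k then 0 else w i : ℤ)) : ℝ) := by
    ext i
    rw [hm]
    by_cases hik : i = k
    · rw [if_pos hik, if_pos hik]
      push_cast
      field_simp
      ring
    · rw [if_neg hik, if_neg hik]
      push_cast
      field_simp
      ring
  rw [hx] at hw
  refine absurd hw (not_lt.2 (hmax.1.trans (minSq_le B _ ?_)))
  intro h0
  apply hw0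
  have hmk : m = 0 := by
    have := congrFun h0 k
    simp only [if_true, hak, mul_one, add_zero, Pi.zero_apply] at this
    exact this
  ext i
  by_cases hik : i = k
  · rw [hik, hm, hmk]
    simp
  · have := congrFun h0 i
    simp only [if_neg hik, hmk, zero_mul, zero_add, Pi.zero_apply] at this
    rw [this]
    rfl

/-- A class modulo `p` near the lattice. -/
def Good {n : ℕ} (B : Matrix (Fin n) (Fin n) ℝ) (r : ℝ) (p : ℕ) (α : Fin n → ZMod p) : Prop :=
  ∃ a : Fin n → ℤ, (∀ i, ((a i : ℤ) : ZMod p) = α i) ∧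
    ∃ w : Fin n → ℤ, qf B (fun i => (a i : ℝ) / p - w i) < r

lemma Good.any {n p : ℕ} (hp : 0 < p) {B : Matrix (Fin n) (Fin n) ℝ} {r : ℝ}
    {α : Fin n → ZMod p} (h : Good B r p α) (b : Fin n → ℤ)
    (hb : ∀ i, ((b i : ℤ) : ZMod p) = α i) :
    ∃ w : Fin n → ℤ, qf B (fun i => (b i : ℝ) / p - w i) < r := by
  have hp0 : (p : ℝ) ≠ 0 := by exact_mod_cast hp.ne'
  obtain ⟨a, ha, w, hw⟩ := h
  have hdvd : ∀ i, (p : ℤ) ∣ b i - a i := fun i => by
    rw [← ZMod.intCast_zmod_eq_zero_iff_dvd]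
    push_cast
    rw [ha, hb, sub_self]
  choose z hz using hdvd
  refine ⟨fun i => w i + z i, ?_⟩
  convert! hw using 2
  ext i
  have h1 : (b i : ℝ) = a i + p * z i := by
    have := hz i
    have h2 : b i = a i + p * z i := by omega
    exact_mod_cast h2
  rw [h1]
  push_cast
  field_simp
  ring

lemma exists_good_multiple {n p : ℕ} (hn : 0 < n) [hp : Fact p.Prime]
    (B : Matrix (Fin n) (Fin n) ℝ) {r : ℝ} (hmax : IsMax B r) (α : Fin n → ZMod p) (hα : α ≠ 0) :
    ∃ u : ZMod p, u ≠ 0 ∧ Good B r p (u • α) := by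
  obtain ⟨k, hk⟩ : ∃ k, α k ≠ 0 := by
    by_contra hcon
    push Not at hcon
    exact hα (funext hcon)
  have : Fact (1 < p) := ⟨hp.out.one_lt⟩
  let a : Fin n → ℤ := fun i => (((α k)⁻¹ * α i).val : ℤ)
  have hak : a k = 1 := by
    simp only [a]
    rw [inv_mul_cancel₀ hk, ZMod.val_one]
    rfl
  have ha : ∀ i, ((a i : ℤ) : ZMod p) = (α k)⁻¹ * α i := by
    intro i
    simp only [a]
    push_cast
    rw [ZMod.natCast_val, ZMod.cast_id', id]
  obtain ⟨j, w, hj, hw⟩ := exists_multiple hn hp.out B hmax k a hak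
  refine ⟨(j : ZMod p) * (α k)⁻¹, mul_ne_zero ?_ (inv_ne_zero hk), fun i => j * a i, ?_, w, hw⟩
  · rw [Ne, ZMod.intCast_zmod_eq_zero_iff_dvd]
    exact hj
  · intro i
    push_cast
    rw [ha, Pi.smul_apply, smul_eq_mul]
    ring

/-- At least `p^(n-1)` classes are near the lattice. -/
lemma card_good {n p : ℕ} (hn : 0 < n) [hp : Fact p.Prime] (B : Matrix (Fin n) (Fin n) ℝ)
    {r : ℝ} (hmax : IsMax B r) :
    ∃ G : Finset (Fin n → ZMod p), (∀ α ∈ G, Good B r p α) ∧ p ^ (n - 1) ≤ G.card := by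
  classical
  refine ⟨Finset.univ.filter (Good B r p), fun α hα => (Finset.mem_filter.1 hα).2, ?_⟩
  set G := Finset.univ.filter (Good B r p) with hG
  have hsub : Finset.univ.erase (0 : Fin n → ZMod p) ⊆
      ((Finset.univ.erase (0 : ZMod p)) ×ˢ G).image (fun x => x.1 • x.2) := by
    intro α hα
    obtain ⟨u, hu, hgood⟩ := exists_good_multiple hn B hmax α (Finset.ne_of_mem_erase hα)
    rw [Finset.mem_image]
    refine ⟨(u⁻¹, u • α), ?_, ?_⟩
    · rw [Finset.mem_product]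
      exact ⟨Finset.mem_erase.2 ⟨inv_ne_zero hu, Finset.mem_univ _⟩,
        Finset.mem_filter.2 ⟨Finset.mem_univ _, hgood⟩⟩
    · simp only
      rw [smul_smul, inv_mul_cancel₀ hu, one_smul]
  have h1 := (Finset.card_le_card hsub).trans Finset.card_image_le
  rw [Finset.card_product, Finset.card_erase_of_mem (Finset.mem_univ _),
    Finset.card_erase_of_mem (Finset.mem_univ _), Finset.card_univ, Finset.card_univ,
    ZMod.card, Fintype.card_fun, ZMod.card, Fintype.card_fin] at h1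
  obtain ⟨m, rfl⟩ : ∃ m, n = m + 1 := ⟨n - 1, by omega⟩
  rw [Nat.add_sub_cancel]
  have hp2 : 2 ≤ p := hp.out.two_le
  by_contra hcon
  push Not at hcon
  have h2 : (p - 1) * G.card + (p - 1) ≤ (p - 1) * p ^ m := by
    calc (p - 1) * G.card + (p - 1) = (p - 1) * (G.card + 1) := by ring
      _ ≤ (p - 1) * p ^ m := Nat.mul_le_mul_left _ hcon
  have h3 : (p - 1) * p ^ m + p ^ m = p ^ (m + 1) := by
    rw [pow_succ]
    obtain ⟨s, rfl⟩ : ∃ s, p = s + 1 := ⟨p - 1, by omega⟩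
    rw [Nat.add_sub_cancel]
    ring
  have h4 : 1 ≤ p ^ m := Nat.one_le_pow _ _ (by omega)
  omega

end Pool.Agent.Lib.MP_ef2672_gt_Over
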