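import Pool.Agent.Lib.MP_ef2672_gt_Over.Defs

/-!
Periodic sets: the measure in the unit cube is invariant under translations, and a set which
meets `K` of the `M` translates of every point has density at least `K / M`.
-/

set_option autoImplicit false

namespace Pool.Agent.Lib.MP_ef2672_gt_Over

open Pool.Agent.Lib.MP_ef2672_gt_Tauber Pool.Agent.Lib.EF_h73 MeasureTheory Filter Topology
open scoped Pointwise

/-- The unit cube `[0,1)ⁿ`. -/
def cube (n : ℕ) : Set (Fin n → ℝ) := {t | ∀ i, 0 ≤ t i ∧ t i < 1}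

lemma cube_eq (n : ℕ) : cube n = ZSpan.fundamentalDomain (Pi.basisFun ℝ (Fin n)) := by
  rw [ZSpan.fundamentalDomain_pi_basisFun]
  ext t
  simp [cube, Set.mem_pi]

lemma measurableSet_cube (n : ℕ) : MeasurableSet (cube n) := by
  rw [cube_eq]
  exact ZSpan.fundamentalDomain_measurableSet _

lemma volume_cube (n : ℕ) : volume (cube n) = 1 := by
  rw [cube_eq, ZSpan.fundamentalDomain_pi_basisFun, volume_pi, Measure.pi_pi]
  simp

lemma mem_span_iff {n : ℕ} (x : Fin n → ℝ) :
    x ∈ Submodule.span ℤ (Set.range (Pi.basisFun ℝ (Fin n))) ↔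
      ∃ w : Fin n → ℤ, x = fun j => (w j : ℝ) := by
  rw [Module.Basis.mem_span_iff_repr_mem ℤ (Pi.basisFun ℝ (Fin n)) x]
  simp only [Pi.basisFun_repr, Set.mem_range, algebraMap_int_eq, eq_intCast]
  constructor
  · intro h
    choose w hw using h
    exact ⟨w, funext fun j => (hw j).symm⟩
  · rintro ⟨w, rfl⟩ i
    exact ⟨w i, rfl⟩

/-- Translation invariance. -/
lemma volume_shift {n : ℕ} (T : Set (Fin n → ℝ)) (hT : MeasurableSet T)
    (hper : ∀ (t : Fin n → ℝ) (w : Fin n → ℤ), (t + fun j => (w j : ℝ)) ∈ T ↔ t ∈ T)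
    (v : Fin n → ℝ) : volume (cube n ∩ {t | t + v ∈ T}) = volume (cube n ∩ T) := by
  set b := Pi.basisFun ℝ (Fin n) with hb
  have hF : IsAddFundamentalDomain (Submodule.span ℤ (Set.range b)).toAddSubgroup (cube n)
      (volume : Measure (Fin n → ℝ)) := by
    rw [cube_eq]
    exact ZSpan.isAddFundamentalDomain' b volume
  have hcount : Countable (Submodule.span ℤ (Set.range b)).toAddSubgroup :=
    inferInstanceAs (Countable (Submodule.span ℤ (Set.range b)))
  have hF' : IsAddFundamentalDomain (Submodule.span ℤ (Set.range b)).toAddSubgroup (v +ᵥ cube n)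
      (volume : Measure (Fin n → ℝ)) := hF.vadd_of_comm v
  have hinv : ∀ g : (Submodule.span ℤ (Set.range b)).toAddSubgroup,
      (fun x => g +ᵥ x) ⁻¹' T = T := by
    rintro ⟨g, hg⟩
    obtain ⟨w, rfl⟩ := (mem_span_iff g).1 hg
    ext x
    have := hper x w
    rw [add_comm] at this
    exact this
  have h1 := hF.measure_set_eq hF' hT hinv
  rw [Set.inter_comm (cube n) T, h1]
  have h2 : T ∩ (v +ᵥ cube n) = v +ᵥ (cube n ∩ {t | t + v ∈ T}) := by
    ext x
    rw [Set.mem_vadd_set_iff_neg_vadd_mem, Set.mem_inter_iff, Set.mem_inter_iff,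
      Set.mem_vadd_set_iff_neg_vadd_mem, and_comm]
    refine and_congr Iff.rfl ?_
    rw [Set.mem_setOf_eq]
    have : (-v +ᵥ x) + v = x := by
      rw [vadd_eq_add]; abel
    rw [this]
  rw [h2, measure_vadd]

/-- Translation invariance of the mean of a periodic function. -/
lemma lintegral_shift {n : ℕ} (g : (Fin n → ℝ) → ENNReal) 
    (hper : ∀ (t : Fin n → ℝ) (w : Fin n → ℤ), g (t + fun j => (w j : ℝ)) = g t)
    (v : Fin n → ℝ) : ∫⁻ t in cube n, g (t + v) = ∫⁻ t in cube n, g t := by
  set b := Pi.basisFun ℝ (Fin n) with hb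
  have hF : IsAddFundamentalDomain (Submodule.span ℤ (Set.range b)).toAddSubgroup (cube n)
      (volume : Measure (Fin n → ℝ)) := by
    rw [cube_eq]
    exact ZSpan.isAddFundamentalDomain' b volume
  have hcount : Countable (Submodule.span ℤ (Set.range b)).toAddSubgroup :=
    inferInstanceAs (Countable (Submodule.span ℤ (Set.range b)))
  have hF' : IsAddFundamentalDomain (Submodule.span ℤ (Set.range b)).toAddSubgroup (v +ᵥ cube n)
      (volume : Measure (Fin n → ℝ)) := hF.vadd_of_comm v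
  have hinv : ∀ (k : (Submodule.span ℤ (Set.range b)).toAddSubgroup) (x : Fin n → ℝ),
      g (k +ᵥ x) = g x := by
    rintro ⟨k, hk⟩ x
    obtain ⟨w, rfl⟩ := (mem_span_iff k).1 hk
    have := hper x w
    rw [add_comm] at this
    exact this
  rw [hF.setLIntegral_eq hF' g hinv]
  have h2 : v +ᵥ cube n = (MeasurableEquiv.addRight (-v)) ⁻¹' cube n := by
    ext x
    rw [Set.mem_vadd_set_iff_neg_vadd_mem, vadd_eq_add, Set.mem_preimage]
    simp only [MeasurableEquiv.coe_addRight]
    rw [add_comm]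
  have h3 := (measurePreserving_add_right (volume : Measure (Fin n → ℝ)) v)
  have h4 := h3.setLIntegral_comp_preimage_emb (MeasurableEquiv.addRight v).measurableEmbedding g
    (v +ᵥ cube n)
  rw [← h4]
  have h5 : (fun x => x + v) ⁻¹' (v +ᵥ cube n) = cube n := by
    ext x
    rw [Set.mem_preimage, Set.mem_vadd_set_iff_neg_vadd_mem, vadd_eq_add]
    have : -v + (x + v) = x := by abel
    rw [this]
  rw [h5]

/-- Averaging over translations. -/
lemma le_lintegral {n : ℕ} {ι : Type*} [Fintype ι] (g : (Fin n → ℝ) → ENNReal)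
    (hg : Measurable g)
    (hper : ∀ (t : Fin n → ℝ) (w : Fin n → ℤ), g (t + fun j => (w j : ℝ)) = g t)
    (v : ι → Fin n → ℝ) (K : ENNReal) (h : ∀ u : Fin n → ℝ, K ≤ ∑ i, g (u + v i)) :
    K ≤ Fintype.card ι * ∫⁻ t in cube n, g t := by
  have h1 : ∀ i, ∫⁻ t in cube n, g (t + v i) = ∫⁻ t in cube n, g t := fun i =>
    lintegral_shift g hper (v i)
  calc K = ∫⁻ _ in cube n, K := by rw [setLIntegral_const, volume_cube, mul_one]
    _ ≤ ∫⁻ t in cube n, ∑ i, g (t + v i) := lintegral_mono fun t => h t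
    _ = ∑ i, ∫⁻ t in cube n, g (t + v i) :=
        lintegral_finsetSum _ fun i _ => hg.comp (measurable_id.add_const (v i))
    _ = Fintype.card ι * ∫⁻ t in cube n, g t := by
        simp only [h1, Finset.sum_const, Finset.card_univ, nsmul_eq_mul]

/-- Averaging over translations. -/
lemma le_volume {n : ℕ} {ι : Type*} [Fintype ι] (T : Set (Fin n → ℝ)) (hT : MeasurableSet T)
    (hper : ∀ (t : Fin n → ℝ) (w : Fin n → ℤ), (t + fun j => (w j : ℝ)) ∈ T ↔ t ∈ T)
    (v : ι → Fin n → ℝ) (K : ℕ)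
    (h : ∀ u : Fin n → ℝ, ∃ s : Finset ι, K ≤ s.card ∧ ∀ i ∈ s, u + v i ∈ T) :
    (K : ℝ) ≤ Fintype.card ι * (volume (cube n ∩ T)).toReal := by
  classical
  have hTi : ∀ i, MeasurableSet {t : Fin n → ℝ | t + v i ∈ T} := fun i =>
    (measurable_id.add_const (v i)) hT
  have h1 : (K : ENNReal) ≤ ∑ i, volume (cube n ∩ {t | t + v i ∈ T}) := by
    have h2 : ∀ i, volume (cube n ∩ {t | t + v i ∈ T}) =
        ∫⁻ t in cube n, Set.indicator {t | t + v i ∈ T} 1 t := by
      intro i
      rw [lintegral_indicator_one (hTi i), Measure.restrict_apply (hTi i), Set.inter_comm]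
    simp only [h2]
    rw [← lintegral_finsetSum' _ fun i _ => ((measurable_one.indicator (hTi i)).aemeasurable)]
    calc (K : ENNReal) = ∫⁻ _ in cube n, (K : ENNReal) := by
          rw [setLIntegral_const, volume_cube, mul_one]
      _ ≤ _ := by
          refine lintegral_mono fun t => ?_
          obtain ⟨s, hs, hs'⟩ := h t
          calc (K : ENNReal) ≤ (s.card : ENNReal) := by exact_mod_cast hs
            _ = ∑ i ∈ s, Set.indicator {t | t + v i ∈ T} (1 : (Fin n → ℝ) → ENNReal) t := by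
                rw [Finset.sum_congr rfl (g := fun _ => (1 : ENNReal))]
                · simp
                · intro i hi
                  rw [Set.indicator_of_mem (show t ∈ {t | t + v i ∈ T} from hs' i hi)]
                  rfl
            _ ≤ ∑ i, Set.indicator {t | t + v i ∈ T} (1 : (Fin n → ℝ) → ENNReal) t :=
                Finset.sum_le_sum_of_subset (Finset.subset_univ s)
  have h3 : ∀ i, volume (cube n ∩ {t | t + v i ∈ T}) = volume (cube n ∩ T) := fun i =>
    volume_shift T hT hper (v i)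
  simp only [h3, Finset.sum_const, Finset.card_univ, nsmul_eq_mul] at h1
  have hfin : volume (cube n ∩ T) ≠ ⊤ :=
    ne_top_of_le_ne_top (by rw [volume_cube]; exact ENNReal.one_ne_top)
      (measure_mono Set.inter_subset_left)
  have h4 := (ENNReal.toReal_le_toReal (by simp)
    (ENNReal.mul_ne_top (ENNReal.natCast_ne_top _) hfin)).2 h1
  rw [ENNReal.toReal_mul] at h4
  simpa using h4

/-- The points of `ℝⁿ` within distance `√r` of the lattice `A ℤⁿ`, in lattice coordinates. -/
def near {n : ℕ} (A : Matrix (Fin n) (Fin n) ℝ) (r : ℝ) : Set (Fin n → ℝ) :=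
  {t | ∃ w : Fin n → ℤ, qf A (fun j => t j - w j) < r}

lemma measurableSet_near {n : ℕ} (A : Matrix (Fin n) (Fin n) ℝ) (r : ℝ) :
    MeasurableSet (near A r) := by
  have : near A r = ⋃ w : Fin n → ℤ, {t | qf A (fun j => t j - w j) < r} := by
    ext t
    simp [near]
  rw [this]
  refine MeasurableSet.iUnion fun w => (isOpen_lt ?_ continuous_const).measurableSet
  exact (continuous_qf A).comp (by fun_prop)

lemma near_periodic {n : ℕ} (A : Matrix (Fin n) (Fin n) ℝ) (r : ℝ) (t : Fin n → ℝ)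
    (w : Fin n → ℤ) : (t + fun j => (w j : ℝ)) ∈ near A r ↔ t ∈ near A r := by
  constructor
  · rintro ⟨z, hz⟩
    refine ⟨z - w, ?_⟩
    convert! hz using 2
    ext j
    simp only [Pi.add_apply, Pi.sub_apply]
    push_cast
    ring
  · rintro ⟨z, hz⟩
    refine ⟨z + w, ?_⟩
    convert! hz using 2
    ext j
    simp only [Pi.add_apply]
    push_cast
    ring

lemma cov_eq {n : ℕ} (A : Matrix (Fin n) (Fin n) ℝ) (r : ℝ) :
    cov A r = (volume (cube n ∩ near A r)).toReal := rfl

lemma cov_le_one {n : ℕ} (A : Matrix (Fin n) (Fin n) ℝ) (r : ℝ) : cov A r ≤ 1 := by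
  rw [cov_eq]
  have h := measure_mono (μ := (volume : Measure (Fin n → ℝ)))
    (Set.inter_subset_left (s := cube n) (t := near A r))
  rw [volume_cube] at h
  exact ENNReal.toReal_le_of_le_ofReal zero_le_one (by simpa using h)

lemma cov_nonneg {n : ℕ} (A : Matrix (Fin n) (Fin n) ℝ) (r : ℝ) : 0 ≤ cov A r :=
  ENNReal.toReal_nonneg

lemma cov_mono {n : ℕ} (A : Matrix (Fin n) (Fin n) ℝ) {r r' : ℝ} (h : r ≤ r') :
    cov A r ≤ cov A r' := by
  rw [cov_eq, cov_eq]
  have hfin : volume (cube n ∩ near A r') ≠ ⊤ :=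
    ne_top_of_le_ne_top (by rw [volume_cube]; exact ENNReal.one_ne_top)
      (measure_mono Set.inter_subset_left)
  refine ENNReal.toReal_mono hfin (measure_mono (Set.inter_subset_inter_right _ ?_))
  rintro t ⟨w, hw⟩
  exact ⟨w, hw.trans_le h⟩

end Pool.Agent.Lib.MP_ef2672_gt_Over
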