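import Pool.Agent.Lib.MP_ef2672_gt_Over.Max

/-!
The covering radius of a maximal lattice (Rogers), and sublattices of prime index without short
vectors, together with their residue map.
-/

set_option autoImplicit false

namespace Pool.Agent.Lib.MP_ef2672_gt_Over

open Pool.Agent.Lib.MP_ef2672_gt_Tauber Pool.Agent.Lib.EF_h73 MeasureTheory Filter Topology

/-- All points are within `μ` of the lattice. -/
def Covers {n : ℕ} (B : Matrix (Fin n) (Fin n) ℝ) (μ : ℝ) : Prop :=
  ∀ y : Fin n → ℝ, ∃ s : Fin n → ℤ, nq B (fun i => y i - s i) ≤ μ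

lemma covers_trivial {n : ℕ} (B : Matrix (Fin n) (Fin n) ℝ) :
    Covers B (∑ i, nq B (Pi.single i 1)) := by
  intro y
  refine ⟨fun i => ⌊y i⌋, ?_⟩
  have h1 : (fun i => y i - (⌊y i⌋ : ℝ)) =
      ∑ i, (Int.fract (y i)) • (Pi.single i (1 : ℝ) : Fin n → ℝ) := by
    ext j
    rw [Finset.sum_apply, Finset.sum_eq_single j]
    · rw [Pi.smul_apply, Pi.single_eq_same, smul_eq_mul, mul_one]
      rfl
    · intro b _ hb
      rw [Pi.smul_apply, Pi.single_eq_of_ne (Ne.symm hb), smul_eq_mul, mul_zero]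
    · intro h
      exact absurd (Finset.mem_univ j) h
  rw [h1]
  refine (nq_sum_le B _ _).trans (Finset.sum_le_sum fun i _ => ?_)
  rw [nq_smul, abs_of_nonneg (Int.fract_nonneg _)]
  exact mul_le_of_le_one_left (nq_nonneg B _) (Int.fract_lt_one _).le

lemma zmod3_units : ∀ u : ZMod 3, u ≠ 0 → u = 1 ∨ u = -1 := by decide

lemma covers_step {n : ℕ} (hn : 0 < n) (B : Matrix (Fin n) (Fin n) ℝ) {r : ℝ}
    (hmax : IsMax B r) {μ : ℝ} (h : Covers B μ) : Covers B (Real.sqrt r + μ / 3) := by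
  have : Fact (Nat.Prime 3) := ⟨Nat.prime_three⟩
  intro y
  obtain ⟨s, hs⟩ := h (fun i => 3 * y i)
  have hs3 : nq B (fun i => y i - (s i : ℝ) / 3) ≤ μ / 3 := by
    have h1 : (fun i => 3 * y i - (s i : ℝ)) = (3 : ℝ) • fun i => y i - (s i : ℝ) / 3 := by
      ext i
      simp only [Pi.smul_apply, smul_eq_mul]
      ring
    rw [h1, nq_smul, abs_of_pos (by norm_num)] at hs
    linarith
  -- it suffices to find a lattice point near `s / 3`
  have key : ∀ z : Fin n → ℤ, nq B (fun i => (s i : ℝ) / 3 - z i) ≤ Real.sqrt r →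
      ∃ z : Fin n → ℤ, nq B (fun i => y i - z i) ≤ Real.sqrt r + μ / 3 := by
    intro z hz
    refine ⟨z, ?_⟩
    have h2 : (fun i => y i - (z i : ℝ)) =
        (fun i => (s i : ℝ) / 3 - z i) + fun i => y i - (s i : ℝ) / 3 := by
      ext i
      simp only [Pi.add_apply]
      ring
    rw [h2]
    exact (nq_add_le B _ _).trans (by linarith)
  set α : Fin n → ZMod 3 := fun i => (s i : ZMod 3) with hα
  by_cases hα0 : α = 0
  · have hdvd : ∀ i, (3 : ℤ) ∣ s i := fun i => by
      have := congrFun hα0 i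
      exact (ZMod.intCast_zmod_eq_zero_iff_dvd _ 3).1 this
    choose z hz using hdvd
    refine key z ?_
    have h3 : (fun i => (s i : ℝ) / 3 - z i) = 0 := by
      ext i
      rw [hz i]
      push_cast
      simp only [Pi.zero_apply]
      ring
    rw [h3]
    have : nq B 0 = 0 := by simp [nq, qf, Matrix.mulVec_zero]
    rw [this]
    exact Real.sqrt_nonneg r
  · obtain ⟨u, hu, hgood⟩ := exists_good_multiple (p := 3) hn B hmax α hα0
    have hu' : u = 1 ∨ u = -1 := zmod3_units u hu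
    rcases hu' with rfl | rfl
    · obtain ⟨w, hw⟩ := hgood.any (by norm_num) s (fun i => by simp [hα])
      refine key w ?_
      unfold nq
      refine Real.sqrt_le_sqrt ?_
      push_cast at hw
      exact hw.le
    · obtain ⟨w, hw⟩ := hgood.any (by norm_num) (fun i => -s i) (fun i => by simp [hα])
      refine key (fun i => -w i) ?_
      have h4 : (fun i => (s i : ℝ) / 3 - ((-w i : ℤ) : ℝ)) =
          -fun i => ((-s i : ℤ) : ℝ) / (3 : ℕ) - w i := by
        ext i
        simp only [Pi.neg_apply]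
        push_cast
        ring
      rw [h4, nq_neg]
      unfold nq
      exact Real.sqrt_le_sqrt hw.le

/-- Rogers: the covering radius of a maximal lattice is at most `1.5 √r`. -/
lemma covers_max {n : ℕ} (hn : 0 < n) (B : Matrix (Fin n) (Fin n) ℝ) {r : ℝ} (hr : 0 < r)
    (hmax : IsMax B r) {θ : ℝ} (hθ : 3 / 2 < θ) : Covers B (θ * Real.sqrt r) := by
  set μ₀ := ∑ i, nq B (Pi.single i 1) with hμ₀
  have hμ₀0 : 0 ≤ μ₀ := Finset.sum_nonneg fun i _ => nq_nonneg B _
  have h1 : ∀ k : ℕ, Covers B (3 / 2 * Real.sqrt r + μ₀ / 3 ^ k) := by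
    intro k
    induction k with
    | zero =>
      intro y
      obtain ⟨s, hs⟩ := covers_trivial B y
      refine ⟨s, hs.trans ?_⟩
      rw [pow_zero, div_one]
      have := Real.sqrt_nonneg r
      linarith
    | succ k ih =>
      have := covers_step hn B hmax ih
      convert! this using 1
      rw [pow_succ]
      ring
  have hs : 0 < Real.sqrt r := Real.sqrt_pos.2 hr
  obtain ⟨k, hk⟩ := exists_pow_lt_of_lt_one
    (show 0 < (θ - 3 / 2) * Real.sqrt r / (μ₀ + 1) by
      have : 0 < θ - 3 / 2 := by linarith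
      positivity) (show (1 / 3 : ℝ) < 1 by norm_num)
  intro y
  obtain ⟨s, hs'⟩ := h1 k y
  refine ⟨s, hs'.trans ?_⟩
  have h2 : μ₀ / 3 ^ k ≤ (θ - 3 / 2) * Real.sqrt r := by
    rw [lt_div_iff₀ (by positivity), one_div, inv_pow] at hk
    have h3 : μ₀ / 3 ^ k = ((3 : ℝ) ^ k)⁻¹ * μ₀ := by rw [div_eq_inv_mul]
    rw [h3]
    have h4 : ((3 : ℝ) ^ k)⁻¹ * μ₀ ≤ ((3 : ℝ) ^ k)⁻¹ * (μ₀ + 1) :=
      mul_le_mul_of_nonneg_left (by linarith) (by positivity)
    linarith
  linarith

end Pool.Agent.Lib.MP_ef2672_gt_Over
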