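import Pool.Agent.Lib.MP_ef2672_gt_Over.FewShort

/-!
MP_ef2672: lattices near the bound `n / π²` have the volume number of vectors at every radius
(second moment part), given the upper bound `(2 e s / π)^(n/2)` for the shells of all lattices.
-/

set_option autoImplicit false

namespace Pool.Agent.Lib.MP_ef2672_gt_Over.Shell

open Pool.Agent.Lib.MP_ef2672_gt_Tauber Pool.Agent.Lib.EF_h73 MeasureTheory Filter Topology
open Pool.Agent.Lib.MP_ef2672_gt_Over.Auto

/-- The base of the shell bound. -/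
noncomputable def V : ℝ := 2 * Real.exp 1 / Real.pi

lemma V_pos : 0 < V := by unfold V; positivity

/-- Upper bound for the number of short vectors of all lattices. -/
def Upper : Prop := ∀ ε : ℝ, 0 < ε → ∀ S : ℝ, ∀ᶠ n : ℕ in atTop,
  ∀ A : Matrix (Fin n) (Fin n) ℝ, A.det ≠ 0 → ∀ s : ℝ, 1 ≤ s → s ≤ S →
    (nShort A (s * minSq A) : ℝ) ≤ (2 * Real.exp 1 / Real.pi * s) ^ ((n : ℝ) / 2) *
      Real.exp (ε * n)

lemma nShort_mono {n : ℕ} (A : Matrix (Fin n) (Fin n) ℝ) (hA : A.det ≠ 0) {r r' : ℝ}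
    (h : r ≤ r') : nShort A r ≤ nShort A r' := by
  unfold nShort
  exact Set.ncard_le_ncard (fun w hw => ⟨hw.1, lt_of_lt_of_le hw.2 h⟩) (finite_short A hA _)

/-- The layers. -/
lemma exists_layer {η s : ℝ} {K : ℕ} (h1 : 1 ≤ s) (hK : s < Real.exp (η * K)) :
    ∃ j < K, Real.exp (η * j) ≤ s ∧ s < Real.exp (η * (j + 1 : ℕ)) := by
  classical
  have hex : ∃ j : ℕ, s < Real.exp (η * j) := ⟨K, hK⟩
  have hf := Nat.find_spec hex
  have hle : Nat.find hex ≤ K := Nat.find_min' hex hK
  have hne : Nat.find hex ≠ 0 := by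
    intro h0
    rw [h0] at hf
    simp only [Nat.cast_zero, mul_zero, Real.exp_zero] at hf
    linarith
  obtain ⟨j, hj⟩ := Nat.exists_eq_succ_of_ne_zero hne
  refine ⟨j, by omega, ?_, ?_⟩
  · have := Nat.find_min hex (m := j) (by omega)
    exact not_lt.1 this
  · rw [hj] at hf
    exact hf

/-- The parabola `x (1 - x / (2 s))`. -/
lemma parabola {x s e : ℝ} (hs : 0 < s) (he : 0 < e) (he1 : e ≤ 1)
    (hfar : x ≤ (1 - e) * s ∨ (1 + e / 2) * s ≤ x) :
    x * (1 - x / (2 * s)) ≤ s / 2 * (1 - e ^ 2 / 4) := by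
  have h1 : (e / 2 * s) ^ 2 ≤ (x - s) ^ 2 := by
    rcases hfar with h | h
    · have h2 : e / 2 * s ≤ s - x := by nlinarith
      have h3 : 0 ≤ e / 2 * s := by positivity
      nlinarith
    · have h2 : e / 2 * s ≤ x - s := by linarith
      have h3 : 0 ≤ e / 2 * s := by positivity
      nlinarith
  have h4 : x * (1 - x / (2 * s)) = s / 2 - (x - s) ^ 2 / (2 * s) := by
    field_simp
    ring
  rw [h4]
  have h5 : e ^ 2 / 4 * s / 2 ≤ (x - s) ^ 2 / (2 * s) := by
    rw [le_div_iff₀ (by positivity)]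
    nlinarith
  linarith

/-- The weighted sum over the lattice, split at the shell of radius `s₀`. -/
lemma tsum_split {n : ℕ} (hn : 0 < n) (A : Matrix (Fin n) (Fin n) ℝ) (hA : A.det ≠ 0)
    (hμ : 0 < minSq A) {s₀ T e η : ℝ} (hs0 : 1 ≤ s₀) (hT : s₀ ≤ T) (he : 0 < e) (he1 : e ≤ 1)
    (hη : 0 < η) (hηe : 1 + e / 2 ≤ (1 + e) * Real.exp (-η)) {K : ℕ}
    (hK : 2 * T ≤ Real.exp (η * K))
    (hcount : ∀ s : ℝ, 1 ≤ s → s ≤ Real.exp (η * (K + 1)) →
      (nShort A (s * minSq A) : ℝ) ≤ (V * s) ^ ((n : ℝ) / 2) * Real.exp (η / 2 * n)) :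
    ∑' w, wt A (s₀ / 2 * minSq A) w ≤ 1 +
      nShort A ((1 + e) * s₀ * minSq A) * ((1 + e) / 2) ^ ((n : ℝ) / 2) +
      K * ((V * s₀ / 2 * (1 - e ^ 2 / 4)) ^ ((n : ℝ) / 2) * Real.exp (η * n)) := by
  classical
  have hn0 : (0 : ℝ) < n := by exact_mod_cast hn
  have hn2 : (0 : ℝ) ≤ (n : ℝ) / 2 := by positivity
  have hV := V_pos
  set μ := minSq A with hμdef
  have hs00 : 0 < s₀ := by linarith
  have hr : 0 < s₀ / 2 * μ := by positivity
  have h4r : 4 * (s₀ / 2 * μ) = 2 * s₀ * μ := by ring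
  have hfin := finite_short A hA (4 * (s₀ / 2 * μ))
  set W : Finset (Fin n → ℤ) := hfin.toFinset with hW
  have hW0 : (0 : Fin n → ℤ) ∉ W := by
    rw [hW, Set.Finite.mem_toFinset]
    exact fun h => h.1 rfl
  have hsum : ∑' w, wt A (s₀ / 2 * μ) w = ∑ w ∈ insert 0 W, wt A (s₀ / 2 * μ) w := by
    refine tsum_eq_sum fun w hw => ?_
    rw [Finset.mem_insert, not_or] at hw
    have h1 : ¬ normSq A w < 4 * (s₀ / 2 * μ) := by
      intro h
      exact hw.2 (hfin.mem_toFinset.2 ⟨hw.1, h⟩)
    unfold wt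
    rw [max_eq_left, Real.zero_rpow (by positivity)]
    rw [sub_nonpos, one_le_div (by positivity)]
    exact not_lt.1 h1
  rw [hsum, Finset.sum_insert hW0]
  have h0 : wt A (s₀ / 2 * μ) 0 = 1 := by
    unfold wt
    have : normSq A 0 = 0 := by
      unfold normSq
      have h : (fun j : Fin n => (((0 : Fin n → ℤ) j : ℤ) : ℝ)) = 0 := by ext j; simp
      rw [h, Matrix.mulVec_zero]
      simp
    rw [this, zero_div, sub_zero, max_eq_right zero_le_one, Real.one_rpow]
  set far : ℕ → Prop := fun j => Real.exp (η * j) ≤ (1 - e) * s₀ ∨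
    (1 + e / 2) * s₀ ≤ Real.exp (η * j) with hfar
  set b : ℕ → ℝ := fun j => if far j then
    (max 0 (1 - Real.exp (η * j) / (2 * s₀))) ^ ((n : ℝ) / 2) else 0 with hb
  have hb0 : ∀ j, 0 ≤ b j := by
    intro j
    show 0 ≤ ite _ _ _
    split_ifs
    · exact Real.rpow_nonneg (le_max_left _ _) _
    · exact le_rfl
  have hlay : ∀ w ∈ W, wt A (s₀ / 2 * μ) w ≤
      (if normSq A w < (1 + e) * s₀ * μ then ((1 + e) / 2) ^ ((n : ℝ) / 2) else 0) +
      ∑ j ∈ Finset.range K, if normSq A w < Real.exp (η * (j + 1 : ℕ)) * μ then b j else 0 := by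
    intro w hw
    rw [hW, Set.Finite.mem_toFinset] at hw
    have hw1 : μ ≤ normSq A w := minSq_le A w hw.1
    have hw2 : normSq A w < 4 * (s₀ / 2 * μ) := hw.2
    set s := normSq A w / μ with hs
    have hsμ : normSq A w = s * μ := by rw [hs]; field_simp
    have hs1 : 1 ≤ s := by rw [hs, one_le_div hμ]; exact hw1
    have hs4 : s < 2 * s₀ := by
      rw [hs, div_lt_iff₀ hμ]; linarith
    have hsK : s < Real.exp (η * K) := by linarith
    obtain ⟨j, hjK, hj1, hj2⟩ := exists_layer hs1 hsK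
    have hwt : wt A (s₀ / 2 * μ) w = (max 0 (1 - s / (2 * s₀))) ^ ((n : ℝ) / 2) := by
      unfold wt
      rw [h4r, hsμ, mul_div_mul_right _ _ hμ.ne']
    have hsumnn : ∀ i ∈ Finset.range K, 0 ≤
        (if normSq A w < Real.exp (η * (i + 1 : ℕ)) * μ then b i else 0) := by
      intro i _
      split_ifs
      · exact hb0 i
      · exact le_rfl
    have hfarcase : far j → wt A (s₀ / 2 * μ) w ≤
        ∑ j ∈ Finset.range K, if normSq A w < Real.exp (η * (j + 1 : ℕ)) * μ then b j else 0 := by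
      intro hf
      have hcond : normSq A w < Real.exp (η * (j + 1 : ℕ)) * μ := by
        rw [hsμ]
        exact mul_lt_mul_of_pos_right hj2 hμ
      have h1 : wt A (s₀ / 2 * μ) w ≤ b j := by
        rw [hwt, hb]
        simp only [if_pos hf]
        refine Real.rpow_le_rpow (le_max_left _ _) ?_ hn2
        refine max_le_max le_rfl ?_
        have : Real.exp (η * j) / (2 * s₀) ≤ s / (2 * s₀) := by gcongr
        linarith
      refine h1.trans ?_
      have h2 : b j = if normSq A w < Real.exp (η * (j + 1 : ℕ)) * μ then b j else 0 := by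
        rw [if_pos hcond]
      rw [h2]
      exact Finset.single_le_sum (f := fun j =>
        if normSq A w < Real.exp (η * (j + 1 : ℕ)) * μ then b j else 0) hsumnn
        (Finset.mem_range.2 hjK)
    have hnear0 : 0 ≤ (if normSq A w < (1 + e) * s₀ * μ then ((1 + e) / 2) ^ ((n : ℝ) / 2)
        else 0) := by
      split_ifs
      · positivity
      · exact le_rfl
    rcases lt_or_ge s ((1 - e) * s₀) with hlo | hlo
    · have := hfarcase (Or.inl (hj1.trans hlo.le))
      linarith
    rcases lt_or_ge s ((1 + e) * s₀) with hhi | hhi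
    · have h1 : wt A (s₀ / 2 * μ) w ≤ ((1 + e) / 2) ^ ((n : ℝ) / 2) := by
        rw [hwt]
        refine Real.rpow_le_rpow (le_max_left _ _) (max_le (by positivity) ?_) hn2
        have h2 : (1 - e) / 2 ≤ s / (2 * s₀) := by
          rw [div_le_div_iff₀ (by norm_num) (by positivity)]
          nlinarith
        linarith
      have h2 : normSq A w < (1 + e) * s₀ * μ := by
        rw [hsμ]
        exact mul_lt_mul_of_pos_right hhi hμ
      rw [if_pos h2]
      have h3 := Finset.sum_nonneg hsumnn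
      linarith
    · have h1 : (1 + e / 2) * s₀ ≤ Real.exp (η * j) := by
        have h2 : Real.exp (η * (j + 1 : ℕ)) * Real.exp (-η) = Real.exp (η * j) := by
          rw [← Real.exp_add]
          congr 1
          push_cast
          ring
        rw [← h2]
        have h3 : (1 + e) * s₀ ≤ Real.exp (η * (j + 1 : ℕ)) := by linarith
        calc (1 + e / 2) * s₀ ≤ (1 + e) * Real.exp (-η) * s₀ := by gcongr
          _ = (1 + e) * s₀ * Real.exp (-η) := by ring
          _ ≤ _ := by gcongr
      have := hfarcase (Or.inr h1)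
      linarith
  have hcard : ∀ r : ℝ, ((W.filter fun w => normSq A w < r).card : ℝ) ≤ nShort A r := by
    intro r
    rw [← Set.ncard_coe_finset]
    unfold nShort
    refine Nat.cast_le.2 (Set.ncard_le_ncard ?_ (finite_short A hA _))
    intro w hw
    rw [Finset.mem_coe, Finset.mem_filter, hW, Set.Finite.mem_toFinset] at hw
    exact ⟨hw.1.1, hw.2⟩
  have hmain : ∑ w ∈ W, wt A (s₀ / 2 * μ) w ≤
      nShort A ((1 + e) * s₀ * μ) * ((1 + e) / 2) ^ ((n : ℝ) / 2) +
      K * ((V * s₀ / 2 * (1 - e ^ 2 / 4)) ^ ((n : ℝ) / 2) * Real.exp (η * n)) := by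
    refine (Finset.sum_le_sum hlay).trans ?_
    rw [Finset.sum_add_distrib, Finset.sum_comm (s := W)]
    refine add_le_add ?_ ?_
    · rw [← Finset.sum_filter, Finset.sum_const, nsmul_eq_mul]
      exact mul_le_mul_of_nonneg_right (hcard _) (by positivity)
    · have hj : ∀ j ∈ Finset.range K, (∑ w ∈ W,
          if normSq A w < Real.exp (η * (j + 1 : ℕ)) * μ then b j else 0) ≤
          (V * s₀ / 2 * (1 - e ^ 2 / 4)) ^ ((n : ℝ) / 2) * Real.exp (η * n) := by
        intro j hjK
        rw [← Finset.sum_filter, Finset.sum_const, nsmul_eq_mul]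
        have hfac : 0 ≤ 1 - e ^ 2 / 4 := by nlinarith
        by_cases hf : far j
        · have hjK' : ((j + 1 : ℕ) : ℝ) ≤ (K : ℝ) + 1 := by
            have := Finset.mem_range.1 hjK
            push_cast
            have : (j : ℝ) ≤ K := by exact_mod_cast this.le
            linarith
          have hc := hcount (Real.exp (η * (j + 1 : ℕ))) (Real.one_le_exp (by positivity))
            (Real.exp_le_exp.2 (by gcongr))
          refine (mul_le_mul_of_nonneg_right ((hcard _).trans hc) (hb0 j)).trans ?_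
          have hbj : b j = (max 0 (1 - Real.exp (η * j) / (2 * s₀))) ^ ((n : ℝ) / 2) := by
            rw [hb]
            simp only [if_pos hf]
          rw [hbj]
          have hexp : Real.exp (η * (j + 1 : ℕ)) = Real.exp (η * j) * Real.exp η := by
            rw [← Real.exp_add]
            congr 1
            push_cast
            ring
          have hpar : Real.exp (η * j) * max 0 (1 - Real.exp (η * j) / (2 * s₀)) ≤
              s₀ / 2 * (1 - e ^ 2 / 4) := by
            rw [mul_max_of_nonneg _ _ (Real.exp_pos _).le, mul_zero]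
            exact max_le (by positivity) (parabola hs00 he he1 hf)
          have hm0 : 0 ≤ max 0 (1 - Real.exp (η * j) / (2 * s₀)) := le_max_left _ _
          have h2 : (V * Real.exp (η * (j + 1 : ℕ))) ^ ((n : ℝ) / 2) * Real.exp (η / 2 * n) *
              (max 0 (1 - Real.exp (η * j) / (2 * s₀))) ^ ((n : ℝ) / 2) =
              (V * (Real.exp (η * j) * max 0 (1 - Real.exp (η * j) / (2 * s₀)))) ^
                ((n : ℝ) / 2) * Real.exp (η * n) := by
            have h3 : Real.exp (η * n) = Real.exp η ^ ((n : ℝ) / 2) * Real.exp (η / 2 * n) := by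
              rw [← Real.exp_mul, ← Real.exp_add]
              congr 1
              ring
            calc (V * Real.exp (η * (j + 1 : ℕ))) ^ ((n : ℝ) / 2) * Real.exp (η / 2 * n) *
                (max 0 (1 - Real.exp (η * j) / (2 * s₀))) ^ ((n : ℝ) / 2)
                = (V * Real.exp (η * (j + 1 : ℕ)) *
                  max 0 (1 - Real.exp (η * j) / (2 * s₀))) ^ ((n : ℝ) / 2) *
                  Real.exp (η / 2 * n) := by
                  rw [mul_right_comm, ← Real.mul_rpow (by positivity) hm0]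
              _ = (V * (Real.exp (η * j) * max 0 (1 - Real.exp (η * j) / (2 * s₀))) *
                  Real.exp η) ^ ((n : ℝ) / 2) * Real.exp (η / 2 * n) := by
                  rw [hexp]
                  congr 2
                  ring
              _ = _ := by
                  rw [h3, Real.mul_rpow (by positivity) (Real.exp_pos _).le, mul_assoc]
          rw [h2]
          refine mul_le_mul_of_nonneg_right (Real.rpow_le_rpow (by positivity) ?_ hn2)
            (Real.exp_pos _).le
          calc V * (Real.exp (η * j) * max 0 (1 - Real.exp (η * j) / (2 * s₀)))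
              ≤ V * (s₀ / 2 * (1 - e ^ 2 / 4)) := by gcongr
            _ = _ := by ring
        · have hbj : b j = 0 := by
            rw [hb]
            simp only [if_neg hf]
          rw [hbj, mul_zero]
          positivity
      refine (Finset.sum_le_sum hj).trans ?_
      rw [Finset.sum_const, Finset.card_range, nsmul_eq_mul]
  rw [h0]
  linarith

/-- Near the bound `n / π²` every lattice has the volume number of vectors at every radius. -/
theorem rigid (hU : Upper) : ∀ ε : ℝ, 0 < ε → ∀ S : ℝ, ∃ δ : ℝ, 0 < δ ∧ ∀ᶠ n : ℕ in atTop,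
    ∀ A : Matrix (Fin n) (Fin n) ℝ, A.det ≠ 0 → (1 / Real.pi ^ 2 - δ) * n ≤ inv A →
    ∀ s : ℝ, Real.pi / Real.exp 1 ≤ s → s ≤ S →
      (2 * Real.exp 1 / Real.pi * s) ^ ((n : ℝ) / 2) * Real.exp (-(ε * n)) ≤
        nShort A ((1 + ε) * s * minSq A) := by
  intro ε hε S
  set e : ℝ := min ε 1 / 3 with hedef
  have he : 0 < e := by
    have : 0 < min ε 1 := lt_min hε one_pos
    positivity
  have he3 : 3 * e ≤ ε := by
    have := min_le_left ε 1
    rw [hedef]; linarith
  have he1 : e ≤ 1 / 3 := by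
    have := min_le_right ε 1
    rw [hedef]; linarith
  set T : ℝ := 2 * max S 1 with hTdef
  have hT1 : 1 ≤ max S 1 := le_max_right _ _
  set a : ℝ := e ^ 2 / 64 with hadef
  have ha : 0 < a := by positivity
  have hηe : 1 + e / 2 ≤ (1 + e) * Real.exp (-a) := by
    have h1 : 1 - a ≤ Real.exp (-a) := by
      have := Real.add_one_le_exp (-a)
      linarith
    have h2 : a ≤ e / 64 := by rw [hadef]; nlinarith
    nlinarith
  obtain ⟨K, hK⟩ : ∃ K : ℕ, 2 * T ≤ Real.exp (a * K) := by
    obtain ⟨K, hK⟩ := exists_nat_ge (2 * T / a)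
    refine ⟨K, ?_⟩
    rw [div_le_iff₀ ha] at hK
    have := Real.add_one_le_exp (a * K)
    linarith
  have hbig : ∀ᶠ n : ℕ in atTop, 6 * (n : ℝ) * (K + 1) ≤ Real.exp (a * n) := by
    have h1 : Tendsto (fun n : ℕ => Real.exp (a / 2 * n)) atTop atTop :=
      Real.tendsto_exp_atTop.comp
        ((tendsto_natCast_atTop_atTop (R := ℝ)).const_mul_atTop (by positivity))
    filter_upwards [h1.eventually_ge_atTop (12 * (K + 1) / a)] with n hn
    have h2 : (n : ℝ) ≤ 2 / a * Real.exp (a / 2 * n) := by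
      have h3 := Real.add_one_le_exp (a / 2 * n)
      have h4 : (n : ℝ) = 2 / a * (a / 2 * n) := by field_simp
      calc (n : ℝ) = 2 / a * (a / 2 * n) := h4
        _ ≤ 2 / a * Real.exp (a / 2 * n) :=
          mul_le_mul_of_nonneg_left (by linarith) (by positivity)
    calc 6 * (n : ℝ) * (K + 1) ≤ 6 * (2 / a * Real.exp (a / 2 * n)) * (K + 1) := by gcongr
      _ = 12 * (K + 1) / a * Real.exp (a / 2 * n) := by ring
      _ ≤ Real.exp (a / 2 * n) * Real.exp (a / 2 * n) := by gcongr
      _ = Real.exp (a * n) := by rw [← Real.exp_add]; congr 1; ring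
  have hex1 : Real.exp (-(2 * a)) < 1 := Real.exp_lt_one_iff.2 (by linarith)
  refine ⟨(1 - Real.exp (-(2 * a))) / Real.pi ^ 2, by
    have : 0 < 1 - Real.exp (-(2 * a)) := by linarith
    positivity, ?_⟩
  filter_upwards [hbig, eventually_gt_atTop 0, hU (a / 2) (by positivity)
    (Real.exp (a * (K + 1)))] with n hb hn hUn A hA hinv s hs1 hsS
  have hn0 : (0 : ℝ) < n := by exact_mod_cast hn
  have hn2 : (0 : ℝ) < (n : ℝ) / 2 := by positivity
  have hA0 : 0 < |A.det| := abs_pos.2 hA
  have hpi := Real.pi_pos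
  have he0 : 0 < Real.exp 1 := Real.exp_pos 1
  have hinv' : Real.exp (-(2 * a)) / Real.pi ^ 2 * n ≤ inv A := by
    refine le_trans (le_of_eq ?_) hinv
    congr 1
    field_simp
    ring
  have hμ : 0 < minSq A := by
    rcases (minSq_nonneg A).eq_or_lt with hμ | hμ
    · exfalso
      unfold inv at hinv'
      rw [← hμ, zero_div] at hinv'
      have : 0 < Real.exp (-(2 * a)) / Real.pi ^ 2 * n := by positivity
      linarith
    · exact hμ
  set μ := minSq A with hμdef
  have hs0 : 0 < s := lt_of_lt_of_le (by positivity) hs1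
  set s₀ : ℝ := (1 + e) * s with hs₀
  have hpie : 1 ≤ Real.pi / Real.exp 1 := by
    rw [one_le_div he0]
    have := Real.exp_one_lt_d9
    have := Real.pi_gt_three
    linarith
  have hs01 : 1 ≤ s₀ := by nlinarith
  have hs0T : s₀ ≤ T := by
    have h1 : s ≤ max S 1 := hsS.trans (le_max_left _ _)
    rw [hs₀, hTdef]
    nlinarith
  have hs00 : 0 < s₀ := by linarith
  have hr : 0 < s₀ / 2 * μ := by positivity
  have h1 := VolLow.vol_ge hn hr
  have h2 := auto n hn A hA (s₀ / 2 * μ) hr
  have h3 := tsum_split hn A hA hμ hs01 hs0T he (by linarith) ha hηe hK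
    (fun t ht1 ht2 => hUn A hA t ht1 ht2)
  have h4 : (volume {x : Fin n → ℝ | ∑ i, x i ^ 2 < s₀ / 2 * μ}).toReal ≤
      |A.det| * ∑' w, wt A (s₀ / 2 * μ) w := by
    refine h2.trans ?_
    have h5 : 0 ≤ ∑' w, wt A (s₀ / 2 * μ) w := tsum_nonneg (wt_nonneg A _)
    calc |A.det| * cov A (s₀ / 2 * μ) * ∑' w, wt A (s₀ / 2 * μ) w
        ≤ |A.det| * 1 * ∑' w, wt A (s₀ / 2 * μ) w := by
          gcongr
          exact cov_le_one A _
      _ = _ := by rw [mul_one]
  have h5 := h1.trans h4
  rw [div_le_iff₀ (by positivity)] at h5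
  set g := inv A with hg
  have hgμ : μ = g * |A.det| ^ ((2 : ℝ) / n) := by
    rw [hg]; unfold inv
    rw [div_mul_cancel₀ _ (by positivity)]
  set P : ℝ := (V * s₀ / 2) ^ ((n : ℝ) / 2) with hP
  have hV := V_pos
  have hP0 : 0 < P := by positivity
  -- the volume side
  have h6 : |A.det| * (P * Real.exp (-(a * n))) ≤
      (2 * Real.pi * Real.exp 1 * (s₀ / 2 * μ) / n) ^ ((n : ℝ) / 2) := by
    have h7 : V * s₀ / 2 * Real.exp (-(2 * a)) * |A.det| ^ ((2 : ℝ) / n) ≤
        2 * Real.pi * Real.exp 1 * (s₀ / 2 * μ) / n := by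
      rw [le_div_iff₀ hn0, hgμ]
      calc V * s₀ / 2 * Real.exp (-(2 * a)) * |A.det| ^ ((2 : ℝ) / n) * n
          = Real.pi * Real.exp 1 * s₀ * |A.det| ^ ((2 : ℝ) / n) *
            (Real.exp (-(2 * a)) / Real.pi ^ 2 * n) := by
            unfold V
            field_simp
        _ ≤ Real.pi * Real.exp 1 * s₀ * |A.det| ^ ((2 : ℝ) / n) * g := by gcongr
        _ = _ := by ring
    have h8 := Real.rpow_le_rpow (by positivity) h7 hn2.le
    refine le_trans (le_of_eq ?_) h8
    rw [Real.mul_rpow (by positivity) (by positivity),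
      Real.mul_rpow (by positivity) (by positivity), ← Real.rpow_mul hA0.le, ← Real.exp_mul]
    have h9 : (2 : ℝ) / n * (n / 2) = 1 := by field_simp
    have h10 : -(2 * a) * ((n : ℝ) / 2) = -(a * n) := by ring
    rw [h9, Real.rpow_one, h10]
    ring
  have h7 := h6.trans h5
  rw [mul_assoc] at h7
  have h8 := le_of_mul_le_mul_left h7 hA0
  -- the three terms
  have hone : (1 : ℝ) ≤ P * Real.exp (-(7 * a * n)) := by
    have h9 : 1 + e ≤ V * s₀ / 2 := by
      have h10 : V * s₀ / 2 = (1 + e) * (s * Real.exp 1 / Real.pi) := by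
        unfold V
        rw [hs₀]
        ring
      rw [h10]
      have h11 : 1 ≤ s * Real.exp 1 / Real.pi := by
        rw [one_le_div hpi]
        rwa [div_le_iff₀ he0] at hs1
      nlinarith
    have h10 : Real.exp (14 * a) ≤ 1 + e := by
      have h11 : 14 * a ≤ e / 4 := by rw [hadef]; nlinarith
      have h12 : Real.exp (14 * a) ≤ Real.exp (e / 4) := Real.exp_le_exp.2 h11
      have h13 : Real.exp (e / 4) * Real.exp (-(e / 4)) = 1 := by
        rw [← Real.exp_add]; simp
      have h14 : 1 - e / 4 ≤ Real.exp (-(e / 4)) := by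
        have := Real.add_one_le_exp (-(e / 4))
        linarith
      have h15 : Real.exp (e / 4) * (1 - e / 4) ≤ 1 := by
        calc Real.exp (e / 4) * (1 - e / 4) ≤ Real.exp (e / 4) * Real.exp (-(e / 4)) := by gcongr
          _ = 1 := h13
      have h16 : 0 < Real.exp (e / 4) := Real.exp_pos _
      nlinarith
    have h11 : Real.exp (7 * a * n) ≤ P := by
      have h12 : Real.exp (7 * a * n) = Real.exp (14 * a) ^ ((n : ℝ) / 2) := by
        rw [← Real.exp_mul]; congr 1; ring
      rw [h12, hP]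
      exact Real.rpow_le_rpow (Real.exp_pos _).le (h10.trans h9) hn2.le
    have h12 : Real.exp (7 * a * n) * Real.exp (-(7 * a * n)) = 1 := by
      rw [← Real.exp_add]; simp
    rw [← h12]
    gcongr
  have hlayers : (V * s₀ / 2 * (1 - e ^ 2 / 4)) ^ ((n : ℝ) / 2) * Real.exp (a * n) ≤
      P * Real.exp (-(7 * a * n)) := by
    have h9 : 0 ≤ 1 - e ^ 2 / 4 := by nlinarith
    have h10 : 1 - e ^ 2 / 4 ≤ Real.exp (-(16 * a)) := by
      have := Real.add_one_le_exp (-(16 * a))
      have h11 : 16 * a = e ^ 2 / 4 := by rw [hadef]; ring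
      rw [h11] at this ⊢
      linarith
    rw [Real.mul_rpow (by positivity) h9]
    have h11 : (1 - e ^ 2 / 4) ^ ((n : ℝ) / 2) ≤ Real.exp (-(8 * a * n)) := by
      refine (Real.rpow_le_rpow h9 h10 hn2.le).trans (le_of_eq ?_)
      rw [← Real.exp_mul]; congr 1; ring
    calc (V * s₀ / 2) ^ ((n : ℝ) / 2) * (1 - e ^ 2 / 4) ^ ((n : ℝ) / 2) * Real.exp (a * n)
        ≤ P * Real.exp (-(8 * a * n)) * Real.exp (a * n) := by gcongr
      _ = P * Real.exp (-(7 * a * n)) := by
        rw [mul_assoc, ← Real.exp_add]; congr 2; ring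
  set N : ℝ := (nShort A ((1 + e) * s₀ * μ) : ℝ) with hN
  have hN0 : 0 ≤ N := Nat.cast_nonneg _
  have hsum : ∑' w, wt A (s₀ / 2 * μ) w ≤ N * ((1 + e) / 2) ^ ((n : ℝ) / 2) +
      (K + 1) * (P * Real.exp (-(7 * a * n))) := by
    refine h3.trans ?_
    have : (K : ℝ) * ((V * s₀ / 2 * (1 - e ^ 2 / 4)) ^ ((n : ℝ) / 2) * Real.exp (a * n)) ≤
        K * (P * Real.exp (-(7 * a * n))) := by gcongr
    linarith
  have h9 : P * Real.exp (-(a * n)) ≤
      (N * ((1 + e) / 2) ^ ((n : ℝ) / 2) + (K + 1) * (P * Real.exp (-(7 * a * n)))) * (3 * n) :=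
    h8.trans (by gcongr)
  have hsmall : (K + 1) * (P * Real.exp (-(7 * a * n))) * (3 * n) ≤
      P * Real.exp (-(a * n)) / 2 := by
    have h10 : Real.exp (-(7 * a * n)) * Real.exp (6 * a * n) = Real.exp (-(a * n)) := by
      rw [← Real.exp_add]; congr 1; ring
    have h11 : Real.exp (a * n) ≤ Real.exp (6 * a * n) := Real.exp_le_exp.2 (by
      have : 0 ≤ a * n := by positivity
      linarith)
    calc (K + 1) * (P * Real.exp (-(7 * a * n))) * (3 * n)
        = P * (Real.exp (-(7 * a * n)) * (6 * n * (K + 1))) / 2 := by ring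
      _ ≤ P * (Real.exp (-(7 * a * n)) * Real.exp (6 * a * n)) / 2 := by
        gcongr
        exact hb.trans h11
      _ = _ := by rw [h10]
  have h10 : P * Real.exp (-(a * n)) / 2 ≤ N * ((1 + e) / 2) ^ ((n : ℝ) / 2) * (3 * n) := by
    have : (N * ((1 + e) / 2) ^ ((n : ℝ) / 2) + (K + 1) * (P * Real.exp (-(7 * a * n)))) *
        (3 * n) = N * ((1 + e) / 2) ^ ((n : ℝ) / 2) * (3 * n) +
        (K + 1) * (P * Real.exp (-(7 * a * n))) * (3 * n) := by ring
    rw [this] at h9
    linarith
  have h11 : P * Real.exp (-(2 * a * n)) ≤ N * ((1 + e) / 2) ^ ((n : ℝ) / 2) := by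
    have h12 : 6 * (n : ℝ) ≤ Real.exp (a * n) := by
      refine le_trans ?_ hb
      have : (0 : ℝ) ≤ K := Nat.cast_nonneg _
      nlinarith
    have h13 : Real.exp (-(2 * a * n)) * Real.exp (a * n) = Real.exp (-(a * n)) := by
      rw [← Real.exp_add]; congr 1; ring
    have h14 : P * Real.exp (-(2 * a * n)) * (3 * n) ≤
        N * ((1 + e) / 2) ^ ((n : ℝ) / 2) * (3 * n) := by
      refine le_trans ?_ h10
      calc P * Real.exp (-(2 * a * n)) * (3 * n)
          = P * (Real.exp (-(2 * a * n)) * (6 * n)) / 2 := by ring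
        _ ≤ P * (Real.exp (-(2 * a * n)) * Real.exp (a * n)) / 2 := by gcongr
        _ = _ := by rw [h13]
    exact le_of_mul_le_mul_right h14 (by positivity)
  have h12 : P = (V * s) ^ ((n : ℝ) / 2) * ((1 + e) / 2) ^ ((n : ℝ) / 2) := by
    rw [hP, ← Real.mul_rpow (by positivity) (by positivity)]
    congr 1
    rw [hs₀]
    ring
  have h13 : (V * s) ^ ((n : ℝ) / 2) * Real.exp (-(2 * a * n)) ≤ N := by
    have h14 : 0 < ((1 + e) / 2) ^ ((n : ℝ) / 2) := by positivity
    rw [h12] at h11
    refine le_of_mul_le_mul_right (le_trans (le_of_eq ?_) h11) h14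
    ring
  have h14 : N ≤ nShort A ((1 + ε) * s * μ) := by
    rw [hN]
    refine Nat.cast_le.2 (nShort_mono A hA ?_)
    refine mul_le_mul_of_nonneg_right ?_ hμ.le
    rw [hs₀, ← mul_assoc]
    refine mul_le_mul_of_nonneg_right ?_ hs0.le
    nlinarith
  have h15 : Real.exp (-(ε * n)) ≤ Real.exp (-(2 * a * n)) := by
    refine Real.exp_le_exp.2 ?_
    have h16 : 2 * a ≤ ε := by
      have : 2 * a ≤ e := by rw [hadef]; nlinarith
      linarith
    have : 2 * a * n ≤ ε * n := by gcongr
    linarith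
  calc (2 * Real.exp 1 / Real.pi * s) ^ ((n : ℝ) / 2) * Real.exp (-(ε * n))
      ≤ (V * s) ^ ((n : ℝ) / 2) * Real.exp (-(2 * a * n)) := by
        unfold V
        gcongr
    _ ≤ N := h13
    _ ≤ _ := h14

end Pool.Agent.Lib.MP_ef2672_gt_Over.Shell
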