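import Pool.Agent.Lib.MP_ef2672_gt_Over.Shell
import Pool.Agent.Lib.MP_ef2672_gt_Over.LeanIff

/-!
MP_ef2672: given the upper bound for the shells of all lattices, the hypothesis on the short vectors
in `LeanUpper` and `LeanIff` is only needed for `s < 3.3`.
-/

set_option autoImplicit false

namespace Pool.Agent.Lib.MP_ef2672_gt_Over.Shell

open Pool.Agent.Lib.MP_ef2672_gt_Tauber Pool.Agent.Lib.EF_h73 MeasureTheory Filter Topology

lemma V_mul_le {s : ℝ} (h1 : 3.3 ≤ s) (h4 : s < 4) : 2 * Real.exp 1 / Real.pi * s ≤ 4 / (4 - s) := by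
  have h5 : 0 < 4 - s := by linarith
  have hpi := Real.pi_gt_d6
  have he := Real.exp_one_lt_d9
  have he0 := Real.exp_pos 1
  have hpi0 := Real.pi_pos
  rw [div_mul_eq_mul_div, div_le_div_iff₀ hpi0 h5]
  have h6 : s * (4 - s) ≤ 2.31 := by nlinarith
  calc 2 * Real.exp 1 * s * (4 - s) = 2 * Real.exp 1 * (s * (4 - s)) := by ring
    _ ≤ 2 * Real.exp 1 * 2.31 := by gcongr
    _ ≤ 4 * Real.pi := by linarith

/-- The class of lattices with few short vectors, `s < 3.3`. -/
theorem lean_upper' (hU : Upper) : ∀ ε : ℝ, 0 < ε → ∃ δ : ℝ, 0 < δ ∧ ∀ᶠ n : ℕ in atTop,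
    ∀ A : Matrix (Fin n) (Fin n) ℝ, A.det ≠ 0 → (∀ s : ℝ, 1 ≤ s → s < 3.3 →
      (nShort A (s * minSq A) : ℝ) ≤ (4 / (4 - s)) ^ ((n : ℝ) / 2) * Real.exp (δ * n)) →
    inv A ≤ (c0 + ε) * n := by
  intro ε hε
  obtain ⟨δ, hδ, hev⟩ := FewShort.lean_upper ε hε
  refine ⟨δ, hδ, ?_⟩
  filter_upwards [hev, hU δ hδ 4] with n h1 h2 A hA h3
  refine h1 A hA fun s hs1 hs4 => ?_
  rcases lt_or_ge s 3.3 with h | h
  · exact h3 s hs1 h
  · refine (h2 A hA s hs1 hs4.le).trans ?_
    have h5 : 0 < 4 - s := by linarith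
    have h6 := V_mul_le h hs4
    have h7 : 0 ≤ 2 * Real.exp 1 / Real.pi * s := by positivity
    gcongr

/-- The value `c₀` of the limit and the lattices with few short vectors, `s < 3.3`. -/
theorem leanIff' (hU : Upper) :
    Tendsto c atTop (𝓝 c0) ↔ ∀ ε : ℝ, 0 < ε → ∀ᶠ n : ℕ in atTop,
      ∃ A : Matrix (Fin n) (Fin n) ℝ, A.det ≠ 0 ∧ (1 - ε) * gamma n ≤ inv A ∧
        ∀ s : ℝ, 1 ≤ s → s < 3.3 →
          (nShort A (s * minSq A) : ℝ) ≤ s ^ ((n : ℝ) / 2) * Real.exp (ε * n) := by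
  have hc0 := c0_pos
  constructor
  · intro h ε hε
    filter_upwards [(leanIff FewShort.lean_upper).1 h ε hε] with n hn
    obtain ⟨A, h1, h2, h3⟩ := hn
    exact ⟨A, h1, h2, fun s hs1 hs => h3 s hs1 (by linarith)⟩
  · intro h
    rw [tendsto_order]
    constructor
    · intro a ha
      obtain ⟨ε, hε, hlt⟩ : ∃ ε : ℝ, 0 < ε ∧ a < c0 * Real.exp (-ε) := by
        have hcont : Continuous (fun ε : ℝ => c0 * Real.exp (-ε)) := by fun_prop
        have h1 : ∀ᶠ ε in 𝓝 (0 : ℝ), a < c0 * Real.exp (-ε) := by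
          have := hcont.tendsto 0
          rw [neg_zero, Real.exp_zero, mul_one] at this
          exact this.eventually_const_lt ha
        have h2 : ∀ᶠ ε in 𝓝[>] (0 : ℝ), a < c0 * Real.exp (-ε) :=
          h1.filter_mono nhdsWithin_le_nhds
        obtain ⟨ε, hε1, hε2⟩ := (h2.and self_mem_nhdsWithin).exists
        exact ⟨ε, hε2, hε1⟩
      filter_upwards [mh_le_c ε hε] with n hn
      linarith
    · intro b hb
      set ε : ℝ := (b - c0) / 3 with hε
      have hε0 : 0 < ε := by rw [hε]; linarith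
      obtain ⟨δ, hδ, hev⟩ := lean_upper' hU ε hε0
      set ε' : ℝ := min δ (ε / (c0 + 2 * ε)) with hε'
      have hε'0 : 0 < ε' := lt_min hδ (by positivity)
      have hε'1 : ε' * (c0 + 2 * ε) ≤ ε := by
        have h1 : ε' ≤ ε / (c0 + 2 * ε) := min_le_right _ _
        rwa [le_div_iff₀ (by positivity)] at h1
      have hε'2 : ε' < 1 := by
        by_contra hge
        push Not at hge
        nlinarith
      filter_upwards [hev, h ε' hε'0, eventually_gt_atTop 0] with n hup' hA hn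
      obtain ⟨A, hA0, hA1, hA2⟩ := hA
      have hn0 : (0 : ℝ) < n := by exact_mod_cast hn
      have h1 : inv A ≤ (c0 + ε) * n := by
        refine hup' A hA0 fun s hs1 hs4 => (hA2 s hs1 hs4).trans ?_
        have h4s : 0 < 4 - s := by linarith
        have h2 : s ≤ 4 / (4 - s) := by
          rw [le_div_iff₀ h4s]
          nlinarith [sq_nonneg (s - 2)]
        have h3 : Real.exp (ε' * n) ≤ Real.exp (δ * n) :=
          Real.exp_le_exp.2 (mul_le_mul_of_nonneg_right (min_le_left _ _) hn0.le)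
        have h4 : s ^ ((n : ℝ) / 2) ≤ (4 / (4 - s)) ^ ((n : ℝ) / 2) :=
          Real.rpow_le_rpow (by linarith) h2 (by positivity)
        exact mul_le_mul h4 h3 (Real.exp_pos _).le (by positivity)
      have h2 : c n * (1 - ε') ≤ c0 + ε := by
        have h3 : c n * n = gamma n := by unfold c; field_simp
        have h4 : c n * (1 - ε') * n ≤ (c0 + ε) * n := by
          calc c n * (1 - ε') * n = (1 - ε') * (c n * n) := by ring
            _ = (1 - ε') * gamma n := by rw [h3]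
            _ ≤ (c0 + ε) * n := hA1.trans h1
        exact le_of_mul_le_mul_right h4 hn0
      have h3 : c n * (1 - ε') ≤ (c0 + 2 * ε) * (1 - ε') := by nlinarith
      have h4 : c n ≤ c0 + 2 * ε := le_of_mul_le_mul_right h3 (by linarith)
      have h5 : c0 + 2 * ε < b := by rw [hε]; linarith
      linarith

end Pool.Agent.Lib.MP_ef2672_gt_Over.Shell
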