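import Pool.Agent.Lib.MP_ef2672_gt_Over.Cover
import Pool.Agent.Lib.MP_ef2672_gt_Over.Direct
import Pool.Agent.Lib.MP_ef2672_gt_Tauber.Counts

/-!
R5: sparse lattices, with the overlap correction, have the same asymptotic constants.
-/

set_option autoImplicit false

namespace Pool.Agent.Lib.MP_ef2672_gt_Over

open Pool.Agent.Lib.MP_ef2672_gt_Tauber Pool.Agent.Lib.EF_h73 MeasureTheory Filter Topology

lemma overlap_le {n : ℕ} (hn : 0 < n) (A : Matrix (Fin n) (Fin n) ℝ) (hA : A.det ≠ 0) :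
    overlap A ≤ (9 * n : ℝ) ^ ((2 : ℝ) / n) * gamma n := by
  have hn0 : (0:ℝ) < n := by exact_mod_cast hn
  have hA0 : 0 < |A.det| := abs_pos.2 hA
  have hg : 0 < gamma n := by
    have h := c_pos hn
    unfold c at h
    exact (div_pos_iff_of_pos_right hn0).1 h
  have hc := cov_nonneg A (minSq A)
  rcases (minSq_nonneg A).eq_or_lt with h0 | h0
  · have h1 : overlap A = 0 := by
      unfold overlap inv
      rw [← h0, zero_div, zero_div]
    rw [h1]
    positivity
  · have h1 := cover_statement n hn A hA (minSq A) h0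
    rw [nShort_minSq] at h1
    simp only [zero_le, sup_of_le_left, Nat.cast_one, mul_one] at h1
    have hlam : 0 < minSq A / gamma n := by positivity
    have h2 : minSq A / gamma n ≤ (9 * n * |A.det| * cov A (minSq A)) ^ ((2 : ℝ) / n) := by
      calc minSq A / gamma n = ((minSq A / gamma n) ^ ((n : ℝ) / 2)) ^ ((2 : ℝ) / n) := by
            rw [← Real.rpow_mul hlam.le]
            have : (n : ℝ) / 2 * (2 / n) = 1 := by field_simp
            rw [this, Real.rpow_one]
        _ ≤ _ := Real.rpow_le_rpow (by positivity) h1 (by positivity)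
    rw [Real.mul_rpow (by positivity) hc, Real.mul_rpow (by positivity) hA0.le] at h2
    unfold overlap inv
    rcases hc.eq_or_lt with hc0 | hc0
    · rw [← hc0, Real.zero_rpow (by positivity), mul_zero] at h2
      linarith
    · rw [div_le_iff₀ (Real.rpow_pos_of_pos hc0 _), div_le_iff₀ (Real.rpow_pos_of_pos hA0 _)]
      rw [div_le_iff₀ hg] at h2
      linarith

lemma sparse_bdd {n : ℕ} (hn : 0 < n) (f : ℕ → ℝ) :
    BddAbove (Set.range fun A : {A : Matrix (Fin n) (Fin n) ℝ // A.det ≠ 0 ∧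
      f n * minSq A ^ ((n : ℝ) / 2) ≤ |A.det|} => overlap A.1) := by
  refine ⟨(9 * n : ℝ) ^ ((2 : ℝ) / n) * gamma n, ?_⟩
  rintro _ ⟨A, rfl⟩
  exact overlap_le hn A.1 A.2.1

lemma overlap_nonneg {n : ℕ} (A : Matrix (Fin n) (Fin n) ℝ) : 0 ≤ overlap A :=
  div_nonneg (inv_nonneg A) (Real.rpow_nonneg (cov_nonneg A _) _)

lemma sparse_nonneg (f : ℕ → ℝ) (n : ℕ) : 0 ≤ sparse f n :=
  div_nonneg (Real.iSup_nonneg fun A => overlap_nonneg A.1) (Nat.cast_nonneg n)

lemma sparse_le {n : ℕ} (hn : 0 < n) (f : ℕ → ℝ) :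
    sparse f n ≤ (9 * n : ℝ) ^ ((2 : ℝ) / n) * c n := by
  have hn0 : (0:ℝ) < n := by exact_mod_cast hn
  unfold sparse c
  rw [mul_div_assoc']
  refine div_le_div_of_nonneg_right ?_ hn0.le
  have hg := gamma_nonneg n
  exact Real.iSup_le (fun A => overlap_le hn A.1 A.2.1) (by positivity)

lemma sparse_ge : ∃ C : ℝ, 1 ≤ C ∧ ∀ (f : ℕ → ℝ) (n : ℕ), 0 < n →
    (n / (n + 1) * (C * n : ℝ) ^ (-(1 : ℝ) / (n + 1))) * c n ≤ sparse f (n + 1) := by
  obtain ⟨C, hC, h⟩ := direct_statement
  refine ⟨C, hC, fun f n hn => ?_⟩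
  have hn0 : (0:ℝ) < n := by exact_mod_cast hn
  have hC0 : 0 < C := by linarith
  set T : ℝ := sparse f (n + 1) * (n + 1) with hT
  have hT0 : 0 ≤ T := mul_nonneg (sparse_nonneg f _) (by positivity)
  have key : ∀ A : Matrix (Fin n) (Fin n) ℝ, A.det ≠ 0 →
      (inv A) ^ ((n : ℝ) / (n + 1)) * (1 / C) ^ ((1 : ℝ) / (n + 1)) ≤ T := by
    intro A hA
    obtain ⟨B, hB, hD, hmin, hover⟩ := h n 1 hn one_pos A hA
      (f (n + 1) * minSq A ^ (((n + 1 : ℕ) : ℝ) / 2))
    have hle := le_ciSup (sparse_bdd (Nat.succ_pos n) f) ⟨B, hB, by rw [hmin]; exact hD⟩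
    have hT' : T = ⨆ A : {A : Matrix (Fin (n + 1)) (Fin (n + 1)) ℝ // A.det ≠ 0 ∧
        f (n + 1) * minSq A ^ (((n + 1 : ℕ) : ℝ) / 2) ≤ |A.det|}, overlap A.1 := by
      rw [hT]
      unfold sparse
      push_cast
      rw [div_mul_cancel₀]
      positivity
    rw [hT']
    refine le_trans ?_ hle
    push_cast at hover
    exact hover
  have hgle : gamma n ≤ (T * C ^ ((1 : ℝ) / (n + 1))) ^ (((n : ℝ) + 1) / n) := by
    unfold gamma
    refine Real.iSup_le (fun A => ?_) (by positivity)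
    have h1 := key A.1 A.2
    have h2 : (inv A.1) ^ ((n : ℝ) / (n + 1)) ≤ T * C ^ ((1 : ℝ) / (n + 1)) := by
      rw [one_div, Real.inv_rpow hC0.le, ← div_eq_mul_inv,
        div_le_iff₀ (Real.rpow_pos_of_pos hC0 _)] at h1
      exact h1
    calc inv A.1 = ((inv A.1) ^ ((n : ℝ) / (n + 1))) ^ (((n : ℝ) + 1) / n) := by
          rw [← Real.rpow_mul (inv_nonneg A.1)]
          have : (n : ℝ) / (n + 1) * ((n + 1) / n) = 1 := by field_simp
          rw [this, Real.rpow_one]
      _ ≤ _ := Real.rpow_le_rpow (Real.rpow_nonneg (inv_nonneg A.1) _) h2 (by positivity)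
  have hg : 0 < gamma n := by
    have h := c_pos hn
    unfold c at h
    exact (div_pos_iff_of_pos_right hn0).1 h
  have h3 : gamma n ^ ((n : ℝ) / (n + 1)) ≤ T * C ^ ((1 : ℝ) / (n + 1)) := by
    calc gamma n ^ ((n : ℝ) / (n + 1)) ≤
        ((T * C ^ ((1 : ℝ) / (n + 1))) ^ (((n : ℝ) + 1) / n)) ^ ((n : ℝ) / (n + 1)) :=
          Real.rpow_le_rpow hg.le hgle (by positivity)
      _ = _ := by
          rw [← Real.rpow_mul (by positivity)]
          have : ((n : ℝ) + 1) / n * (n / (n + 1)) = 1 := by field_simp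
          rw [this, Real.rpow_one]
  -- γ = γ^(n/(n+1)) γ^(1/(n+1)) ≤ T C^(1/(n+1)) n^(1/(n+1))
  have h4 : gamma n ≤ T * (C * n) ^ ((1 : ℝ) / (n + 1)) := by
    have h5 : gamma n = gamma n ^ ((n : ℝ) / (n + 1)) * gamma n ^ ((1 : ℝ) / (n + 1)) := by
      rw [← Real.rpow_add hg]
      have : (n : ℝ) / (n + 1) + 1 / (n + 1) = 1 := by field_simp
      rw [this, Real.rpow_one]
    have h6 : gamma n ^ ((1 : ℝ) / (n + 1)) ≤ (n : ℝ) ^ ((1 : ℝ) / (n + 1)) :=
      Real.rpow_le_rpow hg.le (gamma_le hn) (by positivity)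
    rw [h5, Real.mul_rpow hC0.le hn0.le, ← mul_assoc]
    exact mul_le_mul h3 h6 (by positivity) (by positivity)
  have h7 : 0 < (C * n : ℝ) ^ ((1 : ℝ) / (n + 1)) := by positivity
  have h8 : (C * n : ℝ) ^ (-(1 : ℝ) / (n + 1)) = ((C * n : ℝ) ^ ((1 : ℝ) / (n + 1)))⁻¹ := by
    rw [neg_div, Real.rpow_neg (by positivity)]
  rw [h8]
  unfold c
  have h9 : (n / (n + 1) * ((C * n : ℝ) ^ ((1 : ℝ) / (n + 1)))⁻¹) * (gamma n / n) =
      gamma n / ((C * n : ℝ) ^ ((1 : ℝ) / (n + 1))) / (n + 1) := by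
    field_simp
  rw [h9, div_le_iff₀ (by positivity), div_le_iff₀ h7]
  exact h4

lemma compare (a b e : ℕ → ℝ) (ha : ∀ n, 0 ≤ a n ∧ a n ≤ 1) (hb0 : ∀ n, 0 ≤ b n)
    (he : Tendsto e atTop (𝓝 0)) (h1 : ∀ᶠ n in atTop, b n ≤ a n + e n)
    (h2 : ∀ᶠ n in atTop, a n ≤ b (n + 1) + e n) :
    limsup b atTop = limsup a atTop ∧ ∀ l, Tendsto b atTop (𝓝 l) ↔ Tendsto a atTop (𝓝 l) := by
  have hbdd : IsBoundedUnder (· ≤ ·) atTop a := isBoundedUnder_of ⟨1, fun n => (ha n).2⟩
  have hbdd0 : IsBoundedUnder (· ≥ ·) atTop a := isBoundedUnder_of ⟨0, fun n => (ha n).1⟩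
  have hb1 : ∀ᶠ n in atTop, b n ≤ 2 := by
    filter_upwards [h1, he.eventually_lt_const (show (0:ℝ) < 1 by norm_num)] with n hn1 hn2
    have := (ha n).2
    linarith
  have hbb : IsBoundedUnder (· ≤ ·) atTop b := ⟨2, hb1⟩
  have hbb0 : IsBoundedUnder (· ≥ ·) atTop b := isBoundedUnder_of ⟨0, fun n => hb0 n⟩
  constructor
  · apply le_antisymm
    · refine le_of_forall_pos_le_add fun δ hδ => ?_
      refine limsup_le_of_le hbb0.isCoboundedUnder_le ?_
      filter_upwards [h1, he.eventually_lt_const (show (0:ℝ) < δ / 2 by linarith),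
        eventually_lt_of_limsup_lt (show limsup a atTop < limsup a atTop + δ / 2 by linarith)
          hbdd] with n hn1 hn2 hn3
      linarith
    · refine le_of_forall_pos_le_add fun δ hδ => ?_
      refine limsup_le_of_le hbdd0.isCoboundedUnder_le ?_
      have h3 := eventually_lt_of_limsup_lt
        (show limsup b atTop < limsup b atTop + δ / 2 by linarith) hbb
      filter_upwards [h2, he.eventually_lt_const (show (0:ℝ) < δ / 2 by linarith),
        (tendsto_add_atTop_nat 1).eventually h3] with n hn1 hn2 hn3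
      linarith
  · intro l
    constructor
    · intro hl
      have hl' : Tendsto (fun n => b (n + 1)) atTop (𝓝 l) := hl.comp (tendsto_add_atTop_nat 1)
      refine tendsto_of_tendsto_of_tendsto_of_le_of_le' (g := fun n => b n - e n)
        (h := fun n => b (n + 1) + e n) ?_ ?_ ?_ h2
      · simpa using hl.sub he
      · simpa using hl'.add he
      · filter_upwards [h1] with n hn
        linarith
    · intro hl
      rw [← tendsto_add_atTop_iff_nat 1]
      have hl' : Tendsto (fun n => a (n + 1)) atTop (𝓝 l) := hl.comp (tendsto_add_atTop_nat 1)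
      have he' : Tendsto (fun n => e (n + 1)) atTop (𝓝 0) := he.comp (tendsto_add_atTop_nat 1)
      refine tendsto_of_tendsto_of_tendsto_of_le_of_le' (g := fun n => a n - e n)
        (h := fun n => a (n + 1) + e (n + 1)) ?_ ?_ ?_ ?_
      · simpa using hl.sub he
      · simpa using hl'.add he'
      · filter_upwards [h2] with n hn
        linarith
      · exact (tendsto_add_atTop_nat 1).eventually h1

lemma upper_factor : Tendsto (fun n : ℕ => (9 * n : ℝ) ^ ((2 : ℝ) / n)) atTop (𝓝 1) := by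
  have h1 : Tendsto (fun x : ℝ => x ^ (1 / x)) atTop (𝓝 1) := tendsto_rpow_div
  have h2 : Tendsto (fun n : ℕ => (9 * n : ℝ)) atTop atTop :=
    tendsto_natCast_atTop_atTop.const_mul_atTop (by norm_num)
  have h3 := (h1.comp h2).pow 18
  simp only [one_pow] at h3
  refine h3.congr' ?_
  filter_upwards [eventually_gt_atTop 0] with n hn
  have hn0 : (0:ℝ) < n := by exact_mod_cast hn
  simp only [Function.comp]
  rw [← Real.rpow_natCast, ← Real.rpow_mul (by positivity)]
  congr 1
  push_cast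
  field_simp
  norm_num

lemma lower_factor {C : ℝ} (hC : 1 ≤ C) :
    Tendsto (fun n : ℕ => (n : ℝ) / (n + 1) * (C * n : ℝ) ^ (-(1 : ℝ) / (n + 1))) atTop (𝓝 1) := by
  have hC0 : 0 < C := by linarith
  have h0 : Tendsto (fun n : ℕ => (n : ℝ) / (n + 1)) atTop (𝓝 1) :=
    tendsto_natCast_div_add_atTop 1
  have h1 : Tendsto (fun x : ℝ => x ^ (1 / x)) atTop (𝓝 1) := tendsto_rpow_div
  have h2 : Tendsto (fun n : ℕ => (C * n : ℝ)) atTop atTop :=
    tendsto_natCast_atTop_atTop.const_mul_atTop hC0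
  have h3 := h1.comp h2
  -- exponent -1/(n+1) = (1/(C n)) * (-(C n)/(n+1))
  have h4 : Tendsto (fun n : ℕ => -(C * (n : ℝ) / (n + 1))) atTop (𝓝 (-C)) := by
    have := (h0.const_mul C).neg
    simp only [mul_one] at this
    refine this.congr fun n => ?_
    rw [mul_div_assoc]
  have h5 := h3.rpow h4 (Or.inl one_ne_zero)
  rw [Real.one_rpow] at h5
  have h6 := h0.mul h5
  rw [mul_one] at h6
  refine h6.congr' ?_
  filter_upwards [eventually_gt_atTop 0] with n hn
  have hn0 : (0:ℝ) < n := by exact_mod_cast hn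
  simp only [Function.comp]
  rw [← Real.rpow_mul (by positivity)]
  congr 2
  field_simp

/-- R5. -/
theorem sparse_statement : SparseStatement := by
  intro f
  obtain ⟨C, hC, hge⟩ := sparse_ge
  set u : ℕ → ℝ := fun n => (9 * n : ℝ) ^ ((2 : ℝ) / n) with hu
  set v : ℕ → ℝ := fun n => (n : ℝ) / (n + 1) * (C * n : ℝ) ^ (-(1 : ℝ) / (n + 1)) with hv
  have hut : Tendsto u atTop (𝓝 1) := upper_factor
  have hvt : Tendsto v atTop (𝓝 1) := lower_factor hC
  set e : ℕ → ℝ := fun n => |u n - 1| + |v n - 1| with he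
  have het : Tendsto e atTop (𝓝 0) := by
    have h1 : Tendsto (fun n => |u n - 1|) atTop (𝓝 0) := by
      have := (hut.sub_const 1).abs
      simpa using this
    have h2 : Tendsto (fun n => |v n - 1|) atTop (𝓝 0) := by
      have := (hvt.sub_const 1).abs
      simpa using this
    simpa using h1.add h2
  refine compare c (sparse f) e (fun n => ⟨c_nonneg n, c_le_one n⟩) (sparse_nonneg f) het ?_ ?_
  · filter_upwards [eventually_gt_atTop 0] with n hn
    have h1 := sparse_le hn f
    have h2 := c_nonneg n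
    have h3 := c_le_one n
    have h4 : u n * c n ≤ c n + |u n - 1| := by
      have h5 : (u n - 1) * c n ≤ |u n - 1| := by
        calc (u n - 1) * c n ≤ |u n - 1| * c n :=
              mul_le_mul_of_nonneg_right (le_abs_self _) h2
          _ ≤ |u n - 1| * 1 := mul_le_mul_of_nonneg_left h3 (abs_nonneg _)
          _ = |u n - 1| := mul_one _
      linarith
    have h6 := abs_nonneg (v n - 1)
    simp only [he]
    have h7 : sparse f n ≤ u n * c n := h1
    linarith
  · filter_upwards [eventually_gt_atTop 0] with n hn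
    have h1 : v n * c n ≤ sparse f (n + 1) := hge f n hn
    have h2 := c_nonneg n
    have h3 := c_le_one n
    have h4 : c n ≤ v n * c n + |v n - 1| := by
      have h5 : (1 - v n) * c n ≤ |v n - 1| := by
        calc (1 - v n) * c n ≤ |v n - 1| * c n := by
              refine mul_le_mul_of_nonneg_right ?_ h2
              rw [abs_sub_comm]
              exact le_abs_self _
          _ ≤ |v n - 1| * 1 := mul_le_mul_of_nonneg_left h3 (abs_nonneg _)
          _ = |v n - 1| := mul_one _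
      linarith
    have h6 := abs_nonneg (u n - 1)
    simp only [he]
    linarith

end Pool.Agent.Lib.MP_ef2672_gt_Over
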