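import Pool.Agent.Lib.MP_ef2672_gt_Over.Rogers
import Pool.Agent.Lib.MP_ef2672_gt_Sym.Index

/-!
Sublattices without short vectors, classes modulo a sublattice, and the number of lattice points
near a point.
-/

set_option autoImplicit false

namespace Pool.Agent.Lib.MP_ef2672_gt_Over

open Pool.Agent.Lib.MP_ef2672_gt_Tauber Pool.Agent.Lib.EF_h73 MeasureTheory Filter Topology

/-- The integer matrix of the sublattice `∑ a_j x_j ≡ 0 (mod p)`, `a_k = 1`. -/
def subZ {n : ℕ} (p : ℕ) (k : Fin n) (a : Fin n → ℤ) : Matrix (Fin n) (Fin n) ℤ :=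
  (1 : Matrix (Fin n) (Fin n) ℤ).updateRow k (fun j => if j = k then (p : ℤ) else -a j)

lemma subZ_det {n : ℕ} (p : ℕ) (k : Fin n) (a : Fin n → ℤ) : (subZ p k a).det = p := by
  unfold subZ
  rw [← Matrix.cramer_transpose_apply, Matrix.transpose_one, Matrix.cramer_one]
  simp

lemma subMat_eq {n : ℕ} (p : ℕ) (k : Fin n) (a : Fin n → ℤ) :
    subMat p k a = (subZ p k a).map (Int.cast : ℤ → ℝ) := by
  ext i j
  unfold subMat subZ
  rw [Matrix.map_apply]
  by_cases hi : i = k
  · subst hi
    rw [Matrix.updateRow_self, Matrix.updateRow_self]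
    split_ifs <;> push_cast <;> rfl
  · rw [Matrix.updateRow_ne hi, Matrix.updateRow_ne hi, Matrix.one_apply, Matrix.one_apply]
    split_ifs <;> push_cast <;> rfl

/-- A lattice with `N` nonzero vectors of squared length less than `r` has a sublattice of index at
most `max 1 N` without such vectors; the matrix of the sublattice is kept. -/
theorem exists_sub {n : ℕ} (hn : 0 < n) (A : Matrix (Fin n) (Fin n) ℝ) (hA : A.det ≠ 0)
    (r : ℝ) : ∃ S : Matrix (Fin n) (Fin n) ℤ, 0 < S.det.natAbs ∧
      S.det.natAbs ≤ max 1 (nShort A r) ∧ r ≤ minSq (A * S.map (Int.cast : ℤ → ℝ)) := by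
  classical
  have hfin := finite_short A hA r
  set F : Finset (Fin n → ℤ) := hfin.toFinset with hF
  have hFmem : ∀ w, w ∈ F ↔ w ≠ 0 ∧ normSq A w < r := fun w => by
    rw [hF, Set.Finite.mem_toFinset]; rfl
  have hcard : nShort A r = F.card := by
    unfold nShort
    rw [hF]
    exact Set.ncard_eq_toFinset_card _ hfin
  by_cases hN : F.card = 0
  · refine ⟨1, by simp, by simp, ?_⟩
    rw [Matrix.map_one _ Int.cast_zero Int.cast_one, Matrix.mul_one]
    refine le_minSq hn A fun w hw => ?_
    by_contra hlt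
    push Not at hlt
    have : w ∈ F := (hFmem w).2 ⟨hw, hlt⟩
    rw [Finset.card_eq_zero] at hN
    rw [hN] at this
    exact Finset.notMem_empty _ this
  · have hneg : ∀ w ∈ F, -w ∈ F := by
      intro w hw
      rw [hFmem] at hw ⊢
      refine ⟨neg_ne_zero.2 hw.1, ?_⟩
      have h1 := normSq_smul A w (-1)
      rw [neg_one_smul] at h1
      rw [h1]
      norm_num
      exact hw.2
    have h2 : 2 ≤ F.card := by
      obtain ⟨w, hw⟩ := Finset.card_pos.1 (Nat.pos_of_ne_zero hN)
      have hne : w ≠ -w := by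
        intro h
        apply ((hFmem w).1 hw).1
        ext j
        have := congrFun h j
        simp only [Pi.neg_apply] at this
        simp only [Pi.zero_apply]
        omega
      calc 2 = ({w, -w} : Finset (Fin n → ℤ)).card := (Finset.card_pair hne).symm
        _ ≤ F.card := Finset.card_le_card (by
          intro v hv
          rw [Finset.mem_insert, Finset.mem_singleton] at hv
          rcases hv with rfl | rfl
          · exact hw
          · exact hneg w hw)
    obtain ⟨p, hp, hlt, hle⟩ := Nat.exists_prime_lt_and_le_two_mul (F.card / 2) (by omega)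
    have hpF : F.card < 2 * p := by omega
    have hpN : p ≤ F.card := by omega
    have hfact : Fact p.Prime := ⟨hp⟩
    have hp0 : (0 : ℤ) < p := by exact_mod_cast hp.pos
    -- no short vector is divisible by `p`
    have hmod : ∀ w ∈ F, (fun j => ((w j : ℤ) : ZMod p)) ≠ 0 := by
      intro w hw hzero
      have hdvd : ∀ j, (p : ℤ) ∣ w j := fun j =>
        (ZMod.intCast_zmod_eq_zero_iff_dvd _ _).1 (congrFun hzero j)
      choose u hu using hdvd
      have hwu : w = (p : ℤ) • u := by
        ext j; rw [Pi.smul_apply, smul_eq_mul, hu j]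
      have hu0 : u ≠ 0 := by
        rintro rfl
        apply ((hFmem w).1 hw).1
        rw [hwu, smul_zero]
      have hnw : (p : ℝ) ^ 2 * normSq A u < r := by
        have := ((hFmem w).1 hw).2
        rw [hwu, normSq_smul] at this
        exact_mod_cast this
      -- the multiples `k u`, `1 ≤ |k| ≤ p`
      let S : Finset ℤ := (Finset.Icc (-(p : ℤ)) p).erase 0
      have hScard : S.card = 2 * p := by
        rw [Finset.card_erase_of_mem (by rw [Finset.mem_Icc]; omega), Int.card_Icc]
        omega
      have hinj : Set.InjOn (fun k : ℤ => k • u) (S : Set ℤ) := by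
        intro k _ l _ hkl
        obtain ⟨j, hj⟩ : ∃ j, u j ≠ 0 := by
          by_contra hcon
          push Not at hcon
          exact hu0 (funext hcon)
        have h3 := congrFun hkl j
        simp only [Pi.smul_apply, smul_eq_mul] at h3
        exact mul_right_cancel₀ hj h3
      have hsub : S.image (fun k : ℤ => k • u) ⊆ F := by
        intro v hv
        rw [Finset.mem_image] at hv
        obtain ⟨k, hk, rfl⟩ := hv
        have hk' := Finset.mem_erase.1 hk
        have hk'' := Finset.mem_Icc.1 hk'.2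
        rw [hFmem]
        refine ⟨smul_ne_zero hk'.1 hu0, ?_⟩
        rw [normSq_smul]
        refine lt_of_le_of_lt (mul_le_mul_of_nonneg_right ?_ (normSq_nonneg A u)) hnw
        have h4 : k ^ 2 ≤ (p : ℤ) ^ 2 := sq_le_sq' hk''.1 hk''.2
        exact_mod_cast h4
      have := Finset.card_le_card hsub
      rw [Finset.card_image_of_injOn hinj, hScard] at this
      omega
    obtain ⟨a, ha0, ha⟩ := exists_residue hn F hneg (fun w hw => ((hFmem w).1 hw).1) hpF hmod
    obtain ⟨k, hk⟩ : ∃ k, a k ≠ 0 := by
      by_contra hcon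
      push Not at hcon
      exact ha0 (funext hcon)
    let b : Fin n → ℤ := fun j => ((a k)⁻¹ * a j).val
    have hbk : b k = 1 := by
      simp only [b]
      rw [inv_mul_cancel₀ hk]
      have : Fact (1 < p) := ⟨hp.one_lt⟩
      rw [ZMod.val_one]
      rfl
    have hb : ∀ j, ((b j : ℤ) : ZMod p) = (a k)⁻¹ * a j := by
      intro j
      simp only [b]
      push_cast
      rw [ZMod.natCast_val, ZMod.cast_id', id]
    refine ⟨subZ p k b, ?_, ?_, ?_⟩
    · rw [subZ_det, Int.natAbs_natCast]
      exact hp.pos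
    · rw [subZ_det, Int.natAbs_natCast, hcard]
      exact le_max_of_le_right hpN
    · rw [← subMat_eq]
      refine le_minSq hn _ fun w hw => ?_
      rw [← Matrix.mulVec_mulVec]
      obtain ⟨x, hx1, hx2, hx3⟩ := subMat_mulVec p k b hbk w
      rw [hx1]
      have hx0 : x ≠ 0 := by
        rintro rfl
        apply hw
        ext i
        by_cases hi : i = k
        · simp only [Pi.zero_apply, mul_zero, Finset.sum_const_zero] at hx2
          rw [hi]
          exact (mul_eq_zero.1 hx2.symm).resolve_left hp0.ne'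
        · rw [← hx3 i hi]
      by_contra hlt
      push Not at hlt
      have hxF : x ∈ F := (hFmem x).2 ⟨hx0, hlt⟩
      apply ha x hxF
      have h5 := congrArg (fun z : ℤ => (z : ZMod p)) hx2
      push_cast at h5
      rw [ZMod.natCast_self, zero_mul] at h5
      have h6 : ∑ j, ((b j : ℤ) : ZMod p) * ((x j : ℤ) : ZMod p) =
          (a k)⁻¹ * ∑ j, a j * ((x j : ℤ) : ZMod p) := by
        rw [Finset.mul_sum]
        refine Finset.sum_congr rfl fun j _ => ?_
        rw [hb, mul_assoc]
      rw [h5] at h6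
      exact (mul_eq_zero.1 h6.symm).resolve_left (inv_ne_zero hk)

/-- The subgroup `N ℤⁿ`. -/
def img {n : ℕ} (N : Matrix (Fin n) (Fin n) ℤ) : AddSubgroup (Fin n → ℤ) :=
  (LinearMap.range N.mulVecLin).toAddSubgroup

lemma mem_img {n : ℕ} (N : Matrix (Fin n) (Fin n) ℤ) (x : Fin n → ℤ) :
    x ∈ img N ↔ ∃ w, N.mulVec w = x := Iff.rfl

lemma mulVec_inj {n : ℕ} (N : Matrix (Fin n) (Fin n) ℤ) (hN : N.det ≠ 0) :
    Function.Injective N.mulVecLin := by
  rw [← LinearMap.ker_eq_bot, LinearMap.ker_eq_bot']
  intro w hw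
  have h1 : (N.adjugate * N).mulVec w = 0 := by
    rw [← Matrix.mulVec_mulVec]
    have : N.mulVec w = 0 := hw
    rw [this, Matrix.mulVec_zero]
  rw [Matrix.adjugate_mul, Matrix.smul_mulVec, Matrix.one_mulVec] at h1
  exact (smul_eq_zero.1 h1).resolve_left hN

lemma card_img {n : ℕ} (N : Matrix (Fin n) (Fin n) ℤ) (hN : N.det ≠ 0) :
    Nat.card ((Fin n → ℤ) ⧸ img N) = N.det.natAbs := by
  have h := Pool.Agent.Lib.MP_ef2672_gt_Sym.index_range N.mulVecLin (mulVec_inj N hN)
  have h2 : LinearMap.det N.mulVecLin = N.det := by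
    rw [← Matrix.toLin'_apply', LinearMap.det_toLin']
  rw [h2] at h
  exact h

lemma finite_near {n : ℕ} (A : Matrix (Fin n) (Fin n) ℝ) (hA : A.det ≠ 0) (r : ℝ)
    (t : Fin n → ℝ) : {w : Fin n → ℤ | qf A (fun j => t j - w j) < r}.Finite := by
  have h1 := finite_short A hA ((2 * (|r| + 1) + 2 * nq A t) ^ 2)
  refine (h1.union (Set.finite_singleton 0)).subset ?_
  intro w hw
  by_cases hw0 : w = 0
  · exact Or.inr hw0
  · left
    refine ⟨hw0, ?_⟩
    have hw' : qf A (fun j => t j - w j) < r := hw
    rw [nq_lt] at hw'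
    have h2 : nq A (fun j => (w j : ℝ)) ≤ nq A t + nq A (fun j => t j - w j) := by
      have h3 : (fun j => (w j : ℝ)) = t + -(fun j => t j - (w j : ℝ)) := by
        ext j
        simp only [Pi.add_apply, Pi.neg_apply]
        ring
      rw [h3]
      refine (nq_add_le A _ _).trans ?_
      rw [nq_neg]
    have h4 : Real.sqrt r ≤ |r| + 1 := by
      rw [Real.sqrt_le_left (by positivity)]
      have h5 := le_abs_self r
      have h6 := abs_nonneg r
      nlinarith
    have h7 : normSq A w = nq A (fun j => (w j : ℝ)) ^ 2 := by rw [nq_sq]; rfl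
    rw [h7]
    have h8 := nq_nonneg A (fun j => (w j : ℝ))
    have h9 := nq_nonneg A t
    have h10 := abs_nonneg r
    nlinarith

lemma le_count {n : ℕ} (A : Matrix (Fin n) (Fin n) ℝ) (hA : A.det ≠ 0) (r : ℝ)
    (t : Fin n → ℝ) (k : ℕ) :
    k ≤ count A r t ↔ ∃ F : Finset (Fin n → ℤ), F.card = k ∧
      ∀ w ∈ F, qf A (fun j => t j - w j) < r := by
  unfold count
  have hfin := finite_near A hA r t
  rw [Set.ncard_eq_toFinset_card _ hfin]
  constructor
  · intro h
    obtain ⟨F, hF, hFk⟩ := Finset.exists_subset_card_eq h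
    refine ⟨F, hFk, fun w hw => ?_⟩
    have := hF hw
    rw [Set.Finite.mem_toFinset] at this
    exact this
  · rintro ⟨F, rfl, hF⟩
    refine Finset.card_le_card fun w hw => ?_
    rw [Set.Finite.mem_toFinset]
    exact hF w hw

lemma measurable_count {n : ℕ} (A : Matrix (Fin n) (Fin n) ℝ) (hA : A.det ≠ 0) (r : ℝ) :
    Measurable (count A r) := by
  refine measurable_of_Ici fun k => ?_
  have : count A r ⁻¹' Set.Ici k = ⋃ F : {F : Finset (Fin n → ℤ) // F.card = k},
      ⋂ w ∈ F.1, {t | qf A (fun j => t j - w j) < r} := by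
    ext t
    rw [Set.mem_preimage, Set.mem_Ici, le_count A hA, Set.mem_iUnion]
    constructor
    · rintro ⟨F, hF, h⟩
      exact ⟨⟨F, hF⟩, Set.mem_iInter₂.2 h⟩
    · rintro ⟨F, h⟩
      refine ⟨F.1, F.2, fun w hw => ?_⟩
      have h2 := Set.mem_iInter₂.1 h w hw
      exact h2
  rw [this]
  refine MeasurableSet.iUnion fun F => MeasurableSet.biInter F.1.countable_toSet fun w _ => ?_
  refine (isOpen_lt ?_ continuous_const).measurableSet
  exact (continuous_qf A).comp (by fun_prop)

lemma count_periodic {n : ℕ} (A : Matrix (Fin n) (Fin n) ℝ) (r : ℝ) (t : Fin n → ℝ)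
    (w : Fin n → ℤ) : count A r (t + fun j => (w j : ℝ)) = count A r t := by
  unfold count
  have h1 : {z : Fin n → ℤ | qf A (fun j => (t + fun j => (w j : ℝ)) j - z j) < r} =
      (fun z => z + w) '' {z : Fin n → ℤ | qf A (fun j => t j - z j) < r} := by
    ext z
    constructor
    · intro hz
      refine ⟨z - w, ?_, by simp⟩
      change qf A (fun j => t j - ((z - w) j : ℤ)) < r
      convert! (show qf A (fun j => (t + fun j => (w j : ℝ)) j - z j) < r from hz) using 2
      ext j
      simp only [Pi.add_apply, Pi.sub_apply]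
      push_cast
      ring
    · rintro ⟨z, hz, rfl⟩
      change qf A (fun j => (t + fun j => (w j : ℝ)) j - ((z + w) j : ℤ)) < r
      convert! (show qf A (fun j => t j - z j) < r from hz) using 2
      ext j
      simp only [Pi.add_apply]
      push_cast
      ring
  rw [h1, Set.ncard_image_of_injective _ (add_left_injective w)]

end Pool.Agent.Lib.MP_ef2672_gt_Over
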